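import Pool.Agent.MP_a23355_nt.Mg.Key

/-!
Definitions for the lower bounds on the number of odd and even values of regular partitions.
-/

namespace Subb.Q

open PowerSeries Matrix MatrixGroups ModularForm Pool.Agent.Lib.QSeries
open UpperHalfPlane hiding I

/-- The theta series `∑ X ^ (n ^ 2)` over the integers `n ≡ a` modulo `M`. -/
noncomputable def tht (R : Type*) [CommRing R] (M a : ℤ) : R⟦X⟧ :=
  gen (fun i : ℤ => (a + M * i) ^ 2) fun _ => 1

section Laurent

variable {F : Type} [Field F]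

/-- All exponents of `f` are congruent to `r` modulo `M`. -/
def Hom (M r : ℤ) (f : LaurentSeries F) : Prop := ∀ n, f.coeff n ≠ 0 → n ≡ r [ZMOD M]

/-- The part of `f` with exponents congruent to `r` modulo `M`. -/
noncomputable def Er (M r : ℤ) (f : LaurentSeries F) : LaurentSeries F where
  coeff n := if n ≡ r [ZMOD M] then f.coeff n else 0
  isPWO_support' := f.isPWO_support.mono fun _ hn h => hn (by simp only [h, ite_self])

/-- The relations of the tower of theta series in characteristic two. -/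
structure Tower (N : ℤ) (y : LaurentSeries F) (ϑ : ℕ → ℤ → LaurentSeries F) : Prop where
  odd : Odd N
  pos : 0 < N
  ne : y ≠ 0
  ord : y.order = N
  add : ∀ e a, ϑ e a = ϑ (e + 1) a + ϑ (e + 1) (a + 2 ^ e)
  mul : ∀ e a, ϑ (e + 2) a * ϑ (e + 2) (a + 2 ^ (e + 1)) =
    y ^ 2 ^ (2 * e + 1) * ϑ (e + 1) (a + 2 ^ e) ^ 2
  base : ∀ a, Odd a → ϑ 2 a = y
  congr : ∀ e a b, a ≡ b [ZMOD 2 ^ e] → ϑ e a = ϑ e b
  hom : ∀ e a, Hom (2 ^ (e + 2)) (N * a ^ 2) (ϑ (e + 1) a)

/-- Polynomials in `1 / y`. -/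
noncomputable abbrev AA (y : LaurentSeries F) : Subalgebra F (LaurentSeries F) := Algebra.adjoin F {y⁻¹}

/-- Rational functions of `y`. -/
noncomputable abbrev kk (y : LaurentSeries F) : IntermediateField F (LaurentSeries F) :=
  IntermediateField.adjoin F {y⁻¹}

/-- Sums of homogeneous series that become integral after multiplication by `w`. -/
noncomputable def Wc (y : LaurentSeries F) (M : ℤ) (w : LaurentSeries F) : AddSubmonoid (LaurentSeries F) :=
  AddSubmonoid.closure {f | (∃ r, Hom M r f) ∧ IsIntegral (AA y) (f * w)}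

/-- A ring of families of series (expansions at all cusps). -/
structure Fam (y : LaurentSeries F) {I : Type} (R : Subalgebra (AA y) (I → LaurentSeries F))
    (i₁ i₀ : I) (n₀ : ℕ) : Prop where
  conj : ∀ f ∈ R, ∃ s : Multiset (LaurentSeries F),
    (∀ n, (s.map fun z => Polynomial.X - Polynomial.C z).prod.coeff n ∈ kk y) ∧
      s.card ≤ n₀ ∧ f i₁ ∈ s ∧ ∀ z ∈ s, ∃ i, z = f i
  tr : ∀ f ∈ R, ∀ i, ∃ f' ∈ R, f' i₁ = f i
  van : ∀ f ∈ R, f i₁ = 0 → f i₀ = 0

variable (F) in
/-- The discriminant in the variable `q ^ (1 / N)`. -/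
noncomputable def yL (N : ℕ) : LaurentSeries F := HahnSeries.ofPowerSeries ℤ F (ex N (yS F))

variable {O : Type} [CommRing O]

/-- The reduction of `X ^ (-a) * ψ`. -/
noncomputable def lau (π : O →+* F) (a : ℕ) (ψ : O⟦X⟧) : LaurentSeries F :=
  HahnSeries.ofPowerSeries ℤ F (PowerSeries.map π ψ) * HahnSeries.single (-(a : ℤ)) 1

end Laurent

variable {O : Type} [CommRing O]

/-- Families of expansions of weakly holomorphic forms of weight `w`, multiplied by `X ^ a`. -/
def MF (ι : O →+* ℂ) (N : ℕ) (w : ℤ) (a : ℕ) : Set (SL(2, ℤ) → O⟦X⟧) :=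
  {P | ∃ h : ℍ → ℂ, (∀ γ ∈ CongruenceSubgroup.Gamma N, h ∣[w] γ = h) ∧
    ∀ γ : SL(2, ℤ), Exp N (fun τ => Function.Periodic.qParam (N : ℝ) τ ^ a * (h ∣[w] γ) τ)
      (PowerSeries.map ι (P γ))}

/-- The Hecke operator on `X ^ (-a) * ψ`, multiplied by `l * X ^ (a * l)`. -/
noncomputable def hk (l a w : ℕ) (ψ : O⟦X⟧) : O⟦X⟧ :=
  C (l : O) * (X ^ (a * l) * PowerSeries.mk fun m => coeff (a + l * m) ψ) +
    C ((l : O) ^ w) * ex l ψ

end Subb.Q
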