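import Pool.Agent.MP_a23355_nt.H13.Defs

section

/-!
Field theory in Laurent series in characteristic two.
-/

namespace Subb.Q

open Polynomial IntermediateField
open scoped IntermediateField.algebraAdjoinAdjoin

variable {F : Type} [Field F] [CharP F 2] [PerfectField F] {y : LaurentSeries F} {N : ℤ}

omit [CharP F 2] [PerfectField F] in
theorem core1a_alg (c : F) : algebraMap F (LaurentSeries F) c = HahnSeries.C c := by
  first
    | rfl
    | simp [HahnSeries.algebraMap_apply']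

omit [CharP F 2] [PerfectField F] in
theorem core1a_inv_order (hy : y ≠ 0) (ho : y.order = N) : (y⁻¹).order = -N := by
  have h := HahnSeries.order_mul hy (inv_ne_zero hy)
  rw [mul_inv_cancel₀ hy, HahnSeries.order_one, ho] at h
  omega

omit [CharP F 2] [PerfectField F] in
theorem core1a_aeval (hN : 0 < N) (hy : y ≠ 0) (ho : y.order = N) :
    ∀ (n : ℕ) (p : F[X]), p.natDegree = n → p ≠ 0 →
      aeval y⁻¹ p ≠ 0 ∧ (aeval y⁻¹ p).order ≤ 0 := by
  intro n
  induction n with
  | zero =>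
    intro p hp h0
    rw [eq_C_of_natDegree_eq_zero hp] at h0 ⊢
    rw [aeval_C, core1a_alg]
    refine ⟨?_, HahnSeries.order_C.le⟩
    rw [← core1a_alg]
    exact (_root_.map_ne_zero _).2 (C_ne_zero.1 h0)
  | succ n ih =>
    intro p hp h0
    have hd : p.divX.natDegree = n := by
      rw [natDegree_divX_eq_natDegree_tsub_one, hp]; rfl
    have hd0 : p.divX ≠ 0 := by
      intro h
      rw [divX_eq_zero_iff] at h
      rw [h, natDegree_C] at hp
      omega
    obtain ⟨h1, h2⟩ := ih _ hd hd0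
    have hu : aeval y⁻¹ p.divX * y⁻¹ ≠ 0 := mul_ne_zero h1 (inv_ne_zero hy)
    have hou : (aeval y⁻¹ p.divX * y⁻¹).order < 0 := by
      rw [HahnSeries.order_mul h1 (inv_ne_zero hy), core1a_inv_order hy ho]
      omega
    have he : aeval y⁻¹ p = aeval y⁻¹ p.divX * y⁻¹ + HahnSeries.C (p.coeff 0) := by
      conv_lhs => rw [← divX_mul_X_add p]
      rw [map_add, map_mul, aeval_X, aeval_C, core1a_alg]
    have hc : (aeval y⁻¹ p).coeff (aeval y⁻¹ p.divX * y⁻¹).order ≠ 0 := by
      rw [he, HahnSeries.coeff_add, HahnSeries.C_apply, HahnSeries.coeff_single_of_ne hou.ne,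
        add_zero]
      exact HahnSeries.coeff_order_eq_zero.not.2 hu
    refine ⟨fun h => hc (by rw [h]; rfl), ?_⟩
    exact (HahnSeries.order_le_of_coeff_ne_zero hc).trans hou.le

omit [CharP F 2] [PerfectField F] in
/-- Nonzero polynomials in `1 / y` have no zero at infinity. -/
theorem AA_order (hN : 0 < N) (hy : y ≠ 0) (ho : y.order = N) {x : LaurentSeries F}
    (hx : x ∈ AA y) : x.order ≤ 0 := by
  rw [AA, Algebra.adjoin_singleton_eq_range_aeval] at hx
  obtain ⟨p, rfl⟩ := hx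
  by_cases hp : p = 0
  · simp [hp]
  · exact (core1a_aeval hN hy ho _ p rfl hp).2

omit [CharP F 2] [PerfectField F] in
theorem AA_trans (hN : 0 < N) (hy : y ≠ 0) (ho : y.order = N) : Transcendental F y⁻¹ := by
  rintro ⟨p, hp, h⟩
  exact (core1a_aeval hN hy ho _ p rfl hp).1 h

omit [PerfectField F] in
theorem core1a_char : CharP (LaurentSeries F) 2 :=
  charP_of_injective_algebraMap (algebraMap F (LaurentSeries F)).injective 2

theorem AA_dec {x : LaurentSeries F} (hx : x ∈ AA y) :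
    ∃ a ∈ AA y, ∃ b ∈ AA y, x = a ^ 2 + b ^ 2 * y⁻¹ := by
  have := core1a_char (F := F)
  have ht : y⁻¹ ∈ AA y := Algebra.subset_adjoin rfl
  induction hx using Algebra.adjoin_induction with
  | mem x hx =>
    obtain rfl : x = y⁻¹ := hx
    exact ⟨0, zero_mem _, 1, one_mem _, by ring⟩
  | algebraMap c =>
    have : Fact (Nat.Prime 2) := ⟨Nat.prime_two⟩
    obtain ⟨d, rfl⟩ := surjective_frobenius F 2 c
    refine ⟨algebraMap F _ d, Subalgebra.algebraMap_mem _ _, 0, zero_mem _, ?_⟩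
    rw [frobenius_def, map_pow]; ring
  | add x z _ _ h1 h2 =>
    obtain ⟨a, ha, b, hb, rfl⟩ := h1
    obtain ⟨a', ha', b', hb', rfl⟩ := h2
    refine ⟨a + a', add_mem ha ha', b + b', add_mem hb hb', ?_⟩
    rw [CharTwo.add_sq, CharTwo.add_sq]; ring
  | mul x z _ _ h1 h2 =>
    obtain ⟨a, ha, b, hb, rfl⟩ := h1
    obtain ⟨a', ha', b', hb', rfl⟩ := h2
    refine ⟨a * a' + b * b' * y⁻¹, add_mem (mul_mem ha ha') (mul_mem (mul_mem hb hb') ht),
      a * b' + a' * b, add_mem (mul_mem ha hb') (mul_mem ha' hb), ?_⟩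
    rw [CharTwo.add_sq, CharTwo.add_sq]; ring

theorem kk_dec {x : LaurentSeries F} (hx : x ∈ kk y) :
    ∃ a ∈ kk y, ∃ b ∈ kk y, x = a ^ 2 + b ^ 2 * y := by
  obtain ⟨p, q, rfl⟩ := (mem_adjoin_simple_iff F x).1 hx
  have hA : ∀ r : F[X], aeval y⁻¹ r ∈ AA y := fun r => Polynomial.aeval_mem_adjoin_singleton F _
  have hk : ∀ z ∈ AA y, z ∈ kk y := fun z hz => algebra_adjoin_le_adjoin F _ hz
  have ht : y⁻¹ ∈ kk y := mem_adjoin_simple_self F _
  obtain ⟨a, ha, b, hb, h⟩ := AA_dec (mul_mem (hA p) (hA q))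
  refine ⟨a / aeval y⁻¹ q, div_mem (hk _ ha) (hk _ (hA q)), b * y⁻¹ / aeval y⁻¹ q,
    div_mem (mul_mem (hk _ hb) ht) (hk _ (hA q)), ?_⟩
  have hyy : y⁻¹ ^ 2 * y = y⁻¹ := by
    by_cases h0 : y = 0
    · simp [h0]
    · field_simp
  by_cases hq : aeval y⁻¹ q = 0
  · simp [hq]
  · have h1 : aeval y⁻¹ p / aeval y⁻¹ q = (aeval y⁻¹ p * aeval y⁻¹ q) / aeval y⁻¹ q ^ 2 := by
      field_simp
    rw [h1, h, div_pow, div_pow, mul_pow, div_mul_eq_mul_div, mul_assoc, hyy, add_div]

omit [PerfectField F] in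
theorem core1a_nsq (hN : Odd N) (hy : y ≠ 0) (ho : y.order = N) {a b : LaurentSeries F}
    (h : a ^ 2 + b ^ 2 * y = 0) : a = 0 ∧ b = 0 := by
  have := core1a_char (F := F)
  have hb : b = 0 := by
    by_contra hb
    have h1 : a ^ 2 = b ^ 2 * y := by
      rw [← CharTwo.neg_eq (b ^ 2 * y)]; exact eq_neg_of_add_eq_zero_left h
    have h2 := congrArg HahnSeries.order h1
    rw [HahnSeries.order_mul (pow_ne_zero 2 hb) hy, HahnSeries.order_pow, HahnSeries.order_pow,
      ho] at h2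
    obtain ⟨k, hk⟩ := hN
    simp only [nsmul_eq_mul, Nat.cast_ofNat] at h2
    omega
  refine ⟨?_, hb⟩
  rw [hb] at h
  simpa using h

/-- Algebraic series are separable. -/
theorem kk_sep (hN : Odd N) (hy : y ≠ 0) (ho : y.order = N) {x : LaurentSeries F}
    (hx : IsIntegral (kk y) x) : IsSeparable (kk y) x := by
  have := core1a_char (F := F)
  have hch : CharP (kk y) 2 := charP_of_injective_algebraMap (algebraMap F (kk y)).injective 2
  rcases Polynomial.separable_or 2 (minpoly.irreducible hx) with h | ⟨-, g, hg, he⟩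
  · exact h
  exfalso
  have hdec : ∀ i, ∃ a b : kk y, (g.coeff i : LaurentSeries F) = a ^ 2 + b ^ 2 * y := fun i => by
    obtain ⟨a, ha, b, hb, h⟩ := kk_dec (g.coeff i).2
    exact ⟨⟨a, ha⟩, ⟨b, hb⟩, h⟩
  choose a b hab using hdec
  have hdeg : g.natDegree < (minpoly (kk y) x).natDegree := by
    have h1 := minpoly.natDegree_pos hx
    rw [← he, natDegree_expand] at h1 ⊢
    omega
  have key : ∀ c : ℕ → kk y,
      (∑ i ∈ Finset.range (g.natDegree + 1), (c i : LaurentSeries F) * x ^ i) = 0 →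
      c g.natDegree = 0 := by
    intro c hc
    have h0 : aeval x (∑ i ∈ Finset.range (g.natDegree + 1), monomial i (c i)) = 0 := by
      rw [map_sum, ← hc]
      refine Finset.sum_congr rfl fun i _ => ?_
      rw [aeval_monomial]; rfl
    have h1 : (∑ i ∈ Finset.range (g.natDegree + 1), monomial i (c i)).natDegree ≤
        g.natDegree := by
      refine natDegree_sum_le_of_forall_le _ _ fun i hi => ?_
      exact (natDegree_monomial_le _).trans (Nat.lt_succ_iff.1 (Finset.mem_range.1 hi))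
    have h2 := eq_zero_of_dvd_of_natDegree_lt (minpoly.dvd _ _ h0) (h1.trans_lt hdeg)
    have h3 := congrArg (fun p => Polynomial.coeff p g.natDegree) h2
    simpa [finsetSum_coeff, coeff_monomial] using h3
  have hz : (∑ i ∈ Finset.range (g.natDegree + 1), (a i : LaurentSeries F) * x ^ i) ^ 2 +
      (∑ i ∈ Finset.range (g.natDegree + 1), (b i : LaurentSeries F) * x ^ i) ^ 2 * y = 0 := by
    have h0 := minpoly.aeval (kk y) x
    rw [← he, expand_aeval, aeval_eq_sum_range] at h0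
    rw [CharTwo.sum_sq, CharTwo.sum_sq, Finset.sum_mul, ← Finset.sum_add_distrib, ← h0]
    refine Finset.sum_congr rfl fun i _ => ?_
    rw [Algebra.smul_def]
    change _ = (g.coeff i : LaurentSeries F) * _
    rw [hab i]; ring
  obtain ⟨h1, h2⟩ := core1a_nsq hN hy ho hz
  have h3 := hab g.natDegree
  rw [key a h1, key b h2] at h3
  have h4 : g.leadingCoeff = 0 := by
    apply Subtype.ext
    rw [leadingCoeff, h3]; simp
  exact hg.ne_zero (leadingCoeff_eq_zero.1 h4)

theorem alg_dec (hN : Odd N) (hy : y ≠ 0) (ho : y.order = N)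
    (L : IntermediateField (kk y) (LaurentSeries F)) [Algebra.IsAlgebraic (kk y) L]
    {x : LaurentSeries F} (hx : x ∈ L) : ∃ a ∈ L, ∃ b ∈ L, x = a ^ 2 + b ^ 2 * y := by
  have := core1a_char (F := F)
  have hch : CharP (kk y) 2 := charP_of_injective_algebraMap (algebraMap F (kk y)).injective 2
  have : Fact (Nat.Prime 2) := ⟨Nat.prime_two⟩
  have hk : ∀ z ∈ kk y, z ∈ L := fun z hz => L.algebraMap_mem ⟨z, hz⟩
  have hyL : y ∈ L := hk _ (by
    have := inv_mem (mem_adjoin_simple_self F y⁻¹)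
    rwa [inv_inv] at this)
  have hsep : Algebra.IsSeparable (kk y) (adjoin (kk y) (L : Set (LaurentSeries F))) := by
    rw [isSeparable_adjoin_iff_isSeparable]
    intro z hz
    apply kk_sep hN hy ho
    have h1 : IsIntegral (kk y) (⟨z, hz⟩ : L) :=
      (Algebra.IsAlgebraic.isAlgebraic (R := kk y) (⟨z, hz⟩ : L)).isIntegral
    exact h1.map L.val
  have he := adjoin_eq_adjoin_pow_expChar_of_isSeparable (kk y) (LaurentSeries F)
    (L : Set (LaurentSeries F)) 2
  rw [adjoin_self] at he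
  rw [he] at hx
  induction hx using IntermediateField.adjoin_induction with
  | mem z hz =>
    obtain ⟨w, hw, rfl⟩ := hz
    exact ⟨w, hw, 0, zero_mem _, by ring⟩
  | algebraMap c =>
    obtain ⟨a, ha, b, hb, h⟩ := kk_dec c.2
    exact ⟨a, hk _ ha, b, hk _ hb, h⟩
  | add x z _ _ h1 h2 =>
    obtain ⟨a, ha, b, hb, rfl⟩ := h1
    obtain ⟨a', ha', b', hb', rfl⟩ := h2
    refine ⟨a + a', add_mem ha ha', b + b', add_mem hb hb', ?_⟩
    rw [CharTwo.add_sq, CharTwo.add_sq]; ring
  | inv z _ h1 =>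
    obtain ⟨a, ha, b, hb, h⟩ := h1
    have hz : z ∈ L := by
      rw [h]; exact add_mem (pow_mem ha 2) (mul_mem (pow_mem hb 2) hyL)
    refine ⟨a / z, div_mem ha hz, b / z, div_mem hb hz, ?_⟩
    rw [div_pow, div_pow, div_mul_eq_mul_div, ← add_div, ← h]
    by_cases h0 : z = 0
    · simp [h0]
    · field_simp
  | mul x z _ _ h1 h2 =>
    obtain ⟨a, ha, b, hb, rfl⟩ := h1
    obtain ⟨a', ha', b', hb', rfl⟩ := h2
    refine ⟨a * a' + b * b' * y, add_mem (mul_mem ha ha') (mul_mem (mul_mem hb hb') hyL),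
      a * b' + a' * b, add_mem (mul_mem ha hb') (mul_mem ha' hb), ?_⟩
    rw [CharTwo.add_sq, CharTwo.add_sq]; ring

end Subb.Q

end

section

/-!
Integral closures, the valence inequality and primitive elements.
-/

namespace Subb.Q

open Polynomial IntermediateField
open scoped IntermediateField.algebraAdjoinAdjoin

variable {F : Type} [Field F] [CharP F 2] [PerfectField F] {y : LaurentSeries F} {N : ℤ}

omit [CharP F 2] [PerfectField F] in
theorem core1b_pid (h0 : 0 < N) (hy : y ≠ 0) (ho : y.order = N) :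
    IsPrincipalIdealRing (AA y) :=
  IsPrincipalIdealRing.of_surjective
    (Polynomial.algEquivOfTranscendental F y⁻¹ (AA_trans h0 hy ho)).toRingEquiv.toRingHom
    (Polynomial.algEquivOfTranscendental F y⁻¹ (AA_trans h0 hy ho)).surjective

omit [CharP F 2] [PerfectField F] in
theorem core1b_int {x : LaurentSeries F} (hx : x ∈ AA y) : IsIntegral (AA y) x :=
  isIntegral_algebraMap (R := AA y) (A := LaurentSeries F) (x := ⟨x, hx⟩)

omit [CharP F 2] [PerfectField F] in
theorem core1b_kk {x : LaurentSeries F} (hx : x ∈ AA y) : x ∈ kk y :=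
  algebra_adjoin_le_adjoin F _ hx

omit [CharP F 2] [PerfectField F] in
theorem core1b_mem (K : IntermediateField (kk y) (LaurentSeries F)) {x : LaurentSeries F}
    (hx : x ∈ kk y) : x ∈ K :=
  K.algebraMap_mem ⟨x, hx⟩

omit [CharP F 2] [PerfectField F] in
theorem core1b_t : y⁻¹ ∈ AA y := Algebra.self_mem_adjoin_singleton F _

omit [CharP F 2] [PerfectField F] in
theorem core1b_y : y ∈ kk y := by
  have := (kk y).inv_mem (core1b_kk core1b_t)
  rwa [inv_inv] at this

omit [CharP F 2] [PerfectField F] in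
theorem core1b_int_iff (K : IntermediateField (kk y) (LaurentSeries F)) {x : K} :
    IsIntegral (AA y) x ↔ IsIntegral (AA y) (x : LaurentSeries F) :=
  (isIntegral_algHom_iff (K.val.restrictScalars (AA y)) Subtype.val_injective).symm

omit [PerfectField F] in
theorem core1b_two : (2 : LaurentSeries F) = 0 := by
  have h : (2 : F) = 0 := CharP.cast_eq_zero F 2
  have := congrArg (algebraMap F (LaurentSeries F)) h
  rwa [map_ofNat, map_zero] at this

/-- A common denominator. -/
theorem exists_delta (hN : Odd N) (h0 : 0 < N) (hy : y ≠ 0) (ho : y.order = N)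
    (K : IntermediateField (kk y) (LaurentSeries F)) [FiniteDimensional (kk y) K] :
    ∃ δ ∈ AA y, δ ≠ 0 ∧ ∀ x ∈ K, IsIntegral (AA y) (x * δ ^ 2) → ∃ a ∈ K, ∃ b ∈ K,
      x = a ^ 2 + b ^ 2 * y⁻¹ ∧ IsIntegral (AA y) (a * δ ^ 2) ∧ IsIntegral (AA y) (b * δ ^ 2) := by
  classical
  have := core1b_pid h0 hy ho
  have : Algebra.IsAlgebraic (kk y) K := Algebra.IsAlgebraic.of_finite _ _
  have : Algebra.IsSeparable (kk y) K := ⟨fun x => IsSeparable.of_algHom K.val
    (kk_sep hN hy ho (IntermediateField.isIntegral_iff.1 (IsIntegral.of_finite (kk y) x)))⟩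
  have : Algebra.IsAlgebraic (AA y) K :=
    (IsFractionRing.comap_isAlgebraic_iff (A := AA y) (K := kk y) (C := K)).2 inferInstance
  obtain ⟨s, hs⟩ := (IsIntegralClosure.finite (AA y) (kk y) K (integralClosure (AA y) K)).fg_top
  have hd : ∀ w : K, ∃ a b : K, (w : LaurentSeries F) = (a : LaurentSeries F) ^ 2 +
      (b : LaurentSeries F) ^ 2 * y⁻¹ := fun w => by
    obtain ⟨a, ha, b, hb, e⟩ := alg_dec hN hy ho K w.2
    refine ⟨⟨a, ha⟩, ⟨b * y, K.mul_mem hb (core1b_mem K core1b_y)⟩, ?_⟩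
    rw [e]
    field_simp
  choose fa fb hab using hd
  obtain ⟨d, hd0, hd⟩ := Algebra.IsAlgebraic.exists_integral_multiples (AA y)
    ((s.image fun c : integralClosure (AA y) K => fa c) ∪ s.image fun c : integralClosure (AA y) K => fb c)
  have hd' : ∀ z ∈ (s.image fun c : integralClosure (AA y) K => fa c) ∪
      s.image fun c : integralClosure (AA y) K => fb c,
      IsIntegral (AA y) ((z : LaurentSeries F) * d) := fun z hz => by
    have := (core1b_int_iff K).1 (hd z hz)
    rw [mul_comm]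
    exact this
  have hd1 : (d : LaurentSeries F) ≠ 0 := fun e => hd0 (Subtype.ext e)
  have key : ∀ c : integralClosure (AA y) K, ∃ a ∈ K, ∃ b ∈ K,
      ((c : K) : LaurentSeries F) = a ^ 2 + b ^ 2 * y⁻¹ ∧ IsIntegral (AA y) (a * d) ∧
        IsIntegral (AA y) (b * d) := fun c => by
    have hc : c ∈ Submodule.span (AA y) (s : Set (integralClosure (AA y) K)) := hs ▸ trivial
    induction hc using Submodule.span_induction with
    | mem c hc =>
      exact ⟨fa c, (fa c).2, fb c, (fb c).2, hab c,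
        hd' _ (Finset.mem_union_left _ (Finset.mem_image_of_mem _ hc)),
        hd' _ (Finset.mem_union_right _ (Finset.mem_image_of_mem _ hc))⟩
    | zero => exact ⟨0, K.zero_mem, 0, K.zero_mem, by simp, by simpa using isIntegral_zero,
        by simpa using isIntegral_zero⟩
    | add c c' _ _ h h' =>
      obtain ⟨a, ha, b, hb, e, ia, ib⟩ := h
      obtain ⟨a', ha', b', hb', e', ia', ib'⟩ := h'
      refine ⟨a + a', K.add_mem ha ha', b + b', K.add_mem hb hb', ?_, ?_, ?_⟩
      · have : (((c + c' : integralClosure (AA y) K) : K) : LaurentSeries F) =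
            ((c : K) : LaurentSeries F) + ((c' : K) : LaurentSeries F) := rfl
        rw [this, e, e']
        linear_combination (-(a * a') - b * b' * y⁻¹) * core1b_two (F := F)
      · rw [add_mul]; exact ia.add ia'
      · rw [add_mul]; exact ib.add ib'
    | smul p c _ h =>
      obtain ⟨a, ha, b, hb, e, ia, ib⟩ := h
      obtain ⟨u, hu, v, hv, e'⟩ := AA_dec p.2
      have hu' := core1b_mem K (core1b_kk hu)
      have hv' := core1b_mem K (core1b_kk hv)
      have ht' := core1b_mem K (core1b_kk (core1b_t (y := y)))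
      refine ⟨u * a + v * y⁻¹ * b, K.add_mem (K.mul_mem hu' ha) (K.mul_mem (K.mul_mem hv' ht') hb),
        u * b + v * a, K.add_mem (K.mul_mem hu' hb) (K.mul_mem hv' ha), ?_, ?_, ?_⟩
      · have : (((p • c : integralClosure (AA y) K) : K) : LaurentSeries F) =
            (p : LaurentSeries F) * ((c : K) : LaurentSeries F) := rfl
        rw [this, e, e']
        linear_combination (-(u * a * v * y⁻¹ * b) - u * b * v * a * y⁻¹) * core1b_two (F := F)
      · rw [add_mul, mul_assoc u, mul_assoc _ b]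
        exact ((core1b_int hu).mul ia).add (((core1b_int hv).mul (core1b_int core1b_t)).mul ib)
      · rw [add_mul, mul_assoc u, mul_assoc v]
        exact ((core1b_int hu).mul ib).add ((core1b_int hv).mul ia)
  refine ⟨d, d.2, hd1, fun x hx hi => ?_⟩
  have hdK := core1b_mem K (core1b_kk d.2)
  obtain ⟨a, ha, b, hb, e, ia, ib⟩ := key ⟨⟨x * d ^ 2, K.mul_mem hx (pow_mem hdK 2)⟩,
    (core1b_int_iff K).2 hi⟩
  refine ⟨a / d, K.div_mem ha hdK, b / d, K.div_mem hb hdK, ?_, ?_, ?_⟩
  · have e' : x * d ^ 2 = a ^ 2 + b ^ 2 * y⁻¹ := e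
    field_simp
    field_simp at e'
    linear_combination e'
  · rwa [show a / d * d ^ 2 = a * d by field_simp]
  · rwa [show b / d * d ^ 2 = b * d by field_simp]

omit [CharP F 2] [PerfectField F] in
theorem core1b_order_prod {ι : Type*} (s : Finset ι) (f : ι → LaurentSeries F)
    (hf : ∀ i ∈ s, f i ≠ 0) : (∏ i ∈ s, f i).order = ∑ i ∈ s, (f i).order := by
  classical
  induction s using Finset.induction_on with
  | empty => simp
  | insert a s ha ih =>
    rw [Finset.prod_insert ha, Finset.sum_insert ha, HahnSeries.order_mul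
      (hf a (Finset.mem_insert_self _ _))
      (Finset.prod_ne_zero_iff.2 fun i hi => hf i (Finset.mem_insert_of_mem hi)),
      ih fun i hi => hf i (Finset.mem_insert_of_mem hi)]

/-- The valence inequality. -/
theorem valence (h0 : 0 < N) (hy : y ≠ 0) (ho : y.order = N)
    (L : IntermediateField (kk y) (LaurentSeries F)) [FiniteDimensional (kk y) L]
    [IsGalois (kk y) L] {ψ : L} (hψ : ψ ≠ 0) {w : LaurentSeries F} (hw : w ∈ AA y) (hw0 : w ≠ 0)
    (hi : IsIntegral (AA y) ((ψ : LaurentSeries F) * w)) :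
    ∑ σ : L ≃ₐ[kk y] L, ((σ ψ : LaurentSeries F).order + w.order) ≤ 0 := by
  have := core1b_pid h0 hy ho
  let wL : L := algebraMap (kk y) L ⟨w, core1b_kk hw⟩
  have h1 : IsIntegral (AA y) (ψ * wL) := (core1b_int_iff L).2 hi
  obtain ⟨a, ha⟩ := IsIntegrallyClosed.isIntegral_iff.1 (Algebra.isIntegral_norm (kk y) h1)
  have h2 := congrArg L.val (Algebra.norm_eq_prod_automorphisms (kk y) (ψ * wL))
  rw [← ha, map_prod] at h2
  have h3 : ∀ σ : L ≃ₐ[kk y] L, L.val (σ (ψ * wL)) = (σ ψ : LaurentSeries F) * w := fun σ => by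
    rw [map_mul, AlgEquiv.commutes]
    rfl
  have h4 : ∀ σ : L ≃ₐ[kk y] L, (σ ψ : LaurentSeries F) ≠ 0 := fun σ e =>
    hψ (σ.injective ((Subtype.ext e : σ ψ = 0).trans (map_zero σ).symm))
  have h5 : (a : LaurentSeries F) = ∏ σ : L ≃ₐ[kk y] L, (σ ψ : LaurentSeries F) * w :=
    h2.trans (Finset.prod_congr rfl fun σ _ => h3 σ)
  have h6 := AA_order h0 hy ho a.2
  rw [h5, core1b_order_prod _ _ fun σ _ => mul_ne_zero (h4 σ) hw0] at h6
  refine le_trans (le_of_eq (Finset.sum_congr rfl fun σ _ => ?_)) h6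
  rw [HahnSeries.order_mul (h4 σ) hw0]

variable {I : Type} {R : Subalgebra (AA y) (I → LaurentSeries F)} {i₁ i₀ : I} {n₀ : ℕ}

omit [CharP F 2] [PerfectField F] in
theorem core1b_deg (h : Fam y R i₁ i₀ n₀) {f : I → LaurentSeries F} (hf : f ∈ R) :
    IsIntegral (kk y) (f i₁) ∧ Module.finrank (kk y) (kk y)⟮f i₁⟯ ≤ n₀ := by
  obtain ⟨s, hc, hn, hs, -⟩ := h.conj f hf
  obtain ⟨q, e, hd, hm⟩ := lifts_and_natDegree_eq_and_monic
    ((lifts_iff_coeff_lifts (f := algebraMap (kk y) (LaurentSeries F))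
      (s.map fun z => X - C z).prod).2 fun n => ⟨⟨_, hc n⟩, rfl⟩)
    (monic_multiset_prod_of_monic s _ fun z _ => monic_X_sub_C z)
  have h0 : aeval (f i₁) q = 0 := by
    rw [aeval_def, eval₂_eq_eval_map, e, eval_multiset_prod]
    refine Multiset.prod_eq_zero ?_
    rw [Multiset.map_map]
    exact Multiset.mem_map.2 ⟨f i₁, hs, by simp⟩
  have hI : IsIntegral (kk y) (f i₁) := ⟨q, hm, h0⟩
  refine ⟨hI, ?_⟩
  rw [adjoin.finrank hI]
  rw [natDegree_multiset_prod_X_sub_C_eq_card] at hd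
  exact (natDegree_le_natDegree (minpoly.min _ _ hm h0)).trans (hd.le.trans hn)

omit [CharP F 2] [PerfectField F] in
theorem core1b_den {S : Set (LaurentSeries F)} (hS : ∀ z ∈ S, ∃ g ∈ R, g i₁ = z)
    {z : LaurentSeries F} (hz : z ∈ Algebra.adjoin (kk y) S) :
    ∃ a ∈ AA y, a ≠ 0 ∧ ∃ g ∈ R, g i₁ = a * z := by
  induction hz using Algebra.adjoin_induction with
  | mem z hz =>
    obtain ⟨g, hg, e⟩ := hS z hz
    exact ⟨1, one_mem _, one_ne_zero, g, hg, by rw [e, one_mul]⟩
  | algebraMap r =>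
    obtain ⟨p, q, hq, e⟩ := IsFractionRing.div_surjective (A := AA y) r
    have hq0 : (q : LaurentSeries F) ≠ 0 := fun e =>
      nonZeroDivisors.ne_zero hq (Subtype.ext e)
    refine ⟨q, q.2, hq0, algebraMap (AA y) _ p, R.algebraMap_mem p, ?_⟩
    have : algebraMap (kk y) (LaurentSeries F) r = (p : LaurentSeries F) / q := by
      rw [← e, map_div₀]
      rfl
    rw [this, mul_div_cancel₀ _ hq0]
    rfl
  | add z z' _ _ h h' =>
    obtain ⟨a, ha, a0, g, hg, e⟩ := h
    obtain ⟨a', ha', a0', g', hg', e'⟩ := h'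
    refine ⟨a * a', mul_mem ha ha', mul_ne_zero a0 a0',
      (⟨a', ha'⟩ : AA y) • g + (⟨a, ha⟩ : AA y) • g',
      add_mem (R.smul_mem hg _) (R.smul_mem hg' _), ?_⟩
    change a' * g i₁ + a * g' i₁ = _
    rw [e, e']
    ring
  | mul z z' _ _ h h' =>
    obtain ⟨a, ha, a0, g, hg, e⟩ := h
    obtain ⟨a', ha', a0', g', hg', e'⟩ := h'
    refine ⟨a * a', mul_mem ha ha', mul_ne_zero a0 a0', g * g', mul_mem hg hg', ?_⟩
    change g i₁ * g' i₁ = _
    rw [e, e']
    ring

/-- A primitive element. -/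
theorem exists_prim (hN : Odd N) (hy : y ≠ 0) (ho : y.order = N) (h : Fam y R i₁ i₀ n₀) :
    ∃ f₀ ∈ R, IsIntegral (kk y) (f₀ i₁) ∧ ∀ f ∈ R, f i₁ ∈ (kk y)⟮f₀ i₁⟯ := by
  let D : Set ℕ := {d | ∃ f ∈ R, Module.finrank (kk y) (kk y)⟮f i₁⟯ = d}
  have hb : BddAbove D := ⟨n₀, fun d ⟨f, hf, e⟩ => e ▸ (core1b_deg h hf).2⟩
  obtain ⟨f₀, hf₀, e₀⟩ := Nat.sSup_mem (s := D) ⟨_, 0, R.zero_mem, rfl⟩ hb
  have i0 := (core1b_deg h hf₀).1
  refine ⟨f₀, hf₀, i0, fun f hf => ?_⟩
  have i1 := (core1b_deg h hf).1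
  let E := (kk y)⟮f₀ i₁, f i₁⟯
  have : FiniteDimensional (kk y) E := finiteDimensional_adjoin_pair i0 i1
  have : Algebra.IsSeparable (kk y) E := ⟨fun x => IsSeparable.of_algHom E.val
    (kk_sep hN hy ho (IntermediateField.isIntegral_iff.1 (IsIntegral.of_finite (kk y) x)))⟩
  obtain ⟨γ, hγ⟩ := Field.exists_primitive_element (kk y) E
  have hE : (kk y)⟮(γ : LaurentSeries F)⟯ = E := by
    rw [← lift_adjoin_simple, hγ, IntermediateField.lift_top]
  have hγ' : (γ : LaurentSeries F) ∈ Algebra.adjoin (kk y) {f₀ i₁, f i₁} := by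
    rw [← adjoin_toSubalgebra_of_isAlgebraic]
    · exact γ.2
    · rintro x (rfl | rfl)
      exacts [i0.isAlgebraic, i1.isAlgebraic]
  obtain ⟨a, ha, a0, g, hg, e⟩ := core1b_den (R := R) (i₁ := i₁) (by
    rintro z (rfl | rfl)
    exacts [⟨f₀, hf₀, rfl⟩, ⟨f, hf, rfl⟩]) hγ'
  have hle : E ≤ (kk y)⟮g i₁⟯ := by
    rw [← hE, adjoin_simple_le_iff, show (γ : LaurentSeries F) = g i₁ / a by
      rw [e, mul_div_cancel_left₀ _ a0]]
    exact div_mem (mem_adjoin_simple_self _ _) (core1b_mem _ (core1b_kk ha))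
  have := adjoin.finiteDimensional (core1b_deg h hg).1
  have h1 : Module.finrank (kk y) E ≤ Module.finrank (kk y) (kk y)⟮f₀ i₁⟯ :=
    (finrank_le_of_le_right hle).trans (e₀ ▸ le_csSup hb ⟨g, hg, rfl⟩)
  have h2 : (kk y)⟮f₀ i₁⟯ = E := IntermediateField.eq_of_le_of_finrank_le
    (adjoin_simple_le_iff.2 (subset_adjoin _ _ (Set.mem_insert _ _))) h1
  rw [h2]
  exact subset_adjoin _ _ (Set.mem_insert_of_mem _ rfl)

omit [CharP F 2] [PerfectField F] in
/-- Relations transfer to the second cusp. -/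
theorem Fam.transfer (h : Fam y R i₁ i₀ n₀) {f f₀ : I → LaurentSeries F} (hf : f ∈ R)
    (hf₀ : f₀ ∈ R) (p : (kk y)[X]) (e : f i₁ = aeval (f₀ i₁) p) : f i₀ = aeval (f₀ i₀) p := by
  obtain ⟨b, hb, hq⟩ := IsLocalization.integerNormalization_spec (nonZeroDivisors (AA y)) p
  generalize IsLocalization.integerNormalization (nonZeroDivisors (AA y)) p = q at hq
  have hb0 : (b : LaurentSeries F) ≠ 0 := fun e => nonZeroDivisors.ne_zero hb (Subtype.ext e)
  have hm : b • f - aeval f₀ q ∈ R := sub_mem (R.smul_mem hf b)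
    (Algebra.adjoin_le (Set.singleton_subset_iff.2 hf₀) (aeval_mem_adjoin_singleton _ _))
  have hv : ∀ i, (b • f - aeval f₀ q) i = b * (f i - aeval (f₀ i) p) := fun i => by
    have : aeval (f₀ i) q = (b : LaurentSeries F) * aeval (f₀ i) p := by
      rw [← aeval_map_algebraMap (kk y), hq, ← algebraMap_smul (kk y) b p, map_smul,
        Algebra.smul_def]
      rfl
    have h2 : aeval f₀ q i = aeval (f₀ i) q :=
      (aeval_algHom_apply (Pi.evalAlgHom (AA y) (fun _ : I => LaurentSeries F) i) f₀ q).symm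
    rw [Pi.sub_apply, h2, this, mul_sub]
    rfl
  have := h.van _ hm (by rw [hv, e, sub_self, mul_zero])
  rw [hv] at this
  exact sub_eq_zero.1 ((mul_eq_zero.1 this).resolve_left hb0)

end Subb.Q

end
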