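import Pool.Agent.MP_a23355_nt.H13.Defs

section

/-!
The base ring, the system of expansions and the cusp with the pole.
-/

namespace Subb.Q

open PowerSeries Complex Matrix MatrixGroups ModularForm
open UpperHalfPlane hiding I
open scoped Real

open NumberField in
lemma base_dvr (K : Type) [Field K] [NumberField K] (φ : K →+* ℂ) (z : 𝓞 K) (hz : IsUnit z) :
    ∃ (O F : Type) (_ : CommRing O) (_ : IsDomain O) (_ : IsDiscreteValuationRing O)
      (_ : Field F) (_ : Finite F) (_ : CharP F 2) (ι : O →+* ℂ) (π' : O →+* F) (ζ : Oˣ),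
      Function.Injective ι ∧ ι ζ = φ z ∧ Function.Surjective π' ∧
        ∀ x, π' x = 0 ↔ ¬IsUnit x := by
  have h2 : (Ideal.span {(2 : ℤ)}).IsMaximal :=
    PrincipalIdealRing.isMaximal_of_irreducible Int.prime_two.irreducible
  obtain ⟨P, hP, hP2⟩ := Ideal.exists_ideal_over_maximal_of_isIntegral (S := 𝓞 K)
    (Ideal.span {(2 : ℤ)}) (by
      rw [(RingHom.injective_iff_ker_eq_bot _).1 (algebraMap ℤ (𝓞 K)).injective_int]
      exact bot_le)
  have hmem : (2 : 𝓞 K) ∈ P := by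
    have : (2 : ℤ) ∈ P.comap (algebraMap ℤ (𝓞 K)) := by
      rw [hP2]
      exact Ideal.mem_span_singleton_self _
    simpa using this
  have hne : P ≠ ⊥ := by
    rintro rfl
    exact two_ne_zero (Ideal.mem_bot.1 hmem)
  have hdvr : IsDiscreteValuationRing (Localization.AtPrime P) :=
    IsLocalization.AtPrime.isDiscreteValuationRing_of_dedekind_domain (𝓞 K) hne _
  let ψ : 𝓞 K →+* ℂ := φ.comp (algebraMap (𝓞 K) K)
  have hψ : Function.Injective ψ := φ.injective.comp RingOfIntegers.coe_injective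
  have hu : ∀ y : P.primeCompl, IsUnit (ψ y) := fun y =>
    isUnit_iff_ne_zero.2 fun h => y.2 (by
      have : (y : 𝓞 K) = 0 := hψ (h.trans (map_zero ψ).symm)
      rw [this]
      exact P.zero_mem)
  let O := Localization.AtPrime P
  let F := IsLocalRing.ResidueField O
  let π' : O →+* F := IsLocalRing.residue O
  have hfin : Finite F := by
    have : Finite (𝓞 K ⧸ P) := Ideal.finiteQuotientOfFreeOfNeBot P hne
    exact Finite.of_equiv _ (IsLocalization.AtPrime.equivQuotMaximalIdeal P O).toEquiv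
  have hπ : ∀ x, π' x = 0 ↔ ¬IsUnit x := fun x => by
    simp only [π', F, IsLocalRing.residue_eq_zero_iff,
      IsLocalRing.mem_maximalIdeal, mem_nonunits_iff]
  have hF : ((2 : ℕ) : F) = 0 := by
    have h := (hπ (algebraMap (𝓞 K) O 2)).2 (fun h =>
      (IsLocalization.AtPrime.isUnit_to_map_iff O P 2).1 h hmem)
    rw [map_ofNat, map_ofNat] at h
    exact_mod_cast h
  have hc : CharP F 2 := (CharP.charP_iff_prime_eq_zero Nat.prime_two).2 hF
  refine ⟨O, F, inferInstance, inferInstance, hdvr, inferInstance, hfin, hc,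
    IsLocalization.lift hu, π', (hz.map (algebraMap (𝓞 K) O)).unit, ?_, ?_,
    IsLocalRing.residue_surjective, hπ⟩
  · rw [IsLocalization.lift_injective_iff]
    intro x y
    exact ⟨fun h => by
      rw [IsLocalization.injective O P.primeCompl_le_nonZeroDivisors h], fun h => by rw [hψ h]⟩
  · rw [IsUnit.unit_spec, IsLocalization.lift_eq]
    rfl

open NumberField in
/-- As `exists_base`, with the (finite) residue field. -/
theorem exists_base' (N : ℕ) (hN : N ≠ 0) :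
    ∃ (O F : Type) (_ : CommRing O) (_ : IsDomain O) (_ : IsDiscreteValuationRing O)
      (_ : Field F) (_ : Finite F) (_ : CharP F 2) (ι : O →+* ℂ) (π' : O →+* F) (ζ : Oˣ),
      Function.Injective ι ∧ ι ζ = cexp (2 * π * I / N) ∧ Function.Surjective π' ∧
        ∀ x, π' x = 0 ↔ ¬IsUnit x := by
  have hz := Complex.isPrimitiveRoot_exp N hN
  set z := Complex.exp (2 * Real.pi * Complex.I / N)
  have hi : IsIntegral ℤ z := hz.isIntegral (Nat.pos_of_ne_zero hN)
  let K := IntermediateField.adjoin ℚ {z}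
  have : FiniteDimensional ℚ K := IntermediateField.adjoin.finiteDimensional hi.tower_top
  have : NumberField K := NumberField.mk
  let w : K := ⟨z, IntermediateField.mem_adjoin_simple_self ℚ z⟩
  have hw : IsIntegral ℤ w :=
    (isIntegral_algHom_iff (K.val.restrictScalars ℤ) Subtype.val_injective).1 hi
  have hp : (⟨w, hw⟩ : 𝓞 K) ^ N = 1 := Subtype.ext (Subtype.ext hz.pow_eq_one)
  exact base_dvr K K.subtype ⟨w, hw⟩ (IsUnit.of_pow_eq_one hp hN)

theorem base_lvl_aux {O F : Type*} [CommRing O] [Field F] [CharP F 2] (ι : O →+* ℂ)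
    (hι : Function.Injective ι) (π' : O →+* F) (n : ℕ) : ∀ k : ℤ, k < n → 4 ∣ k →
      ∀ (f : ModularForm 𝒮ℒ k) (φ : O⟦X⟧), qExpansion 1 f = PowerSeries.map ι φ →
        ∃ a : Polynomial F, (a = 0 ∨ 12 * (a.natDegree : ℤ) ≤ k) ∧
          PowerSeries.map π' φ = Polynomial.aeval (yS F) a := by
  have neg : ∀ k : ℤ, k < 0 → ∀ (f : ModularForm 𝒮ℒ k) (φ : O⟦X⟧),
      qExpansion 1 f = PowerSeries.map ι φ →
        ∃ a : Polynomial F, (a = 0 ∨ 12 * (a.natDegree : ℤ) ≤ k) ∧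
          PowerSeries.map π' φ = Polynomial.aeval (yS F) a := by
    intro k hk f φ h
    rw [ModularFormClass.levelOne_neg_weight_eq_zero hk f, qExpansion_zero,
      ← map_zero (PowerSeries.map ι)] at h
    exact ⟨0, Or.inl rfl, by rw [← PowerSeries.map_injective ι hι h, map_zero, map_zero]⟩
  induction n with
  | zero => exact fun k hk _ => neg k hk
  | succ n ih =>
    intro k hk h4 f φ h
    rcases lt_or_ge k 0 with h0 | h0
    · exact neg k h0 f φ h
    obtain ⟨j, rfl⟩ := h4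
    obtain ⟨i, rfl⟩ := Int.eq_ofNat_of_zero_le (show 0 ≤ j by omega)
    set c := constantCoeff φ with hc
    let e : ModularForm 𝒮ℒ (4 * (i : ℤ)) := ModularForm.mcast (by ring) (E₄.pow i)
    have he : qExpansion 1 e = (1 + 240 * sS ℂ 3) ^ i := by
      rw [← lvl_E4, ← ModularForm.qExpansion_pow one_pos one_mem_strictPeriods_SL]
      rfl
    have hg : qExpansion 1 (f - ι c • e : ModularForm 𝒮ℒ (4 * (i : ℤ))) =
        PowerSeries.map ι (φ - C c * (1 + 240 * sS O 3) ^ i) := by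
      rw [FunLike.coe_sub, ModularForm.qExpansion_sub one_pos one_mem_strictPeriods_SL,
        FunLike.coe_smul, ModularForm.qExpansion_smul one_pos one_mem_strictPeriods_SL, h, he]
      simp only [map_mul, map_sub, map_add, map_pow, map_one, map_ofNat, lvl_map_sS, map_C,
        smul_eq_C_mul]
    have hz : constantCoeff (φ - C c * (1 + 240 * sS O 3) ^ i) = 0 := by
      simp only [map_mul, map_sub, map_add, map_pow, map_one, lvl_const_sS, constantCoeff_C,
        mul_zero, add_zero, one_pow, mul_one, hc, sub_self]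
    obtain ⟨ψ₀, hψ₀⟩ := X_dvd_iff.mpr hz
    obtain ⟨v, hv⟩ : ∃ v : O⟦X⟧, fS O ^ 24 * v = 1 :=
      (IsUnit.pow 24 (isUnit_iff_constantCoeff.mpr
        (by rw [constantCoeff_fS]; exact isUnit_one))).exists_right_inv
    have hψ : φ - C c * (1 + 240 * sS O 3) ^ i = yS O * (v * ψ₀) := by
      rw [hψ₀, yS]
      linear_combination (-(X * ψ₀)) * hv
    have hcusp : (qExpansion 1 (f - ι c • e : ModularForm 𝒮ℒ (4 * (i : ℤ)))).coeff 0 = 0 := by
      rw [hg, coeff_map, coeff_zero_eq_constantCoeff_apply, hz, map_zero]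
    have hm := qExpansion_eq_qExpansion_discriminant_mul _ hcusp
    rw [hg, hψ, map_mul, map_yS, lvl_delta] at hm
    obtain ⟨a, hdeg, ha⟩ := ih (4 * (i : ℤ) - 12) (by push_cast at hk; omega) ⟨i - 3, by ring⟩ _ _
      (mul_left_cancel₀ lvl_yS_ne hm).symm
    refine ⟨Polynomial.C (π' c) + Polynomial.X * a, Or.inr ?_, ?_⟩
    · rcases hdeg with rfl | hdeg
      · rw [mul_zero, add_zero, Polynomial.natDegree_C]
        omega
      · have h1 := Polynomial.natDegree_add_le (Polynomial.C (π' c)) (Polynomial.X * a)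
        have h2 := Polynomial.natDegree_mul_le (p := Polynomial.X) (q := a)
        have h3 := Polynomial.natDegree_X_le (R := F)
        rw [Polynomial.natDegree_C] at h1
        omega
    have h240 : (240 : F⟦X⟧) = 0 := by linear_combination 120 * lvl_two F
    rw [sub_eq_iff_eq_add.mp hψ, map_add, map_mul, map_yS, ha]
    simp only [map_mul, map_add, map_pow, map_one, map_ofNat, map_C, h240, zero_mul, add_zero,
      one_pow, mul_one, Polynomial.aeval_C, Polynomial.aeval_X, ← C_eq_algebraMap]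
    ring

theorem base_lvl_one {O F : Type*} [CommRing O] [Field F] [CharP F 2] (ι : O →+* ℂ)
    (hι : Function.Injective ι) (π' : O →+* F) (i : ℕ) (f : ℍ → ℂ) (φ : O⟦X⟧)
    (hf : ∀ γ : SL(2, ℤ), f ∣[((4 * i : ℕ) : ℤ)] γ = f) (he : Exp 1 f (PowerSeries.map ι φ)) :
    ∃ a : Polynomial F, 3 * a.natDegree ≤ i ∧
      PowerSeries.map π' φ = Polynomial.aeval (yS F) a := by
  let g : ModularForm 𝒮ℒ ((4 * i : ℕ) : ℤ) :=
    { toFun := f
      slash_action_eq' := fun _ ⟨γ, hγ⟩ => hγ ▸ hf γ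
      holo' := he.mdiff one_ne_zero
      bdd_at_cusps' := fun {c} hc => by
        rw [Subgroup.IsArithmetic.isCusp_iff_isCusp_SL2Z] at hc
        rw [OnePoint.isBoundedAt_iff_forall_SL2Z hc]
        intro γ _
        rw [hf γ]
        exact he.bdd one_ne_zero }
  obtain ⟨a, h1, h2⟩ := base_lvl_aux ι hι π' (4 * i + 1) _ (by push_cast; omega)
    ⟨i, by push_cast; ring⟩ g φ (lvl_qexp g he)
  refine ⟨a, ?_, h2⟩
  rcases h1 with rfl | h1
  · simp
  · push_cast at h1
    omega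

theorem base_gamma (D : Subgroup SL(2, ℤ)) (hT : ModularGroup.T ∈ D) {n : ℕ}
    (hn : n ≠ 0) (hA : ∀ p : ℕ, p.Prime → p ∣ n → ∃ d ∈ D, ¬(p : ℤ) ∣ d 1 0) :
    ∃ γ ∈ D, IsCoprime (γ 1 0) (n : ℤ) := by
  have key : ∀ S : Finset ℕ, S ⊆ n.primeFactors →
      ∃ γ ∈ D, ∀ p ∈ S, ¬(p : ℤ) ∣ γ 1 0 := by
    intro S
    induction S using Finset.induction_on with
    | empty =>
      exact fun _ => ⟨1, D.one_mem, by simp⟩
    | insert p S hpS ih =>
      intro hS
      obtain ⟨γ, hγ, h1⟩ := ih ((Finset.subset_insert p S).trans hS)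
      by_cases hp : (p : ℤ) ∣ γ 1 0
      swap
      · exact ⟨γ, hγ, Finset.forall_mem_insert _ _ _ |>.2 ⟨hp, h1⟩⟩
      have hpn := hS (Finset.mem_insert_self p S)
      have hpp := Nat.prime_of_mem_primeFactors hpn
      have hpz : Prime (p : ℤ) := Nat.prime_iff_prime_int.1 hpp
      obtain ⟨g, hg, hgp⟩ := hA p hpp (Nat.dvd_of_mem_primeFactors hpn)
      set k : ℤ := ∏ q ∈ S, (q : ℤ) with hk
      have hpk : ¬(p : ℤ) ∣ k := by
        rw [hk, hpz.dvd_finsetProd_iff]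
        rintro ⟨q, hq, hd⟩
        have hqp := Nat.prime_of_mem_primeFactors (hS (Finset.mem_insert_of_mem hq))
        rw [Int.natCast_dvd_natCast, Nat.prime_dvd_prime_iff_eq hpp hqp] at hd
        exact hpS (hd ▸ hq)
      have hp0 : ¬(p : ℤ) ∣ γ 0 0 := fun h => by
        apply hpz.not_dvd_one
        rw [← grpa_det γ]
        exact (h.mul_right _).sub (hp.mul_left _)
      refine ⟨g * ModularGroup.T ^ k * g⁻¹ * γ,
        D.mul_mem (D.mul_mem (D.mul_mem hg (D.zpow_mem hT k)) (D.inv_mem hg)) hγ,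
        Finset.forall_mem_insert _ _ _ |>.2 ⟨fun h => ?_, fun q hq h => ?_⟩⟩
      · rw [grpa_conj, dvd_add_right hp] at h
        rcases hpz.dvd_or_dvd h with h | h
        · exact (hpz.dvd_or_dvd h).elim hpk hgp
        · rw [dvd_sub_right (hp.mul_left _)] at h
          exact (hpz.dvd_or_dvd h).elim hgp hp0
      · rw [grpa_conj, mul_assoc,
          dvd_add_left ((Finset.dvd_prod_of_mem (fun q : ℕ => (q : ℤ)) hq).mul_right _)] at h
        exact h1 q hq h
  obtain ⟨γ, hγ, h1⟩ := key _ subset_rfl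
  refine ⟨γ, hγ, Int.isCoprime_iff_gcd_eq_one.2 (Nat.eq_one_iff_not_exists_prime_dvd.2 ?_)⟩
  intro p hp hd
  have hd' : (p : ℤ) ∣ (Int.gcd (γ 1 0) n : ℕ) := Int.natCast_dvd_natCast.2 hd
  exact h1 p (Nat.mem_primeFactors.2 ⟨hp, Int.natCast_dvd_natCast.1
    (hd'.trans (Int.gcd_dvd_right _ _)), hn⟩) (hd'.trans (Int.gcd_dvd_left _ _))

variable {O F : Type} [CommRing O] [IsDomain O] [Field F] [CharP F 2] {ι : O →+* ℂ} {N : ℕ}
  {ζ : Oˣ}

/-- As `exists_sys`, with the underlying sets. -/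
theorem exists_sys' (hι : Function.Injective ι) (π' : O →+* F) (hN : N ≠ 0)
    (hζ : ι ζ = cexp (2 * π * I / N)) : ∃ S : Sys π' N ζ, S.M = famSet ι N := by
  have hinj : Function.Injective (PowerSeries.map ι) := PowerSeries.map_injective ι hι
  have htr : ∀ {i P}, P ∈ famSet ι N i → P ModularGroup.T = rescale (ζ : O) (P 1) := by
    rintro i P ⟨f, -, hf⟩
    apply hinj
    have h1 := hf 1
    rw [SlashAction.slash_one] at h1
    rw [map_rescale, hζ]
    exact (hf _).unique hN (sysc_T hN h1 _)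
  refine ⟨⟨famSet ι N, fun i => ⟨0, fun γ _ => by simp, fun γ => by simpa using Exp.zero⟩,
    ⟨1, fun γ _ => by simpa using is_invariant_one γ, fun γ => ?_⟩, ?_, ?_, ?_, ?_, ?_, ?_, htr,
    ?_, ?_⟩, rfl⟩
  · have e : (1 : ℍ → ℂ) ∣[((4 * 0 : ℕ) : ℤ)] γ = 1 := by simpa using is_invariant_one γ
    rw [e, map_one, ← map_one C]
    exact Exp.const 1
  · rintro i P Q ⟨f, hf, hf'⟩ ⟨g, hg, hg'⟩
    refine ⟨f + g, fun γ hγ => by rw [SlashAction.add_slash, hf γ hγ, hg γ hγ], fun γ => ?_⟩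
    rw [SlashAction.add_slash, map_add]
    exact (hf' γ).add (hg' γ)
  · rintro i P x ⟨f, hf, hf'⟩
    refine ⟨ι x • f, fun γ hγ => by rw [SL_smul_slash, hf γ hγ], fun γ => ?_⟩
    rw [SL_smul_slash, map_mul, map_C]
    exact (hf' γ).smul _
  · rintro i j P Q ⟨f, hf, hf'⟩ ⟨g, hg, hg'⟩
    have e : ((4 * (i + j) : ℕ) : ℤ) = ((4 * i : ℕ) : ℤ) + ((4 * j : ℕ) : ℤ) := by push_cast; ring
    refine ⟨f * g, fun γ hγ => by rw [e, mul_slash_SL2, hf γ hγ, hg γ hγ], fun γ => ?_⟩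
    rw [e, mul_slash_SL2, map_mul]
    exact (hf' γ).mul (hg' γ)
  · rintro i P h ⟨f, hf, hf'⟩
    refine ⟨f ∣[((4 * i : ℕ) : ℤ)] h, fun γ hγ => ?_, fun γ => ?_⟩
    · have hc := (CongruenceSubgroup.Gamma_normal N).conj_mem γ hγ h
      rw [← SlashAction.slash_mul, show h * γ = (h * γ * h⁻¹) * h by group,
        SlashAction.slash_mul, hf _ hc]
    · rw [← SlashAction.slash_mul]
      exact hf' _
  · rintro i P x hx ⟨f, hf, hf'⟩
    have hx' : ι x ≠ 0 := fun h => hx (hι (by rw [h, map_zero]))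
    refine ⟨(ι x)⁻¹ • f, fun γ hγ => by rw [SL_smul_slash, hf γ hγ], fun γ => ?_⟩
    have h := (hf' γ).smul (ι x)⁻¹
    rw [map_mul, map_C, ← mul_assoc, ← map_mul, inv_mul_cancel₀ hx', map_one, one_mul] at h
    rwa [SL_smul_slash]
  · rintro i P ⟨f, hf, hf'⟩ γ hγ g
    apply hinj
    have h := hf' (γ * g)
    rw [SlashAction.slash_mul, hf γ hγ] at h
    exact h.unique hN (hf' g)
  · intro i P hP hc
    have hT := htr hP
    obtain ⟨f, -, hf'⟩ := hP
    have h1 := hf' 1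
    rw [SlashAction.slash_one] at h1
    have hfγ : ∀ γ : SL(2, ℤ), f ∣[((4 * i : ℕ) : ℤ)] γ = f := fun γ => by
      have h := hf' γ
      rw [hc γ] at h
      exact h.fun_eq h1
    have hprim := IsPrimitiveRoot.coe_units_iff.mpr (sysc_root hι hN hζ)
    have hex : P 1 = ex N (PowerSeries.mk fun n => coeff (N * n) (P 1)) := by
      ext n
      rw [coeff_ex hN]
      split_ifs with hd
      · rw [coeff_mk, Nat.mul_div_cancel' hd]
      · have h := congrArg (coeff n) hT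
        rw [hc, coeff_rescale] at h
        have h2 : ((ζ : O) ^ n - 1) * coeff n (P 1) = 0 := by linear_combination -h
        refine (mul_eq_zero.mp h2).resolve_left fun h3 => hd ?_
        exact (hprim.pow_eq_one_iff_dvd n).mp (sub_eq_zero.mp h3)
    rw [hex, map_ex] at h1
    have h2 := (exp_ex_iff (n := 1) one_ne_zero hN).mp (by rwa [one_mul])
    obtain ⟨a, ha⟩ := lvl_one ι hι π' i f _ hfγ h2
    exact ⟨a, by rw [hex, map_ex, ha, ex_aeval]⟩
  · intro g hg h3
    have h3' : 3 ∣ N := by exact_mod_cast (Dvd.intro _ rfl : (3 : ℤ) ∣ 3 * g.det).trans h3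
    have hex : ∀ γ : SL(2, ℤ), ∃ φ : O⟦X⟧,
        Exp N (Dm g ∣[(4 : ℤ)] γ) (PowerSeries.map ι φ) := fun γ => by
      have hd : (g * γ : Matrix (Fin 2) (Fin 2) ℤ).det = g.det := by
        rw [det_mul, γ.det_coe, mul_one]
      obtain ⟨γ', a, d, b, h1, -, h2⟩ := hnf (g * γ) (hd ▸ hg)
      rw [hd] at h2
      rw [← h2] at h3
      have h4 : 3 * d ∣ N := by
        have : ((3 * d : ℕ) : ℤ) ∣ N :=
          (Dvd.intro a (by push_cast; ring) : ((3 * d : ℕ) : ℤ) ∣ 3 * (a * d)).trans h3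
        exact_mod_cast this
      obtain ⟨e, he⟩ := h4
      exact ⟨_, sysc_fam hN hζ hg h3' γ γ' a d e b he h1⟩
    choose P hP using hex
    refine ⟨P, ⟨Dm g, fun γ hγ => ?_, hP⟩, fun γ γ' a d e b he h => ?_⟩
    · exact (Dm_slash hg γ).trans (Dm_inv hg h3 hγ)
    · exact hinj ((hP γ).unique hN (sysc_fam hN hζ hg h3' γ γ' a d e b he h))

/-- Level one, with the degree. -/
theorem lvl_deg (hι : Function.Injective ι) (π' : O →+* F) (hN : N ≠ 0)
    (hζ : ι ζ = cexp (2 * π * I / N)) {i : ℕ} {P : SL(2, ℤ) → O⟦X⟧} (hP : P ∈ famSet ι N i)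
    (hc : ∀ g, P g = P 1) : ∃ a : Polynomial F, 3 * a.natDegree ≤ i ∧
      PowerSeries.map π' (P 1) = Polynomial.aeval (ex N (yS F)) a := by
  obtain ⟨S, hS⟩ := exists_sys' hι π' hN hζ
  have hT := S.tr (hS ▸ hP)
  obtain ⟨f, -, hf'⟩ := hP
  have h1 := hf' 1
  rw [SlashAction.slash_one] at h1
  have hfγ : ∀ γ : SL(2, ℤ), f ∣[((4 * i : ℕ) : ℤ)] γ = f := fun γ => by
    have h := hf' γ
    rw [hc γ] at h
    exact h.fun_eq h1
  have hprim := IsPrimitiveRoot.coe_units_iff.mpr (sysc_root hι hN hζ)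
  have hex : P 1 = ex N (PowerSeries.mk fun n => coeff (N * n) (P 1)) := by
    ext n
    rw [coeff_ex hN]
    split_ifs with hd
    · rw [coeff_mk, Nat.mul_div_cancel' hd]
    · have h := congrArg (coeff n) hT
      rw [hc, coeff_rescale] at h
      have h2 : ((ζ : O) ^ n - 1) * coeff n (P 1) = 0 := by linear_combination -h
      refine (mul_eq_zero.mp h2).resolve_left fun h3 => hd ?_
      exact (hprim.pow_eq_one_iff_dvd n).mp (sub_eq_zero.mp h3)
  rw [hex, map_ex] at h1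
  have h2 := (exp_ex_iff (n := 1) one_ne_zero hN).mp (by rwa [one_mul])
  obtain ⟨a, hd, ha⟩ := base_lvl_one ι hι π' i f _ hfγ h2
  exact ⟨a, hd, by rw [hex, map_ex, ha, ex_aeval]⟩

omit [IsDomain O] in
theorem fam_E4 (hN : N ≠ 0) : (fun _ => ex N (1 + 240 * sS O 3)) ∈ famSet ι N 1 := by
  have hs : ∀ γ : SL(2, ℤ), (E₄ : ℍ → ℂ) ∣[((4 * 1 : ℕ) : ℤ)] γ = E₄ := fun γ =>
    SlashInvariantForm.slash_action_eqn E₄ _ ⟨γ, rfl⟩
  refine ⟨E₄, fun γ _ => hs γ, fun γ => ?_⟩
  rw [hs, map_ex]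
  have h := (exp_ex_iff (n := 1) one_ne_zero hN).mpr exp_E4
  rw [one_mul] at h
  simpa only [map_add, map_mul, map_one, map_ofNat, lvl_map_sS] using h

omit [IsDomain O] in
theorem fam_Delta (hN : N ≠ 0) : (fun _ => ex N (yS O)) ∈ famSet ι N 3 := by
  have hs : ∀ γ : SL(2, ℤ), ModularForm.discriminant ∣[((4 * 3 : ℕ) : ℤ)] γ =
      ModularForm.discriminant := fun γ =>
    SlashInvariantForm.slash_action_eqn CuspForm.discriminant _ ⟨γ, rfl⟩
  refine ⟨ModularForm.discriminant, fun γ _ => hs γ, fun γ => ?_⟩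
  rw [hs, map_ex, map_yS]
  have h := (exp_ex_iff (n := 1) one_ne_zero hN).mpr exp_delta
  rwa [one_mul] at h

/-- A cusp to which congruences transfer. -/
theorem exists_gamma0 [IsDiscreteValuationRing O] (hι : Function.Injective ι) {π' : O →+* F}
    (hπ : ∀ x, π' x = 0 ↔ ¬IsUnit x) (hζ : ι ζ = cexp (2 * π * I / N)) {n E : ℕ} (hn : Odd n)
    (hN : N = 3 * n) (hE : E ∣ n) : ∃ γ : SL(2, ℤ), IsCoprime (γ 1 0) (n : ℤ) ∧
      (E : ℤ) ∣ γ 0 0 ∧ ∀ i, ∀ P ∈ famSet ι N i, PowerSeries.map π' (P 1) = 0 →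
        PowerSeries.map π' (P γ) = 0 := by
  have hn0 : n ≠ 0 := hn.pos.ne'
  have hN0 : N ≠ 0 := by omega
  have : CharZero O := ι.charZero
  let π'' : O →+* AlgebraicClosure F := (algebraMap F (AlgebraicClosure F)).comp π'
  have hπ'' : ∀ x, π'' x = 0 ↔ ¬IsUnit x := fun x => by
    rw [← hπ, RingHom.comp_apply, _root_.map_eq_zero]
  obtain ⟨S, hS⟩ := exists_sys' hι π'' hN0 hζ
  obtain ⟨D, hD⟩ := exists_good hπ'' hN0 S
  have hprim := sysc_root hι hN0 hζ
  obtain ⟨γ, hγ, hco⟩ := base_gamma D hD.T_mem hn0 fun p hp hpd =>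
    good_A (sq_hS (AlgebraicClosure F)) hprim.pow_eq_one hN0 hD (hn.of_dvd_nat hpd) hp.one_lt
      (hN ▸ Nat.mul_dvd_mul_left 3 hpd)
  obtain ⟨a, b, hab⟩ := hco.of_isCoprime_of_dvd_right (Int.natCast_dvd_natCast.2 hE)
  have hT := ModularGroup.coe_T_zpow (-(a * γ 0 0))
  have t00 : (ModularGroup.T ^ (-(a * γ 0 0)) : SL(2, ℤ)) 0 0 = 1 := by rw [hT]; rfl
  have t01 : (ModularGroup.T ^ (-(a * γ 0 0)) : SL(2, ℤ)) 0 1 = -(a * γ 0 0) := by rw [hT]; rfl
  have t10 : (ModularGroup.T ^ (-(a * γ 0 0)) : SL(2, ℤ)) 1 0 = 0 := by rw [hT]; rfl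
  have t11 : (ModularGroup.T ^ (-(a * γ 0 0)) : SL(2, ℤ)) 1 1 = 1 := by rw [hT]; rfl
  obtain ⟨ϖ, hϖ⟩ := IsDiscreteValuationRing.exists_irreducible O
  refine ⟨ModularGroup.T ^ (-(a * γ 0 0)) * γ, ?_, ⟨b * γ 0 0, ?_⟩, fun i P hP h => ?_⟩
  · rwa [grpa_mul_apply, t10, t11, zero_mul, zero_add, one_mul]
  · rw [grpa_mul_apply, t00, t01]
    linear_combination (-γ 0 0) * hab
  · rw [alg_red_iff hπ hϖ] at h ⊢
    exact hD.transfer (hS ▸ hP) _ (D.mul_mem (D.zpow_mem hD.T_mem _) hγ) ϖ hϖ.ne_zero h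

end Subb.Q

end

section

/-!
The ring of reduced families.
-/

namespace Subb.Q

open PowerSeries Complex Matrix MatrixGroups ModularForm
open scoped Real

variable {O F : Type} [CommRing O] [IsDomain O] [Field F] [CharP F 2] {ι : O →+* ℂ} {N : ℕ}
  {ζ : Oˣ}

/-- Reduction to Laurent series. -/
noncomputable def ring_red {O F : Type} [CommRing O] [Field F] (π' : O →+* F) :
    O⟦X⟧ →+* LaurentSeries F :=
  (HahnSeries.ofPowerSeries ℤ F).comp (PowerSeries.map π')

omit [IsDomain O] [CharP F 2] in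
theorem ring_lau (π' : O →+* F) (ψ : O⟦X⟧) : lau π' 0 ψ = ring_red π' ψ := by
  rw [lau, Nat.cast_zero, neg_zero, HahnSeries.single_zero_one, mul_one]
  rfl

omit [IsDomain O] [CharP F 2] in
theorem ring_red_y (π' : O →+* F) : ring_red π' (ex N (yS O)) = yL F N := by
  rw [ring_red, RingHom.comp_apply, map_ex, map_yS, yL]

omit [IsDomain O] in
theorem ring_red_E (π' : O →+* F) : ring_red π' (ex N (1 + 240 * sS O 3)) = 1 := by
  have h240 : (240 : F⟦X⟧) = 0 := by linear_combination 120 * lvl_two F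
  rw [ring_red, RingHom.comp_apply, map_ex, map_add, map_one, map_mul, map_ofNat, h240, zero_mul,
    add_zero, map_one, map_one]

omit [CharP F 2] in
theorem ring_y_ne : yL F N ≠ 0 := by
  intro h
  have h1 : ex N (yS F) = 0 := HahnSeries.ofPowerSeries_injective (h.trans (map_zero _).symm)
  have h2 : yS F = 0 := ex_injective N (h1.trans (map_zero _).symm)
  refine mul_ne_zero X_ne_zero (pow_ne_zero _ fun h3 => ?_) h2
  have := constantCoeff_fS (R := F)
  rw [h3, map_zero] at this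
  exact zero_ne_one this

omit [CharP F 2] in
theorem ring_C (c : F) :
    HahnSeries.ofPowerSeries ℤ F (C c) = algebraMap F (LaurentSeries F) c := by
  rw [HahnSeries.ofPowerSeries_C]
  simp [HahnSeries.algebraMap_apply']

omit [CharP F 2] in
theorem ring_aeval (u : F⟦X⟧) (a : Polynomial F) :
    HahnSeries.ofPowerSeries ℤ F (Polynomial.aeval u a) =
      Polynomial.aeval (HahnSeries.ofPowerSeries ℤ F u) a := by
  induction a using Polynomial.induction_on' with
  | add p q hp hq => rw [map_add, map_add, map_add, hp, hq]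
  | monomial n c =>
    rw [Polynomial.aeval_monomial, Polynomial.aeval_monomial, map_mul, map_pow, ← ring_C]
    rfl

omit [CharP F 2] in
theorem ring_AA {y : LaurentSeries F} (hy : y ≠ 0) (a : Polynomial F) {m : ℕ}
    (h : a.natDegree ≤ m) : Polynomial.aeval y a * y⁻¹ ^ m ∈ AA y := by
  rw [Polynomial.aeval_eq_sum_range, Finset.sum_mul]
  refine Subalgebra.sum_mem _ fun j hj => ?_
  have hj' : j ≤ m := (Nat.lt_succ_iff.mp (Finset.mem_range.mp hj)).trans h
  obtain ⟨k, rfl⟩ := Nat.exists_eq_add_of_le hj'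
  rw [Algebra.smul_def, mul_assoc, pow_add, ← mul_assoc (y ^ j), ← mul_pow, mul_inv_cancel₀ hy,
    one_pow, one_mul]
  exact mul_mem (Subalgebra.algebraMap_mem _ _)
    (pow_mem (Algebra.self_mem_adjoin_singleton F _) k)

omit [CharP F 2] in
theorem ring_kk {y : LaurentSeries F} (hy : y ≠ 0) (a : Polynomial F) (m : ℕ) :
    Polynomial.aeval y a * y⁻¹ ^ m ∈ kk y := by
  have ht : y⁻¹ ∈ kk y := IntermediateField.mem_adjoin_simple_self F _
  have hy' : y ∈ kk y := by simpa using inv_mem ht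
  have h1 : Polynomial.aeval y a * y⁻¹ ^ a.natDegree ∈ kk y :=
    IntermediateField.algebra_adjoin_le_adjoin F _ (ring_AA hy a le_rfl)
  have e : Polynomial.aeval y a * y⁻¹ ^ m =
      Polynomial.aeval y a * y⁻¹ ^ a.natDegree * y ^ a.natDegree * y⁻¹ ^ m := by
    rw [mul_assoc (Polynomial.aeval y a), ← mul_pow, inv_mul_cancel₀ hy, one_pow, mul_one]
  rw [e]
  exact mul_mem (mul_mem h1 (pow_mem hy' _)) (pow_mem ht _)

omit [IsDomain O] [CharP F 2] in
theorem ring_out {π' : O →+* F} (S : Sys π' N ζ) {i : ℕ} {P : SL(2, ℤ) → O⟦X⟧} (hP : P ∈ S.M i)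
    (g : SL(2, ℤ)) : P (g : SL(2, ℤ) ⧸ CongruenceSubgroup.Gamma N).out = P g := by
  obtain ⟨h, e⟩ := QuotientGroup.mk_out_eq_mul (CongruenceSubgroup.Gamma N) g
  rw [e, ← S.inv hP _ ((CongruenceSubgroup.Gamma_normal N).conj_mem _ h.2 g) g,
    inv_mul_cancel_right]

/-- The coefficients of the product over the cusps. -/
theorem ring_coeff (hι : Function.Injective ι) (π' : O →+* F) (hN : N ≠ 0)
    (hζ : ι ζ = cexp (2 * π * I / N)) [Fintype (SL(2, ℤ) ⧸ CongruenceSubgroup.Gamma N)]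
    {i : ℕ} {P : SL(2, ℤ) → O⟦X⟧} (hP : P ∈ famSet ι N i) (t : LaurentSeries F) (n : ℕ) :
    ∃ (a : Polynomial F) (k : ℕ), 3 * a.natDegree ≤ k * i ∧
      (∏ q : SL(2, ℤ) ⧸ CongruenceSubgroup.Gamma N,
        (Polynomial.X - Polynomial.C (ring_red π' (P q.out) * t))).coeff n =
        Polynomial.aeval (yL F N) a * t ^ k := by
  classical
  have hnorm := CongruenceSubgroup.Gamma_normal N
  obtain ⟨S, hS⟩ := exists_sys' hι π' hN hζ
  have hP' : P ∈ S.M i := by rw [hS]; exact hP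
  set m := Fintype.card (SL(2, ℤ) ⧸ CongruenceSubgroup.Gamma N) with hm
  by_cases hn : n ≤ m
  swap
  · refine ⟨0, 0, by simp, ?_⟩
    rw [map_zero, zero_mul]
    refine Polynomial.coeff_eq_zero_of_natDegree_lt ?_
    rw [Polynomial.natDegree_finsetProd_X_sub_C_eq_card, Finset.card_univ]
    omega
  let E : SL(2, ℤ) → O⟦X⟧ := fun x =>
    ∑ T ∈ (Finset.univ : Finset (SL(2, ℤ) ⧸ CongruenceSubgroup.Gamma N)).powersetCard (m - n),
      ∏ q ∈ T, C (-1 : O) * P (q.out * x)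
  have hE : E ∈ S.M ((m - n) * i) := by
    refine S.sum _ fun T hT => ?_
    have h1 := S.prod T (w := fun _ => i)
      (P := fun (q : SL(2, ℤ) ⧸ CongruenceSubgroup.Gamma N) x => C (-1 : O) * P (q.out * x))
      fun q _ => S.smul (-1) (S.transl q.out hP')
    rwa [Finset.sum_const, smul_eq_mul, (Finset.mem_powersetCard.mp hT).2] at h1
  have hc : ∀ x, E x = (∏ q : SL(2, ℤ) ⧸ CongruenceSubgroup.Gamma N,
      (Polynomial.X + Polynomial.C (C (-1 : O) * P (q.out * x)))).coeff n := fun x => by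
    rw [Finset.prod_X_add_C_coeff _ _ (by rwa [Finset.card_univ]), Finset.card_univ]
  have hinv : ∀ x, E x = E 1 := fun x => by
    rw [hc, hc]
    congr 1
    refine Fintype.prod_equiv
      (Equiv.mulRight (x : SL(2, ℤ) ⧸ CongruenceSubgroup.Gamma N)) _ _ fun q => ?_
    rw [Equiv.coe_mulRight, mul_one, ← ring_out S hP' (q.out * x), QuotientGroup.mk_mul,
      QuotientGroup.out_eq']
  obtain ⟨a, ha, ha'⟩ := lvl_deg hι π' hN hζ (hS ▸ hE) hinv
  refine ⟨a, m - n, ha, ?_⟩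
  have e : ∀ z : LaurentSeries F, Polynomial.X - Polynomial.C z =
      Polynomial.X + Polynomial.C (-z) := fun z => by rw [map_neg, sub_eq_add_neg]
  simp only [e]
  rw [Finset.prod_X_add_C_coeff _ _ (by rwa [Finset.card_univ]), Finset.card_univ, yL,
    ← ring_aeval, ← ha']
  change _ = ring_red π' (E 1) * _
  rw [map_sum, Finset.sum_mul]
  refine Finset.sum_congr rfl fun T hT => ?_
  rw [map_prod, ← (Finset.mem_powersetCard.mp hT).2, ← Finset.prod_const, ← Finset.prod_mul_distrib]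
  refine Finset.prod_congr rfl fun q _ => ?_
  rw [mul_one, map_neg, map_one, map_mul, map_neg, map_one]
  ring

/-- The reduced families, as a semiring. -/
theorem ring_sub (hι : Function.Injective ι) (π' : O →+* F) (hN : N ≠ 0)
    (hζ : ι ζ = cexp (2 * π * I / N)) : ∃ R : Subsemiring (SL(2, ℤ) → LaurentSeries F),
      ∀ f, f ∈ R ↔ ∃ i a : ℕ, ∃ P ∈ famSet ι N i,
        f = fun g => ring_red π' (P g) * (yL F N)⁻¹ ^ a := by
  obtain ⟨S, hS⟩ := exists_sys' hι π' hN hζ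
  have hE : (fun _ => ex N (1 + 240 * sS O 3)) ∈ S.M 1 := by rw [hS]; exact fam_E4 hN
  have hD : (fun _ => ex N (yS O)) ∈ S.M 3 := by rw [hS]; exact fam_Delta hN
  rw [← hS]
  have raise : ∀ {i a : ℕ} {P : SL(2, ℤ) → O⟦X⟧}, P ∈ S.M i → ∀ b j : ℕ,
      ∃ Q ∈ S.M (i + b * 3 + j), ∀ g, ring_red π' (P g) * (yL F N)⁻¹ ^ a =
        ring_red π' (Q g) * (yL F N)⁻¹ ^ (a + b) := fun {i a P} hP b j => by
    have h1 := S.mul (S.mul hP (S.pow hD b)) (S.pow hE j)
    rw [mul_one] at h1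
    refine ⟨_, h1, fun g => ?_⟩
    have h2 : yL F N ^ b * (yL F N)⁻¹ ^ b = 1 := by
      rw [← mul_pow, mul_inv_cancel₀ ring_y_ne, one_pow]
    rw [map_mul, map_mul, map_pow, map_pow, ring_red_y, ring_red_E, one_pow, mul_one, pow_add]
    linear_combination (-(ring_red π' (P g) * (yL F N)⁻¹ ^ a)) * h2
  refine ⟨{ carrier := {f | ∃ i a : ℕ, ∃ P ∈ S.M i,
              f = fun g => ring_red π' (P g) * (yL F N)⁻¹ ^ a}
            mul_mem' := ?_, one_mem' := ?_, add_mem' := ?_, zero_mem' := ?_ }, fun f => Iff.rfl⟩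
  · rintro _ _ ⟨i, a, P, hP, rfl⟩ ⟨j, b, Q, hQ, rfl⟩
    refine ⟨i + j, a + b, _, S.mul hP hQ, funext fun g => ?_⟩
    rw [Pi.mul_apply, map_mul, pow_add]
    ring
  · exact ⟨0, 0, _, S.one, funext fun g => by simp⟩
  · rintro _ _ ⟨i, a, P, hP, rfl⟩ ⟨j, b, Q, hQ, rfl⟩
    obtain ⟨P', hP', e1⟩ := raise (a := a) hP b (j + a * 3)
    obtain ⟨Q', hQ', e2⟩ := raise (a := b) hQ a (i + b * 3)
    rw [show j + a * 3 + (i + b * 3) = i + b * 3 + (j + a * 3) by ring] at hQ'
    refine ⟨_, a + b, _, S.add hP' hQ', funext fun g => ?_⟩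
    rw [Pi.add_apply, e1, e2, map_add, add_comm b a, add_mul]
  · exact ⟨0, 0, _, S.zero 0, funext fun g => by simp⟩

theorem exists_R (hι : Function.Injective ι) {π' : O →+* F} (hπ : Function.Surjective π')
    (hN : N ≠ 0) (hζ : ι ζ = cexp (2 * π * I / N)) {γ : SL(2, ℤ)}
    (hγ : ∀ i, ∀ P ∈ famSet ι N i, PowerSeries.map π' (P 1) = 0 → PowerSeries.map π' (P γ) = 0) :
    ∃ (R : Subalgebra (AA (yL F N)) (SL(2, ℤ) → LaurentSeries F)) (n₀ : ℕ),
      Fam (yL F N) R 1 γ n₀ ∧ ∀ (i a b : ℕ), ∀ P ∈ famSet ι N i, i ≤ 3 * (a + b) →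
        (fun g => lau π' 0 (P g) * (yL F N)⁻¹ ^ a) ∈ R ∧
          IsIntegral (AA (yL F N)) (lau π' 0 (P 1) * (yL F N)⁻¹ ^ a * (yL F N)⁻¹ ^ b) := by
  classical
  have : NeZero N := ⟨hN⟩
  have hnorm := CongruenceSubgroup.Gamma_normal N
  have := Fintype.ofFinite (SL(2, ℤ) ⧸ CongruenceSubgroup.Gamma N)
  have hy : yL F N ≠ 0 := ring_y_ne
  obtain ⟨S, hS⟩ := exists_sys' hι π' hN hζ
  obtain ⟨R₀, hR⟩ := ring_sub hι π' hN hζ
  have halg : ∀ x ∈ AA (yL F N), (fun _ => x) ∈ R₀ := fun x hx => by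
    induction hx using Algebra.adjoin_induction with
    | mem x hx =>
      rw [Set.mem_singleton_iff.mp hx]
      exact (hR _).mpr ⟨0, 1, _, hS ▸ S.one, funext fun g => by simp⟩
    | algebraMap c =>
      obtain ⟨x, rfl⟩ := hπ c
      refine (hR _).mpr ⟨0, 0, _, hS ▸ S.smul x S.one, funext fun g => ?_⟩
      rw [pow_zero, mul_one, mul_one, ring_red, RingHom.comp_apply, map_C, ring_C]
    | add x y _ _ hx hy => exact R₀.add_mem hx hy
    | mul x y _ _ hx hy => exact R₀.mul_mem hx hy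
  have hone : ∀ {i : ℕ} {P : SL(2, ℤ) → O⟦X⟧}, P ∈ famSet ι N i →
      P ((1 : SL(2, ℤ)) : SL(2, ℤ) ⧸ CongruenceSubgroup.Gamma N).out = P 1 := fun hP =>
    ring_out S (hS ▸ hP) 1
  refine ⟨{ R₀ with algebraMap_mem' := fun r => halg r r.2 },
    Fintype.card (SL(2, ℤ) ⧸ CongruenceSubgroup.Gamma N), ⟨fun f hf => ?_, fun f hf g => ?_,
      fun f hf h => ?_⟩, fun i a b P hP hi => ⟨?_, ?_⟩⟩
  · obtain ⟨i, a, P, hP, rfl⟩ := (hR f).mp hf
    refine ⟨(Finset.univ : Finset (SL(2, ℤ) ⧸ CongruenceSubgroup.Gamma N)).val.map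
      fun q => ring_red π' (P q.out) * (yL F N)⁻¹ ^ a, fun n => ?_, ?_, ?_, ?_⟩
    · obtain ⟨c, k, -, e⟩ := ring_coeff hι π' hN hζ hP ((yL F N)⁻¹ ^ a) n
      rw [Multiset.map_map]
      change (∏ q : SL(2, ℤ) ⧸ CongruenceSubgroup.Gamma N,
        (Polynomial.X - Polynomial.C (ring_red π' (P q.out) * (yL F N)⁻¹ ^ a))).coeff n ∈ _
      rw [e, ← pow_mul]
      exact ring_kk hy _ _
    · rw [Multiset.card_map]
      exact le_rfl
    · exact Multiset.mem_map.mpr ⟨((1 : SL(2, ℤ)) : SL(2, ℤ) ⧸ CongruenceSubgroup.Gamma N),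
        Finset.mem_univ_val _, by rw [hone hP]⟩
    · intro z hz
      obtain ⟨q, -, rfl⟩ := Multiset.mem_map.mp hz
      exact ⟨q.out, rfl⟩
  · obtain ⟨i, a, P, hP, rfl⟩ := (hR f).mp hf
    refine ⟨_, (hR _).mpr ⟨i, a, _, hS ▸ S.transl g (hS ▸ hP), rfl⟩, ?_⟩
    simp only [mul_one]
  · obtain ⟨i, a, P, hP, rfl⟩ := (hR f).mp hf
    have h1 : ring_red π' (P 1) = 0 :=
      (mul_eq_zero.mp h).resolve_right (pow_ne_zero _ (inv_ne_zero hy))
    have h2 : PowerSeries.map π' (P 1) = 0 :=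
      HahnSeries.ofPowerSeries_injective (h1.trans (map_zero _).symm)
    change ring_red π' (P γ) * _ = 0
    rw [ring_red, RingHom.comp_apply, hγ i P hP h2, map_zero, zero_mul]
  · simp only [ring_lau]
    exact (hR _).mpr ⟨i, a, P, hP, rfl⟩
  · rw [ring_lau, mul_assoc, ← pow_add]
    set p := ∏ q : SL(2, ℤ) ⧸ CongruenceSubgroup.Gamma N,
      (Polynomial.X - Polynomial.C (ring_red π' (P q.out) * (yL F N)⁻¹ ^ (a + b))) with hp
    have hmon : p.Monic := Polynomial.monic_prod_X_sub_C _ _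
    have hl : p ∈ Polynomial.lifts (algebraMap (AA (yL F N)) (LaurentSeries F)) := by
      refine (Polynomial.lifts_iff_coeff_lifts p).mpr fun n => ?_
      obtain ⟨c, k, hc, e⟩ := ring_coeff hι π' hN hζ hP ((yL F N)⁻¹ ^ (a + b)) n
      rw [hp, e, ← pow_mul]
      exact ⟨⟨_, ring_AA hy c (by nlinarith)⟩, rfl⟩
    obtain ⟨r, hr, -, hr'⟩ := Polynomial.lifts_and_natDegree_eq_and_monic hl hmon
    refine ⟨r, hr', ?_⟩
    rw [← Polynomial.eval_map, hr, hp, Polynomial.eval_prod]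
    refine Finset.prod_eq_zero
      (Finset.mem_univ ((1 : SL(2, ℤ)) : SL(2, ℤ) ⧸ CongruenceSubgroup.Gamma N)) ?_
    rw [hone hP, Polynomial.eval_sub, Polynomial.eval_X, Polynomial.eval_C, sub_self]

end Subb.Q

end

section

/-!
The Hecke operators for primes congruent to one modulo the level.
-/

namespace Subb.Q

open PowerSeries Complex Matrix MatrixGroups ModularForm
open UpperHalfPlane hiding I
open scoped Real

variable {O : Type} [CommRing O] {ι : O →+* ℂ} {N : ℕ}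

/-- The coset representatives. -/
def hecke_d (N l : ℕ) : Option (Fin l) → Matrix (Fin 2) (Fin 2) ℤ
  | none => !![(l : ℤ), 0; 0, 1]
  | some b => !![1, (N : ℤ) * (b : ℕ); 0, (l : ℤ)]

theorem hecke_det (N l : ℕ) (i : Option (Fin l)) : (hecke_d N l i).det = l := by
  cases i <;> simp [hecke_d, det_fin_two_of]

theorem hecke_red {l : ℕ} (h1 : (l : ZMod N) = 1) (i : Option (Fin l)) :
    (Int.castRingHom (ZMod N)).mapMatrix (hecke_d N l i) = 1 := by
  ext x y
  cases i <;> fin_cases x <;> fin_cases y <;> simp [hecke_d, h1]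

theorem hecke_rep {l : ℕ} (hl : l.Prime) (hlN : l ≡ 1 [MOD N]) (M : Matrix (Fin 2) (Fin 2) ℤ)
    (hM : M.det = l) (hr : (Int.castRingHom (ZMod N)).mapMatrix M = 1) :
    ∃ j, ∃ δ ∈ CongruenceSubgroup.Gamma N, M = δ.1 * hecke_d N l j := by
  have : Fact l.Prime := ⟨hl⟩
  have h1 : (l : ZMod N) = 1 := by
    simpa using (ZMod.natCast_eq_natCast_iff l 1 N).2 hlN
  have hl0 : (l : ℤ) ≠ 0 := by exact_mod_cast hl.ne_zero
  have h00 : ((M 0 0 : ℤ) : ZMod N) = 1 := by simpa using congrFun (congrFun hr 0) 0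
  have h01 : ((M 0 1 : ℤ) : ZMod N) = 0 := by simpa using congrFun (congrFun hr 0) 1
  have h10 : ((M 1 0 : ℤ) : ZMod N) = 0 := by simpa using congrFun (congrFun hr 1) 0
  have h11 : ((M 1 1 : ℤ) : ZMod N) = 1 := by simpa using congrFun (congrFun hr 1) 1
  rw [det_fin_two] at hM
  by_cases h0 : ((M 0 0 : ℤ) : ZMod l) = 0 ∧ ((M 1 0 : ℤ) : ZMod l) = 0
  · obtain ⟨p, hp⟩ := (ZMod.intCast_zmod_eq_zero_iff_dvd _ l).mp h0.1
    obtain ⟨r, hr'⟩ := (ZMod.intCast_zmod_eq_zero_iff_dvd _ l).mp h0.2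
    refine ⟨none, ⟨!![p, M 0 1; r, M 1 1], ?_⟩, ?_, ?_⟩
    · rw [det_fin_two_of]
      apply mul_left_cancel₀ hl0
      rw [hp, hr'] at hM
      linear_combination hM
    · rw [hp] at h00
      rw [hr'] at h10
      push_cast at h00 h10
      rw [h1, one_mul] at h00 h10
      exact CongruenceSubgroup.Gamma_mem.mpr ⟨h00, h01, h10, h11⟩
    · ext x y
      fin_cases x <;> fin_cases y <;>
        simp [hecke_d, Matrix.mul_apply, Fin.sum_univ_two, hp, hr', mul_comm]
  · obtain ⟨c, hc⟩ := (Nat.modEq_iff_dvd.mp hlN)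
    have hNc : (N : ZMod l) * (c : ZMod l) = 1 := by
      have := congrArg (Int.cast : ℤ → ZMod l) hc
      push_cast at this
      rw [ZMod.natCast_self, sub_zero] at this
      exact this.symm
    have hdet : ((M 0 0 : ℤ) : ZMod l) * (M 1 1 : ℤ) - (M 0 1 : ℤ) * (M 1 0 : ℤ) = 0 := by
      have := congrArg (Int.cast : ℤ → ZMod l) hM
      push_cast at this
      rwa [ZMod.natCast_self] at this
    obtain ⟨x, hx1, hx2⟩ : ∃ x : ZMod l, ((M 0 1 : ℤ) : ZMod l) = x * (M 0 0 : ℤ) ∧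
        ((M 1 1 : ℤ) : ZMod l) = x * (M 1 0 : ℤ) := by
      by_cases hp : ((M 0 0 : ℤ) : ZMod l) = 0
      · have hr' : ((M 1 0 : ℤ) : ZMod l) ≠ 0 := fun h => h0 ⟨hp, h⟩
        refine ⟨(M 1 1 : ℤ) / (M 1 0 : ℤ), ?_, by field_simp⟩
        rw [hp, mul_zero]
        rw [hp, zero_mul, zero_sub, neg_eq_zero] at hdet
        exact (mul_eq_zero.mp hdet).resolve_right hr'
      · refine ⟨(M 0 1 : ℤ) / (M 0 0 : ℤ), by field_simp, ?_⟩
        field_simp
        linear_combination hdet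
    have : NeZero l := ⟨hl.ne_zero⟩
    let b : Fin l := ⟨(c * x : ZMod l).val, ZMod.val_lt _⟩
    have hb : (N : ZMod l) * ((b : ℕ) : ZMod l) = x := by
      show (N : ZMod l) * (((c * x : ZMod l).val : ℕ) : ZMod l) = x
      rw [ZMod.natCast_zmod_val, ← mul_assoc, hNc, one_mul]
    obtain ⟨q, hq⟩ := (ZMod.intCast_zmod_eq_zero_iff_dvd (M 0 1 - N * (b : ℕ) * M 0 0) l).mp
      (by push_cast; rw [hb, hx1, sub_self])
    obtain ⟨s, hs⟩ := (ZMod.intCast_zmod_eq_zero_iff_dvd (M 1 1 - N * (b : ℕ) * M 1 0) l).mp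
      (by push_cast; rw [hb, hx2, sub_self])
    refine ⟨some b, ⟨!![M 0 0, q; M 1 0, s], ?_⟩, ?_, ?_⟩
    · rw [det_fin_two_of]
      apply mul_left_cancel₀ hl0
      linear_combination hM - M 0 0 * hs + M 1 0 * hq
    · have hq' := congrArg (Int.cast : ℤ → ZMod N) hq
      have hs' := congrArg (Int.cast : ℤ → ZMod N) hs
      push_cast at hq' hs'
      rw [h1, one_mul, ZMod.natCast_self, zero_mul, zero_mul, sub_zero] at hq' hs'
      exact CongruenceSubgroup.Gamma_mem.mpr ⟨h00, hq'.symm.trans h01, h10, hs'.symm.trans h11⟩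
    · ext x y
      fin_cases x <;> fin_cases y <;> simp [hecke_d, Matrix.mul_apply, Fin.sum_univ_two]
      · linear_combination hq
      · linear_combination hs

theorem hecke_inj {l : ℕ} (hl : l.Prime) (hlN : l ≡ 1 [MOD N]) {i j : Option (Fin l)}
    {δ : Matrix (Fin 2) (Fin 2) ℤ} (h : hecke_d N l i = δ * hecke_d N l j) : i = j := by
  have e00 := congrFun (congrFun h 0) 0
  have e01 := congrFun (congrFun h 0) 1
  have e10 := congrFun (congrFun h 1) 0
  have e11 := congrFun (congrFun h 1) 1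
  have hnd : ¬ (l : ℤ) ∣ 1 := fun h => hl.one_lt.ne' (by exact_mod_cast Int.eq_one_of_dvd_one (by positivity) h)
  cases i <;> cases j <;>
    simp only [hecke_d, Matrix.mul_apply, Fin.sum_univ_two, of_apply, cons_val', cons_val_zero,
      cons_val_one, cons_val_fin_one, mul_one, mul_zero, add_zero, zero_add] at e00 e01 e10 e11
  · rfl
  · rw [← e10, zero_mul, zero_add] at e11
    exact absurd (Dvd.intro_left _ e11.symm) hnd
  · exact absurd (Dvd.intro_left _ e00.symm) hnd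
  · rename_i b b'
    obtain ⟨c, hc⟩ := (Nat.modEq_iff_dvd.mp hlN)
    rw [← e00, one_mul] at e01
    have hd : (l : ℤ) ∣ ((b : ℕ) : ℤ) - ((b' : ℕ) : ℤ) :=
      ⟨c * δ 0 1 + (((b : ℕ) : ℤ) - ((b' : ℕ) : ℤ)), by
        push_cast at hc
        linear_combination c * e01 + (((b : ℕ) : ℤ) - ((b' : ℕ) : ℤ)) * hc⟩
    have h0 := Int.eq_zero_of_abs_lt_dvd hd (by
      have := b.2
      have := b'.2
      rw [abs_lt]
      constructor <;> omega)
    congr 1
    ext
    omega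

theorem hecke_mul (γ δ : SL(2, ℤ)) : (γ * δ).1 = γ.1 * δ.1 := rfl

theorem hecke_perm {l : ℕ} (hl : l.Prime) (hlN : l ≡ 1 [MOD N]) (γ : SL(2, ℤ)) :
    ∃ s : Option (Fin l) ≃ Option (Fin l), ∀ i, ∃ δ ∈ CongruenceSubgroup.Gamma N,
      hecke_d N l i * γ.1 = (δ * γ).1 * hecke_d N l (s i) := by
  have h1 : (l : ZMod N) = 1 := by
    simpa using (ZMod.natCast_eq_natCast_iff l 1 N).2 hlN
  have e1 : γ.1 * (γ⁻¹).1 = 1 := by
    rw [← hecke_mul, mul_inv_cancel]
    rfl
  have e2 : (γ⁻¹).1 * γ.1 = 1 := by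
    rw [← hecke_mul, inv_mul_cancel]
    rfl
  have key : ∀ i, ∃ j, ∃ δ ∈ CongruenceSubgroup.Gamma N,
      hecke_d N l i * γ.1 = (δ * γ).1 * hecke_d N l j := fun i => by
    obtain ⟨j, δ, hδ, e⟩ := hecke_rep hl hlN ((γ⁻¹).1 * hecke_d N l i * γ.1)
      (by rw [det_mul, det_mul, γ.2, (γ⁻¹).2, hecke_det, one_mul, mul_one])
      (by rw [map_mul, map_mul, hecke_red h1, mul_one, ← map_mul, e2, map_one])
    refine ⟨j, γ * δ * γ⁻¹, (CongruenceSubgroup.Gamma_normal N).conj_mem δ hδ γ, ?_⟩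
    rw [inv_mul_cancel_right, hecke_mul, mul_assoc, ← e, ← mul_assoc,
      ← mul_assoc, e1, one_mul]
  choose s δ hδ e using key
  have hs : Function.Injective s := fun i j hij => by
    refine hecke_inj hl hlN (δ := (δ i * (δ j)⁻¹).1) ?_
    have e3 : hecke_d N l i * γ.1 = (δ i * (δ j)⁻¹).1 * hecke_d N l j * γ.1 := by
      rw [mul_assoc, e j, e i, hij, ← mul_assoc, ← hecke_mul, mul_assoc (δ i),
        inv_mul_cancel_left]
    have e4 := congrArg (· * (γ⁻¹).1) e3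
    simpa only [mul_assoc, e1, mul_one] using e4
  exact ⟨Equiv.ofBijective s (Finite.injective_iff_bijective.mp hs), fun i => ⟨δ i, hδ i, e i⟩⟩

/-- The representatives as real matrices. -/
noncomputable def hecke_g (N : ℕ) {l : ℕ} (hl : l ≠ 0) (i : Option (Fin l)) : GL (Fin 2) ℝ :=
  GeneralLinearGroup.mkOfDetNeZero ((Int.castRingHom ℝ).mapMatrix (hecke_d N l i)) (by
    rw [← RingHom.map_det, hecke_det]
    simpa using hl)

theorem hecke_g_val {l : ℕ} (hl : l ≠ 0) (i : Option (Fin l)) :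
    (hecke_g N hl i).val = (Int.castRingHom ℝ).mapMatrix (hecke_d N l i) := rfl

theorem hecke_g_det {l : ℕ} (hl : l ≠ 0) (i : Option (Fin l)) :
    (hecke_g N hl i).det.val = l := by
  rw [GeneralLinearGroup.val_det_apply, hecke_g_val, ← RingHom.map_det, hecke_det]
  simp

/-- The Hecke operator. -/
noncomputable def hecke_T (N : ℕ) {l : ℕ} (hl : l ≠ 0) (w : ℤ) (h : ℍ → ℂ) : ℍ → ℂ :=
  ∑ i : Option (Fin l), h ∣[w] hecke_g N hl i

theorem hecke_comm {l : ℕ} (hl : l.Prime) (hlN : l ≡ 1 [MOD N]) {w : ℤ} {h : ℍ → ℂ}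
    (hh : ∀ γ ∈ CongruenceSubgroup.Gamma N, h ∣[w] γ = h) (γ : SL(2, ℤ)) :
    hecke_T N hl.ne_zero w h ∣[w] γ = hecke_T N hl.ne_zero w (h ∣[w] γ) := by
  obtain ⟨s, hs⟩ := hecke_perm hl hlN γ
  rw [hecke_T, hecke_T, SlashAction.sum_slash,
    ← s.sum_comp fun i => (h ∣[w] γ) ∣[w] hecke_g N hl.ne_zero i]
  refine Finset.sum_congr rfl fun i _ => ?_
  obtain ⟨δ, hδ, e⟩ := hs i
  have e' : hecke_g N hl.ne_zero i * (γ : GL (Fin 2) ℝ) =
      ((δ * γ : SL(2, ℤ)) : GL (Fin 2) ℝ) * hecke_g N hl.ne_zero (s i) := by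
    apply Units.ext
    have := congrArg (Int.castRingHom ℝ).mapMatrix e
    rw [map_mul, map_mul] at this
    exact this
  rw [SL_slash, ← SlashAction.slash_mul, e', SlashAction.slash_mul, ← SL_slash,
    SlashAction.slash_mul, hh δ hδ]

theorem hecke_sig {l : ℕ} (hl : l ≠ 0) (i : Option (Fin l)) (z : ℂ) :
    σ (hecke_g N hl i) z = z := by
  have : 0 < (hecke_g N hl i).det.val := by
    rw [hecke_g_det]
    exact_mod_cast Nat.pos_of_ne_zero hl
  rw [σ, if_pos this]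
  rfl

theorem hecke_pt {l : ℕ} (hl : l ≠ 0) (i : Option (Fin l)) (τ : ℍ) :
    ((hecke_g N hl i • τ : ℍ) : ℂ) = num (hecke_g N hl i) τ / denom (hecke_g N hl i) τ :=
  coe_smul_of_det_pos (by rw [hecke_g_det]; exact_mod_cast Nat.pos_of_ne_zero hl) τ

theorem hecke_pt_none {l : ℕ} (hl : l ≠ 0) (τ : ℍ) :
    ((hecke_g N hl none • τ : ℍ) : ℂ) = l * τ := by
  rw [hecke_pt, num, denom]
  simp [hecke_g_val, hecke_d]

theorem hecke_pt_some {l : ℕ} (hl : l ≠ 0) (b : Fin l) (τ : ℍ) :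
    ((hecke_g N hl (some b) • τ : ℍ) : ℂ) = (τ + N * (b : ℕ)) / l := by
  rw [hecke_pt, num, denom]
  simp [hecke_g_val, hecke_d]

theorem hecke_val {l : ℕ} (hl : l ≠ 0) (w : ℕ) (h : ℍ → ℂ) (τ : ℍ) :
    (l : ℂ) * hecke_T N hl w h τ = ∑ b : Fin l, h (hecke_g N hl (some b) • τ) +
      (l : ℂ) ^ w * h (hecke_g N hl none • τ) := by
  have hl' : (l : ℂ) ≠ 0 := Nat.cast_ne_zero.2 hl
  have d0 : denom (hecke_g N hl none) τ = 1 := by simp [denom, hecke_g_val, hecke_d]
  have d1 : ∀ b, denom (hecke_g N hl (some b)) τ = l := fun b => by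
    simp [denom, hecke_g_val, hecke_d]
  rw [hecke_T, Finset.sum_apply, Fintype.sum_option, mul_add, add_comm, Finset.mul_sum]
  simp only [slash_apply, hecke_sig, hecke_g_det, d0, d1, Nat.abs_cast, ofReal_natCast,
    one_pow, zpow_sub₀ hl', zpow_natCast, zpow_one, _root_.zpow_neg]
  congr 1
  · refine Finset.sum_congr rfl fun b _ => ?_
    field_simp
  · field_simp

theorem hecke_sum {l a : ℕ} (hN : N ≠ 0) (hl : l ≠ 0) (hal : a < l) {h : ℍ → ℂ} {ψ : ℂ⟦X⟧}
    (hh : Exp N (fun τ => Function.Periodic.qParam (N : ℝ) τ ^ a * h τ) ψ) :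
    Exp N (fun τ => ∑ b : Fin l, h (hecke_g N hl (some b) • τ))
      (C (l : ℂ) * PowerSeries.mk fun m => coeff (a + l * m) ψ) := by
  intro τ
  have hl' : (l : ℂ) ≠ 0 := Nat.cast_ne_zero.2 hl
  have hN' : (N : ℂ) ≠ 0 := Nat.cast_ne_zero.2 hN
  have hζ := Complex.isPrimitiveRoot_exp l hl
  set ζ := cexp (2 * π * I / l) with hζd
  set R := cexp (2 * π * I * τ / (l * N)) with hR
  have hR0 : R ≠ 0 := exp_ne_zero _
  have hRl : R ^ l = Function.Periodic.qParam (N : ℝ) τ := by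
    rw [hR, ← Complex.exp_nat_mul, Function.Periodic.qParam]
    refine congrArg cexp ?_
    push_cast
    field_simp
  have hq : ∀ b : Fin l, Function.Periodic.qParam (N : ℝ) (hecke_g N hl (some b) • τ : ℍ) =
      R * ζ ^ (b : ℕ) := fun b => by
    rw [hecke_pt_some, hR, hζd, ← Complex.exp_nat_mul, ← Complex.exp_add,
      Function.Periodic.qParam]
    refine congrArg cexp ?_
    push_cast
    field_simp
  obtain ⟨k, hk⟩ : ∃ k, l = a + k := ⟨l - a, by omega⟩
  have h1 : ∀ b : Fin l, HasSum (fun n => coeff n ψ * R ^ n * (ζ ^ (n + k)) ^ (b : ℕ))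
      (R ^ a * h (hecke_g N hl (some b) • τ)) := fun b => by
    have h2 := (hh (hecke_g N hl (some b) • τ)).mul_left ((ζ ^ k) ^ (b : ℕ))
    have h3 : (ζ ^ k) ^ (b : ℕ) * (ζ ^ (b : ℕ)) ^ a = 1 := by
      rw [← pow_mul, ← pow_mul, ← pow_add, show k * b + b * a = (a + k) * b by ring, ← hk,
        pow_mul, hζ.pow_eq_one, one_pow]
    simp only [hq] at h2
    have e : (ζ ^ k) ^ (b : ℕ) * ((R * ζ ^ (b : ℕ)) ^ a * h (hecke_g N hl (some b) • τ)) =
        R ^ a * h (hecke_g N hl (some b) • τ) := by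
      rw [mul_pow]
      linear_combination (R ^ a * h (hecke_g N hl (some b) • τ)) * h3
    rw [e] at h2
    refine exp_congr h2 fun n => ?_
    simp only [smul_eq_mul, mul_pow, ← pow_mul]
    ring
  have h4 := hasSum_sum (s := Finset.univ) fun b _ => h1 b
  simp only [← Finset.mul_sum] at h4
  have hinj : Function.Injective fun m : ℕ => a + l * m := fun x y e =>
    mul_right_injective₀ hl (Nat.add_left_cancel e)
  rw [← hinj.hasSum_iff] at h4
  · have h5 := h4.mul_left (R ^ a)⁻¹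
    rw [← mul_assoc, inv_mul_cancel₀ (pow_ne_zero _ hR0), one_mul] at h5
    refine exp_congr h5 fun m => ?_
    have h6 : ζ ^ (a + l * m + k) = 1 := by
      rw [show a + l * m + k = (a + k) + l * m by ring, ← hk, pow_add, pow_mul, hζ.pow_eq_one,
        one_pow, mul_one]
    simp only [Function.comp_apply, h6]
    simp only [one_pow, Finset.sum_const, Finset.card_univ,
      Fintype.card_fin, coeff_C_mul, coeff_mk, smul_eq_mul, nsmul_eq_mul, mul_one, ← hRl,
      pow_add, pow_mul]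
    field_simp
  · intro n hn
    have h7 : ζ ^ (n + k) ≠ 1 := fun e => by
      obtain ⟨c, hc⟩ := (hζ.pow_eq_one_iff_dvd _).mp e
      cases c with
      | zero => omega
      | succ c => exact hn ⟨c, by rw [mul_add, mul_one] at hc; show a + l * c = n; omega⟩
    have h8 : ∑ b : Fin l, (ζ ^ (n + k)) ^ (b : ℕ) = 0 := by
      rw [Fin.sum_univ_eq_sum_range (fun b => (ζ ^ (n + k)) ^ b) l]
      have h9 := geom_sum_mul (ζ ^ (n + k)) l
      rw [← pow_mul, mul_comm (n + k), pow_mul, hζ.pow_eq_one, one_pow, sub_self] at h9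
      exact (mul_eq_zero.mp h9).resolve_right (sub_ne_zero.mpr h7)
    rw [h8, mul_zero]

theorem hecke_exp {l a w : ℕ} (hN : N ≠ 0) (hl : l ≠ 0) (hal : a < l) {h : ℍ → ℂ} {ψ : ℂ⟦X⟧}
    (hh : Exp N (fun τ => Function.Periodic.qParam (N : ℝ) τ ^ a * h τ) ψ) :
    Exp N (fun τ => Function.Periodic.qParam (N : ℝ) τ ^ (a * l) *
      ((l : ℂ) • hecke_T N hl w h) τ) (hk l a w ψ) := by
  have h1 := (Exp.X.pow (a * l)).mul (hecke_sum hN hl hal hh)
  have h2 := (Exp.aff (n := N) (a := l) (d := 1) (e := 1) 0 hN hl (by ring) hh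
    (fun τ => hecke_g N hl none • τ) (fun τ => by rw [hecke_pt_none]; simp)).smul ((l : ℂ) ^ w)
  have h3 := h1.add h2
  have hq : ∀ τ : ℍ, Function.Periodic.qParam (N : ℝ) (hecke_g N hl none • τ : ℍ) =
      Function.Periodic.qParam (N : ℝ) τ ^ l := fun τ => by
    rw [hecke_pt_none, Function.Periodic.qParam, Function.Periodic.qParam, ← Complex.exp_nat_mul]
    refine congrArg cexp ?_
    ring
  rw [zero_mul, zpow_zero, rescale_one, mul_one, RingHom.id_apply, mul_left_comm] at h3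
  convert h3 using 1
  · funext τ
    simp only [Pi.smul_apply, smul_eq_mul, hecke_val, Pi.add_apply, Pi.mul_apply, Pi.pow_apply,
      hq, ← pow_mul]
    ring_nf
  · rfl

theorem hecke_map (l a w : ℕ) (ψ : O⟦X⟧) :
    PowerSeries.map ι (hk l a w ψ) = hk l a w (PowerSeries.map ι ψ) := by
  have e : PowerSeries.map ι (PowerSeries.mk fun m => coeff (a + l * m) ψ) =
      PowerSeries.mk fun m => coeff (a + l * m) (PowerSeries.map ι ψ) := by
    ext m
    simp only [coeff_map, coeff_mk]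
  simp only [hk, map_add, map_mul, map_pow, map_X, map_natCast, map_ex, e]

theorem MF_hecke (hN : N ≠ 0) {l a w : ℕ} (hl : l.Prime) (hlN : l ≡ 1 [MOD N]) (hal : a < l)
    {P : SL(2, ℤ) → O⟦X⟧} (hP : P ∈ MF ι N w a) :
    (fun γ => hk l a w (P γ)) ∈ MF ι N w (a * l) := by
  obtain ⟨h, hh, hP⟩ := hP
  refine ⟨(l : ℂ) • hecke_T N hl.ne_zero w h, fun γ hγ => ?_, fun γ => ?_⟩
  · rw [SL_smul_slash, hecke_comm hl hlN hh, hh γ hγ]
  · rw [SL_smul_slash, hecke_comm hl hlN hh, hecke_map]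
    exact hecke_exp hN hl.ne_zero hal (hP γ)

end Subb.Q

end
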