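import Pool.Agent.MP_a23355_nt.H13.Defs
import Pool.Agent.Lib.PrimeGap.Short

section

/-!
Closure properties of families of weakly holomorphic forms.
-/

namespace Subb.Q

open PowerSeries Complex Matrix MatrixGroups ModularForm
open UpperHalfPlane hiding I
open scoped Real

variable {O : Type} [CommRing O] {ι : O →+* ℂ} {N : ℕ} {ζ : Oˣ} {P Q : SL(2, ℤ) → O⟦X⟧}

theorem MF_of_fam {i : ℕ} (hP : P ∈ famSet ι N i) : P ∈ MF ι N (4 * i) 0 := by
  obtain ⟨f, hf, hf'⟩ := hP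
  have e : ((4 * i : ℕ) : ℤ) = 4 * (i : ℤ) := by push_cast; ring
  rw [e] at hf hf'
  refine ⟨f, hf, fun γ => ?_⟩
  simpa only [pow_zero, one_mul] using hf' γ

theorem MF_mul {w w' : ℤ} {a a' : ℕ} (hP : P ∈ MF ι N w a) (hQ : Q ∈ MF ι N w' a') :
    (fun γ => P γ * Q γ) ∈ MF ι N (w + w') (a + a') := by
  obtain ⟨f, hf, hf'⟩ := hP
  obtain ⟨g, hg, hg'⟩ := hQ
  refine ⟨f * g, fun γ hγ => by rw [mul_slash_SL2, hf γ hγ, hg γ hγ], fun γ => ?_⟩
  have h := (hf' γ).mul (hg' γ)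
  rw [mul_slash_SL2, map_mul]
  convert h using 1
  funext τ
  simp only [Pi.mul_apply, pow_add]
  ring

theorem mfb_zero {w : ℤ} {a : ℕ} : (fun _ => 0) ∈ MF ι N w a :=
  ⟨0, fun γ _ => by simp, fun γ => by
    have e : (fun τ : ℍ => Function.Periodic.qParam (N : ℝ) τ ^ a * ((0 : ℍ → ℂ) ∣[w] γ) τ) = 0 := by
      funext τ
      simp
    rw [e, map_zero]
    exact Exp.zero⟩

theorem mfb_add {w : ℤ} {a : ℕ} (hP : P ∈ MF ι N w a) (hQ : Q ∈ MF ι N w a) :
    (fun γ => P γ + Q γ) ∈ MF ι N w a := by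
  obtain ⟨f, hf, hf'⟩ := hP
  obtain ⟨g, hg, hg'⟩ := hQ
  refine ⟨f + g, fun γ hγ => by rw [SlashAction.add_slash, hf γ hγ, hg γ hγ], fun γ => ?_⟩
  have h := (hf' γ).add (hg' γ)
  rw [SlashAction.add_slash, map_add]
  convert h using 1
  funext τ
  simp only [Pi.add_apply, mul_add]

theorem mfb_smul {w : ℤ} {a : ℕ} (x : O) (hP : P ∈ MF ι N w a) :
    (fun γ => C x * P γ) ∈ MF ι N w a := by
  obtain ⟨f, hf, hf'⟩ := hP
  refine ⟨ι x • f, fun γ hγ => by rw [SL_smul_slash, hf γ hγ], fun γ => ?_⟩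
  have h := (hf' γ).smul (ι x)
  rw [SL_smul_slash, map_mul, map_C]
  convert h using 1
  funext τ
  simp only [Pi.smul_apply, smul_eq_mul]
  ring

theorem MF_sum {κ : Type} (s : Finset κ) {w : ℤ} {a : ℕ} (x : κ → O)
    {P : κ → SL(2, ℤ) → O⟦X⟧} (hP : ∀ k ∈ s, P k ∈ MF ι N w a) :
    (fun γ => ∑ k ∈ s, C (x k) * P k γ) ∈ MF ι N w a := by
  classical
  induction s using Finset.induction_on with
  | empty => simpa only [Finset.sum_empty] using mfb_zero
  | insert k s hk ih =>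
    simp only [Finset.sum_insert hk]
    exact mfb_add (mfb_smul (x k) (hP k (Finset.mem_insert_self _ _)))
      (ih fun l hl => hP l (Finset.mem_insert_of_mem hl))

theorem mfb_delta_slash (a : ℕ) (γ : SL(2, ℤ)) :
    (ModularForm.discriminant ^ a) ∣[((12 * a : ℕ) : ℤ)] γ = ModularForm.discriminant ^ a := by
  have h1 : ModularForm.discriminant ∣[(12 : ℤ)] γ = ModularForm.discriminant :=
    SlashInvariantForm.slash_action_generators_SL2Z discriminant_S_invariant discriminant_T_invariant γ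
  induction a with
  | zero => simpa using is_invariant_one γ
  | succ a ih =>
    have e : ((12 * (a + 1) : ℕ) : ℤ) = ((12 * a : ℕ) : ℤ) + 12 := by push_cast; ring
    rw [pow_succ, e, mul_slash_SL2, ih, h1]

theorem MF_toFam (hN : N ≠ 0) {i a : ℕ} (hP : P ∈ MF ι N ((4 * i : ℕ) : ℤ) (N * a)) :
    (fun γ => P γ * ex N (fS O ^ 24) ^ a) ∈ famSet ι N (i + 3 * a) := by
  obtain ⟨f, hf, hf'⟩ := hP
  have e : ((4 * (i + 3 * a) : ℕ) : ℤ) = ((4 * i : ℕ) : ℤ) + ((12 * a : ℕ) : ℤ) := by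
    push_cast; ring
  have h1 : Exp N ((fun τ : ℍ => ∏' n, (1 - ModularForm.eta_q n τ)) ^ 24) (ex N (fS ℂ ^ 24)) := by
    have := (exp_ex_iff one_ne_zero hN).2 (exp_fS.pow 24)
    rwa [one_mul] at this
  have h2 : Exp N ModularForm.discriminant (X ^ N * ex N (fS ℂ ^ 24)) := by
    have := (exp_ex_iff one_ne_zero hN).2 exp_delta
    rwa [one_mul, yS, map_mul, ex_X hN] at this
  have h3 := h2.fun_eq (((Exp.X (N := N)).pow N).mul h1)
  refine ⟨f * ModularForm.discriminant ^ a, fun γ hγ => by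
    rw [e, mul_slash_SL2, hf γ hγ, mfb_delta_slash], fun γ => ?_⟩
  have h := (hf' γ).mul (h1.pow a)
  rw [e, mul_slash_SL2, mfb_delta_slash, map_mul, map_pow, map_ex, map_pow, map_fS]
  convert h using 1
  funext τ
  rw [h3]
  simp only [Pi.mul_apply, Pi.pow_apply, mul_pow, pow_mul]
  ring

/-- The order of a family at a cusp. -/
theorem fam_ord (hodd : ∀ n : ℕ, Odd n → IsUnit (n : O)) {g : Matrix (Fin 2) (Fin 2) ℤ}
    {d r : ℕ} (hd : Odd d) (hr : r ≠ 0) (hg : g.det = d) (hN : N = 3 * d * r)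
    (hP : IsFam N ζ g P) (γ : SL(2, ℤ)) : ∃ Pt : O⟦X⟧, IsUnit (constantCoeff Pt) ∧
      P γ = X ^ (r * Int.gcd ((g * γ) 0 0) ((g * γ) 1 0) ^ 2) * Pt := by
  have hd0 : 0 < d := hd.pos
  have hdet : (g * γ : Matrix (Fin 2) (Fin 2) ℤ).det = d := by
    rw [det_mul, γ.det_coe, mul_one, hg]
  obtain ⟨γ', a', d', b', h1, h2, h3⟩ := hnf (g * γ) (by rw [hdet]; exact_mod_cast hd0)
  rw [hdet] at h3
  have h4 : a' * d' = d := by exact_mod_cast h3
  have ha : Odd a' := (Nat.odd_mul.mp (h4 ▸ hd)).1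
  have hN' : N = 3 * d' * (a' * r) := by rw [hN, ← h4]; ring
  obtain ⟨ψ, hψ, hD⟩ := Dser_eq (ζ := ζ) (a := a') (e := a' * r)
    (mul_ne_zero ha.pos.ne' (mul_ne_zero ha.pos.ne' hr)) b'
  refine ⟨C ((om N ζ γ' : O) * ((a' : O) ^ 4 * (ζ ^ (b' * (a' * r : ℕ)) : Oˣ))) * ψ, ?_, ?_⟩
  · rw [map_mul, constantCoeff_C, hψ, mul_one]
    exact (Units.isUnit _).mul (((hodd _ ha).pow 4).mul (Units.isUnit _))
  · rw [hP γ γ' a' d' _ b' hN' h1, hD, ← h2,
      show a' * (a' * r) = r * a' ^ 2 by ring, map_mul C (om N ζ γ' : O)]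
    ring

theorem mfb_shift {f : ℍ → ℂ} {φ : ℂ⟦X⟧} {p : ℕ} (hf : Exp N f (X ^ p * φ)) :
    Exp N (fun τ => (Function.Periodic.qParam (N : ℝ) τ ^ p)⁻¹ * f τ) φ := by
  intro τ
  have hq : Function.Periodic.qParam (N : ℝ) τ ^ p ≠ 0 :=
    pow_ne_zero _ (Complex.exp_ne_zero _)
  have h1 := (hasSum_nat_add_iff' p).2 (hf τ)
  rw [Finset.sum_eq_zero (fun i hi => by
    rw [coeff_X_pow_mul', if_neg (by simpa using hi), zero_smul]), sub_zero] at h1
  refine exp_congr (h1.mul_left _) fun n => ?_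
  rw [coeff_X_pow_mul, pow_add]
  simp only [smul_eq_mul]
  field_simp

theorem mfb_inv (hN : N ≠ 0) {f : ℍ → ℂ} {φ φ' : ℂ⟦X⟧} (hf : Exp N f φ) (h0 : ∀ τ, f τ ≠ 0)
    (hφ : φ * φ' = 1) : Exp N (fun τ => (f τ)⁻¹) φ' := by
  obtain ⟨G, hG, h1⟩ := hf.exists_series hN
  have hd : DifferentiableOn ℂ G (Metric.ball 0 1) := by
    have := hG.differentiableOn
    rwa [← ENNReal.coe_one, Metric.eball_coe, NNReal.coe_one] at this
  have hne : ∀ q ∈ Metric.ball (0 : ℂ) 1, G q ≠ 0 := by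
    intro q hq
    rcases eq_or_ne q 0 with rfl | h
    · have h2 := hG.coeff_zero (fun i => i.elim0)
      rw [← h2]
      have h3 := congrArg constantCoeff hφ
      rw [map_mul, map_one] at h3
      simpa using left_ne_zero_of_mul_eq_one h3
    · obtain ⟨τ, rfl⟩ := exp_surj hN (mem_ball_zero_iff.1 hq) h
      rw [← h1]
      exact h0 τ
  have hH : DifferentiableOn ℂ (fun q => (G q)⁻¹) (Metric.ball 0 1) := hd.inv hne
  have h4 : Exp N (fun τ => (f τ)⁻¹) (PowerSeries.mk fun n =>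
      ((n.factorial : ℂ))⁻¹ * iteratedDeriv n (fun q => (G q)⁻¹) 0) := by
    intro τ
    have h5 := Complex.hasSum_taylorSeries_on_ball hH (mem_ball_zero_iff.2
      (Function.Periodic.norm_qParam_lt_one (Nat.cast_pos.2 (Nat.pos_of_ne_zero hN)) τ.im_pos))
    rw [← h1] at h5
    refine exp_congr h5 fun n => ?_
    rw [coeff_mk, sub_zero]
    simp only [smul_eq_mul]
    ring
  have h6 := h4.mul hf
  have e : ((fun τ => (f τ)⁻¹) * f) = fun _ => 1 := by
    funext τ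
    exact inv_mul_cancel₀ (h0 τ)
  rw [e] at h6
  have h7 := h6.unique hN (Exp.const 1)
  rw [map_one] at h7
  have h8 := left_inv_eq_right_inv h7 hφ
  rwa [h8] at h4

theorem mfb_Dm_ne {g : Matrix (Fin 2) (Fin 2) ℤ} (hg : 0 < g.det) (τ : ℍ) : Dm g τ ≠ 0 := by
  obtain ⟨w, hw⟩ := eta_exists_pt hg τ
  rw [Dm, ← hw]
  exact mul_ne_zero (mul_ne_zero (pow_ne_zero _ (by exact_mod_cast hg.ne'))
    (inv_ne_zero (pow_ne_zero _ (eta_den_ne hg.ne' τ)))) (pow_ne_zero _ (eta_ne_zero w.2))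

theorem mfb_inv_slash (f : ℍ → ℂ) (γ : SL(2, ℤ)) :
    (fun τ => (f τ)⁻¹) ∣[(-4 : ℤ)] γ = fun τ => ((f ∣[(4 : ℤ)] γ) τ)⁻¹ := by
  funext τ
  rw [SL_slash_apply, SL_slash_apply, mul_inv, ← _root_.zpow_neg]

/-- The family of `η ^ 8 ∣ g` and of its inverse. -/
theorem MF_inv (hι : Function.Injective ι) (hζ : ι ζ = cexp (2 * π * I / N))
    (hodd : ∀ n : ℕ, Odd n → IsUnit (n : O)) {g : Matrix (Fin 2) (Fin 2) ℤ}
    {d r a : ℕ} (hd : Odd d) (hr : r ≠ 0) (hg : g.det = d) (hN : N = 3 * d * r)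
    (ha : r * d ^ 2 ≤ a) : ∃ P P' : SL(2, ℤ) → O⟦X⟧, P ∈ famSet ι N 1 ∧ IsFam N ζ g P ∧
      P' ∈ MF ι N (-4) a ∧ ∀ γ, P' γ * P γ = X ^ a := by
  have hinj : Function.Injective (PowerSeries.map ι) := PowerSeries.map_injective ι hι
  have hd0 : 0 < d := hd.pos
  have hN0 : N ≠ 0 := by rw [hN]; positivity
  have hg0 : 0 < g.det := by rw [hg]; exact_mod_cast hd0
  have h3 : 3 * g.det ∣ (N : ℤ) := ⟨r, by rw [hg, hN]; push_cast; ring⟩
  have h3' : 3 ∣ N := ⟨d * r, by rw [hN]; ring⟩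
  have hdet : ∀ γ : SL(2, ℤ), (g * γ : Matrix (Fin 2) (Fin 2) ℤ).det = d := fun γ => by
    rw [det_mul, γ.det_coe, mul_one, hg]
  have hex : ∀ γ : SL(2, ℤ), ∃ φ : O⟦X⟧,
      Exp N (Dm g ∣[(4 : ℤ)] γ) (PowerSeries.map ι φ) := fun γ => by
    obtain ⟨γ', a', d', b, h1, -, h2⟩ := hnf (g * γ) (by rw [hdet]; exact_mod_cast hd0)
    rw [hdet] at h2
    have h4 : a' * d' = d := by exact_mod_cast h2
    exact ⟨_, sysc_fam hN0 hζ hg0 h3' γ γ' a' d' (a' * r) b (by rw [hN, ← h4]; ring) h1⟩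
  choose P hP using hex
  have hinv : ∀ γ ∈ CongruenceSubgroup.Gamma N, Dm g ∣[(4 : ℤ)] γ = Dm g := fun γ hγ =>
    (Dm_slash hg0 γ).trans (Dm_inv hg0 h3 hγ)
  have hfam : IsFam N ζ g P := fun γ γ' a d e b he h =>
    hinj ((hP γ).unique hN0 (sysc_fam hN0 hζ hg0 h3' γ γ' a d e b he h))
  have key : ∀ γ : SL(2, ℤ), ∃ φ : O⟦X⟧, Exp N (fun τ => Function.Periodic.qParam (N : ℝ) τ ^ a *
      (((fun τ => (Dm g τ)⁻¹) ∣[(-4 : ℤ)] γ) τ)) (PowerSeries.map ι φ) ∧ φ * P γ = X ^ a := by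
    intro γ
    obtain ⟨Pt, hu, hPt⟩ := fam_ord hodd hd hr hg hN hfam γ
    obtain ⟨γ', a', d', b, -, h1, h2⟩ := hnf (g * γ) (by rw [hdet]; exact_mod_cast hd0)
    rw [hdet] at h2
    have h4 : a' * d' = d := by exact_mod_cast h2
    rw [← h1] at hPt
    have h5 : r * a' ^ 2 ≤ a := by
      refine le_trans (Nat.mul_le_mul_left r (Nat.pow_le_pow_left ?_ 2)) ha
      exact Nat.le_of_dvd hd0 ⟨d', h4.symm⟩
    obtain ⟨c, rfl⟩ := Nat.exists_eq_add_of_le h5
    obtain ⟨v, hv⟩ := (isUnit_iff_constantCoeff.mpr hu).exists_right_inv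
    have h6 := hP γ
    rw [hPt, map_mul, map_pow, map_X] at h6
    have hq : ∀ τ : ℍ, Function.Periodic.qParam (N : ℝ) τ ≠ 0 := fun τ => Complex.exp_ne_zero _
    have hne : ∀ τ : ℍ, (Dm g ∣[(4 : ℤ)] γ) τ ≠ 0 := fun τ => by
      rw [Dm_slash hg0]
      exact mfb_Dm_ne (by rw [hdet]; exact_mod_cast hd0) τ
    have h7 := mfb_inv hN0 (mfb_shift h6) (φ' := PowerSeries.map ι v)
      (fun τ => mul_ne_zero (inv_ne_zero (pow_ne_zero _ (hq τ))) (hne τ))
      (by rw [← map_mul, hv, map_one])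
    have h8 := ((Exp.X (N := N)).pow c).mul h7
    refine ⟨X ^ c * v, ?_, ?_⟩
    · rw [map_mul, map_pow, map_X, mfb_inv_slash]
      convert h8 using 1
      funext τ
      simp only [Pi.mul_apply, Pi.pow_apply, mul_inv, inv_inv, pow_add]
      ring
    · rw [hPt, pow_add]
      linear_combination (X ^ c * X ^ (r * a' ^ 2)) * hv
  choose P' hP' hP'' using key
  refine ⟨P, P', ⟨Dm g, hinv, hP⟩, hfam, ⟨fun τ => (Dm g τ)⁻¹, fun γ hγ => ?_, hP'⟩, hP''⟩
  rw [mfb_inv_slash, hinv γ hγ]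

end Subb.Q

end

section

/-!
The sieved quotient and its pole.
-/

namespace Subb.Q

open PowerSeries Complex Matrix MatrixGroups ModularForm
open UpperHalfPlane hiding I
open scoped Real

variable {O : Type} [CommRing O] [IsDomain O] {ι : O →+* ℂ} {N : ℕ} {ζ : Oˣ}

omit [IsDomain O] in
theorem pole_pow {Q : SL(2, ℤ) → O⟦X⟧} (hQ : Q ∈ famSet ι N 1) (k : ℕ) :
    (fun γ => Q γ ^ (k + 1)) ∈ MF ι N (4 * k + 4) 0 := by
  have h1 := MF_of_fam hQ
  induction k with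
  | zero => simpa using h1
  | succ k ih =>
    have h2 := MF_mul ih h1
    simp only [← pow_succ] at h2
    convert h2 using 2
    push_cast
    ring

omit [IsDomain O] in
theorem pole_term (hι : Function.Injective ι) (hζ : ι ζ = cexp (2 * π * I / N))
    (hodd : ∀ n : ℕ, Odd n → IsUnit (n : O)) {k m E : ℕ} (hkm : k + 1 < m) (hm : Odd m)
    (hE : Odd E) (hN : N = 3 * (m * E)) {Θ : ℤ⟦X⟧} (hΘ : Θ * dS ℤ = ex m (dS ℤ) ^ (k + 1))
    {γ : SL(2, ℤ)} (hco : IsCoprime (γ 1 0) ((m * E : ℕ) : ℤ)) (hγ : (E : ℤ) ∣ γ 0 0) (u : ℕ) :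
    ∃ (H : SL(2, ℤ) → O⟦X⟧) (ψ : O⟦X⟧), H ∈ MF ι N ((4 * k : ℕ) : ℤ) (N * E) ∧
      H 1 = C ((m : O) ^ (4 * (k + 1))) * (X ^ (N * E) * sub ζ 1 u m Θ) ∧
      X ^ ((m - (k + 1)) * E ^ 2) * H γ = X ^ (N * E) * ψ ∧
      (u = 0 → IsUnit (constantCoeff ψ)) ∧ (u ≠ 0 → u < E → constantCoeff ψ = 0) := by
  have hm0 : m ≠ 0 := hm.pos.ne'
  have hE0 : E ≠ 0 := hE.pos.ne'
  have hNe : N = 3 * E * m := by rw [hN]; ring
  have d1 : (!![((1 : ℕ) : ℤ), (u : ℤ); 0, (E : ℤ)] : Matrix (Fin 2) (Fin 2) ℤ).det = E := by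
    rw [det_fin_two_of]; simp
  have d2 : (!![((m * 1 : ℕ) : ℤ), m * (u : ℤ); 0, (E : ℤ)] : Matrix (Fin 2) (Fin 2) ℤ).det =
      (m * E : ℕ) := by
    rw [det_fin_two_of]; simp
  have hN2 : N = 3 * (m * E) * 1 := by rw [hN, mul_one]
  obtain ⟨P, P', -, hP, hP', hPP⟩ := MF_inv (a := N * E) hι hζ hodd hE hm0 d1 hNe
    (by rw [hN]; nlinarith [Nat.zero_le (m * E ^ 2)])
  obtain ⟨Q, -, hQM, hQ, -, -⟩ := MF_inv hι hζ hodd (hm.mul hE) one_ne_zero d2 hN2 le_rfl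
  obtain ⟨Pt, hPt, h1⟩ := fam_ord hodd hE hm0 d1 hNe hP γ
  obtain ⟨Qt, hQt, h2⟩ := fam_ord hodd (hm.mul hE) one_ne_zero d2 hN2 hQ γ
  set x : ℤ := γ 0 0 + u * γ 1 0 with hx
  have hd := γ.det_coe
  rw [det_fin_two] at hd
  have hxβ : IsCoprime x (γ 1 0) :=
    ⟨γ 1 1, -γ 0 1 - u * γ 1 1, by rw [hx]; linear_combination hd⟩
  rw [Nat.cast_mul] at hco
  have g1 : Int.gcd ((!![((1 : ℕ) : ℤ), (u : ℤ); 0, (E : ℤ)] * γ : Matrix (Fin 2) (Fin 2) ℤ) 0 0)
      ((!![((1 : ℕ) : ℤ), (u : ℤ); 0, (E : ℤ)] * γ : Matrix (Fin 2) (Fin 2) ℤ) 1 0) =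
      Int.gcd x E := by
    rw [← Int.gcd_mul_left_right_of_gcd_eq_one (Int.isCoprime_iff_gcd_eq_one.mp hxβ)]
    simp [Matrix.mul_apply, Fin.sum_univ_two, hx]
  have g2 : Int.gcd
      ((!![((m * 1 : ℕ) : ℤ), m * (u : ℤ); 0, (E : ℤ)] * γ : Matrix (Fin 2) (Fin 2) ℤ) 0 0)
      ((!![((m * 1 : ℕ) : ℤ), m * (u : ℤ); 0, (E : ℤ)] * γ : Matrix (Fin 2) (Fin 2) ℤ) 1 0) =
      Int.gcd (m * x) E := by
    rw [← Int.gcd_mul_left_right_of_gcd_eq_one
      (Int.isCoprime_iff_gcd_eq_one.mp (hco.of_mul_right_left.symm.mul_left hxβ))]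
    simp [Matrix.mul_apply, Fin.sum_univ_two, hx, mul_add, mul_assoc]
  rw [g1] at h1
  rw [g2, one_mul] at h2
  set a₁ := Int.gcd x E with ha₁
  set a₂ := Int.gcd (m * x) E with ha₂
  have l1 : a₁ ≤ E := Nat.le_of_dvd hE.pos (by exact_mod_cast Int.gcd_dvd_right x E)
  have l2 : a₂ ≤ E := Nat.le_of_dvd hE.pos (by exact_mod_cast Int.gcd_dvd_right (m * x) E)
  have l3 : a₁ ≤ a₂ := Nat.le_of_dvd (Int.gcd_pos_of_ne_zero_right _ (by exact_mod_cast hE0))
    (Int.gcd_dvd_gcd_mul_left_left _ _ _)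
  obtain ⟨r, hr⟩ := Nat.exists_eq_add_of_lt hkm
  have hr' : m - (k + 1) = r + 1 := by omega
  have s1 : a₁ ^ 2 ≤ E ^ 2 := Nat.pow_le_pow_left l1 2
  have s3 : a₁ ^ 2 ≤ a₂ ^ 2 := Nat.pow_le_pow_left l3 2
  have m1 := Nat.mul_le_mul_left (r + 1) s1
  have m3 := Nat.mul_le_mul_left (k + 1) s3
  have m0 : m * a₁ ^ 2 = (r + 1) * a₁ ^ 2 + (k + 1) * a₁ ^ 2 := by rw [hr]; ring
  obtain ⟨n, hn⟩ : ∃ n, (r + 1) * E ^ 2 + (k + 1) * a₂ ^ 2 = m * a₁ ^ 2 + n :=
    Nat.exists_eq_add_of_le (by omega)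
  obtain ⟨w, hw⟩ := (isUnit_iff_constantCoeff.2 hPt).exists_right_inv
  refine ⟨fun g => Q g ^ (k + 1) * P' g, X ^ n * (Qt ^ (k + 1) * w), ?_, ?_, ?_, ?_, ?_⟩
  · have h3 := MF_mul (pole_pow hQM k) hP'
    rw [zero_add] at h3
    convert h3 using 2
    push_cast
    ring
  · have h3 := hPP 1
    rw [IsFam.one hP hNe, Dser_sub] at h3
    change Q 1 ^ (k + 1) * P' 1 = _
    rw [IsFam.one hQ hNe, Dser_sub_ex hm0 (by positivity), mul_pow, ← map_pow (sub _ _ _ _), ← hΘ,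
      map_mul (sub _ _ _ _), ← h3]
    simp only [map_pow, mul_one, Nat.cast_one, one_pow, map_one, one_mul]
    ring
  · have h3 := hPP γ
    rw [h1] at h3
    change _ * (Q γ ^ (k + 1) * P' γ) = _
    rw [h2, ← h3, hr', mul_pow, ← pow_mul, mul_comm (a₂ ^ 2)]
    have h4 : (X : O⟦X⟧) ^ ((r + 1) * E ^ 2) * X ^ ((k + 1) * a₂ ^ 2) =
        X ^ (m * a₁ ^ 2) * X ^ n := by rw [← pow_add, ← pow_add, hn]
    linear_combination (Qt ^ (k + 1) * P' γ) * h4 -
      (X ^ (m * a₁ ^ 2) * X ^ n * Qt ^ (k + 1) * P' γ) * hw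
  · rintro rfl
    have e1 : a₁ = E := by
      rw [ha₁, hx]
      simpa using Int.gcd_eq_natAbs_right hγ
    have e2 : a₂ = E := by omega
    rw [e1, e2] at hn
    rw [e1] at m0
    have : n = 0 := by omega
    rw [this, pow_zero, one_mul, map_mul, map_pow]
    exact (hQt.pow _).mul ((IsUnit.of_mul_eq_one_right _ hw).map _)
  · intro hu0 hu
    have e1 : a₁ ≠ E := by
      intro h3
      have h4 : (E : ℤ) ∣ x := by rw [← h3]; exact Int.gcd_dvd_left x _
      have h5 : (E : ℤ) ∣ u * γ 1 0 := (dvd_add_right hγ).1 h4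
      have h6 : E ∣ u := by
        exact_mod_cast hco.of_mul_right_right.symm.dvd_of_dvd_mul_right h5
      exact hu0 (Nat.eq_zero_of_dvd_of_lt h6 hu)
    have s2 : a₁ ^ 2 < E ^ 2 := Nat.pow_lt_pow_left (by omega) two_ne_zero
    have m2 := Nat.mul_lt_mul_of_pos_left s2 (Nat.succ_pos r)
    have : n ≠ 0 := by
      rw [Nat.succ_eq_add_one] at m2
      omega
    rw [map_mul, map_pow, constantCoeff_X, zero_pow this, zero_mul]

theorem exists_H (hι : Function.Injective ι) (hζ : ι ζ = cexp (2 * π * I / N))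
    (hodd : ∀ n : ℕ, Odd n → IsUnit (n : O)) {k m E : ℕ} (hkm : k + 1 < m) (hm : Odd m)
    (hE : Odd E) (hN : N = 3 * (m * E)) {Θ : ℤ⟦X⟧} (hΘ : Θ * dS ℤ = ex m (dS ℤ) ^ (k + 1))
    {c : ℤ} (h3 : ∀ n : ℕ, ¬(n : ℤ) ≡ c [ZMOD 3] → coeff n Θ = 0) {γ : SL(2, ℤ)}
    (hco : IsCoprime (γ 1 0) ((m * E : ℕ) : ℤ)) (hγ : (E : ℤ) ∣ γ 0 0) :
    ∃ P ∈ MF ι N ((4 * k : ℕ) : ℤ) (N * E),
      P 1 = C (((m ^ (4 * (k + 1)) * E : ℕ)) : O) * (X ^ (N * E) *
        ex m (PowerSeries.map (Int.castRingHom O) (siv Θ c (3 * E)))) ∧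
      ∃ ψ : O⟦X⟧, IsUnit (constantCoeff ψ) ∧
        X ^ ((m - (k + 1)) * E ^ 2) * P γ = X ^ (N * E) * ψ := by
  have hm0 : m ≠ 0 := hm.pos.ne'
  have hE0 : E ≠ 0 := hE.pos.ne'
  have hN0 : N ≠ 0 := by rw [hN]; positivity
  choose H ψ h1 h2 h3' h4 h5 using pole_term hι hζ hodd hkm hm hE hN hΘ hco hγ
  refine ⟨_, MF_sum (Finset.range E) (fun u => ((ζ ^ (-c * ((u : ℤ) * m)) : Oˣ) : O))
    (fun u _ => h1 u), ?_,
    ∑ u ∈ Finset.range E, C ((ζ ^ (-c * ((u : ℤ) * m)) : Oˣ) : O) * ψ u, ?_, ?_⟩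
  · have h := congrArg (ex m) (sieve (a := 0) (e := m) (m := 1) (sysc_root hι hN0 hζ) hN0 hE
      (by rw [hN]; ring) odd_one Θ c h3)
    simp only [pow_zero, Finset.range_one, Finset.sum_singleton, Nat.cast_zero,
      zero_mul, zero_add, one_mul, map_sum, map_mul, ex_C] at h
    simp only [h2, sub_apply, one_mul]
    push_cast
    rw [map_mul, mul_assoc, mul_left_comm (C (E : O)), ← h, Finset.mul_sum, Finset.mul_sum]
    exact Finset.sum_congr rfl fun u _ => by ring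
  · rw [map_sum, Finset.sum_eq_single 0]
    · rw [map_mul, constantCoeff_C]
      exact (Units.isUnit _).mul (h4 0 rfl)
    · intro u hu hu0
      rw [map_mul, h5 u hu0 (Finset.mem_range.1 hu), mul_zero]
    · exact fun h => absurd (Finset.mem_range.2 hE.pos) h
  · rw [Finset.mul_sum, Finset.mul_sum]
    exact Finset.sum_congr rfl fun u _ => by rw [mul_left_comm, h3', mul_left_comm]

end Subb.Q

end

section

/-!
A lower bound for the number of primes in a progression.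
-/

namespace Subb.Q

open Real Set Filter Topology ArithmeticFunction ArithmeticFunction.vonMangoldt
  Pool.Agent.Lib.PrimeGap in
lemma primes_real {q : ℕ} [NeZero q] {a : ZMod q} (ha : IsUnit a) :
    ∃ K : ℝ, 0 ≤ K ∧ ∀ᶠ x : ℝ in atTop, ∀ W : Finset ℕ,
      (∀ p : ℕ, p.Prime → (p : ZMod q) = a → x < p → (p : ℝ) ≤ 2 * x → p ∈ W) →
      x ≤ K * Real.log (2 * x) * W.card := by
  obtain ⟨C, hC0, hC⟩ := dyadic
  set δ := Real.log 2 / 2 with hδ
  have hδ0 : 0 < δ := half_pos (Real.log_pos one_lt_two)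
  have hφ : (0 : ℝ) < q.totient := by exact_mod_cast Nat.totient_pos.2 (NeZero.pos q)
  set D := 2 * (3 / δ ^ 2 + 2) with hD
  have hD0 : 0 ≤ D := by positivity
  set L := 1 + 8 * Real.exp 3 * q.totient * (D * C + 3) with hL
  have hL1 : 1 ≤ L := le_add_of_nonneg_right (by positivity)
  have hmain : D * C + 3 ≤ (q.totient : ℝ)⁻¹ * (L * Real.exp (-3) / 8) := by
    have e1 : (q.totient : ℝ)⁻¹ * (L * Real.exp (-3) / 8)
        = (q.totient : ℝ)⁻¹ * (Real.exp (-3) / 8) + (D * C + 3) := by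
      rw [hL, Real.exp_neg]; field_simp
    rw [e1]
    exact le_add_of_nonneg_left (by positivity)
  obtain ⟨s0, hs0⟩ := ((summable_residueClass_non_primes_div a).mul_left (L ^ 2 / 2)).vanishing
    (gt_mem_nhds zero_lt_one)
  have hev := (smooth_diff ha (by linarith : 0 ≤ L) zero_lt_one).and
    ((eventually_ge_atTop 1).and (Real.tendsto_exp_atTop.eventually_ge_atTop (2 * L)))
  have ht : Tendsto (fun x => Real.log x + δ) atTop atTop :=
    tendsto_atTop_add_const_right _ _ Real.tendsto_log_atTop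
  refine ⟨L ^ 2 / 2, by positivity, ?_⟩
  filter_upwards [ht.eventually hev, eventually_ge_atTop 1,
    eventually_ge_atTop ((s0.sup id : ℕ) : ℝ)] with x ⟨⟨A, B, hA, hB, hAB⟩, hv1, hvL⟩ hx1 hxs W hW
  have hxpos : 0 < x := by linarith
  set v := Real.log x + δ with hv
  have hlow := lower_bound hL1 hv1 hvL hB
  have hlog : 0 ≤ Real.log (2 * x) := Real.log_nonneg (by linarith)
  set E := L ^ 2 / 2 * (Real.log (2 * x) / x) with hE
  have hE0 : 0 ≤ E := by positivity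
  have hup : A ≤ 1 + D * C + W.card * E := by
    refine hasSum_le_of_sum_le hA fun s => ?_
    have h1 : ∀ n ∈ s, residueClass a n / (n : ℝ) ^ (1 + 1 / v) * fejer L (v - Real.log n)
        ≤ (if x < n then L ^ 2 / 2 * ((if n.Prime then 0 else residueClass a n) / n) else 0)
          + D * (vonMangoldt n / n * (1 / (1 + (⌊Real.log n - v⌋ : ℝ) ^ 2)))
          + (if n ∈ W then E else 0) := by
      intro n _
      have r0 := residueClass_nonneg a n
      have r1 := residueClass_le a n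
      have f0 := fejer_nonneg L (v - Real.log n)
      have t1 : 0 ≤ (if x < n then L ^ 2 / 2 * ((if n.Prime then 0 else residueClass a n) / n)
          else 0) := by split_ifs <;> positivity
      have t2 : 0 ≤ D * (vonMangoldt n / n * (1 / (1 + (⌊Real.log n - v⌋ : ℝ) ^ 2))) := by
        have := @vonMangoldt_nonneg n
        positivity
      have t3 : 0 ≤ (if n ∈ W then E else 0) := by split_ifs <;> positivity
      rcases eq_or_ne n 0 with rfl | hn0
      · simpa using t3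
      have hn1 : (1 : ℝ) ≤ n := by exact_mod_cast Nat.one_le_iff_ne_zero.2 hn0
      have hn' : (0 : ℝ) < n := by linarith
      have hpow : residueClass a n / (n : ℝ) ^ (1 + 1 / v) ≤ residueClass a n / n := by
        refine div_le_div_of_nonneg_left r0 hn' ?_
        exact Real.self_le_rpow_of_one_le hn1
          (le_add_of_nonneg_right (show 0 ≤ 1 / v by positivity))
      refine (mul_le_mul_of_nonneg_right hpow f0).trans ?_
      rcases lt_or_ge |Real.log n - v| δ with h | h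
      · rw [abs_lt] at h
        have h2 : x < n := by
          rw [← Real.log_lt_log_iff hxpos hn']; linarith [h.1]
        have h3 : (n : ℝ) ≤ 2 * x := by
          rw [← Real.log_le_log_iff hn' (by positivity), Real.log_mul (by positivity) hxpos.ne']
          linarith [h.2]
        have hf := fejer_le_sq (by linarith : 0 ≤ L) (v - Real.log n)
        by_cases hp : n.Prime
        · by_cases h5 : (n : ZMod q) = a
          · refine le_add_of_nonneg_of_le (add_nonneg t1 t2) ?_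
            rw [if_pos (hW n hp h5 h2 h3), hE, mul_comm]
            refine mul_le_mul hf ?_ (by positivity) (by positivity)
            refine div_le_div₀ hlog (r1.trans ?_) hxpos h2.le
            rw [vonMangoldt_apply_prime hp]
            exact Real.log_le_log hn' h3
          · have h4 : residueClass a n = 0 := by
              refine indicator_of_notMem (fun h6 => ?_) _
              exact h5 h6
            rw [h4, zero_div, zero_mul]
            rw [h4] at t1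
            positivity
        · refine le_add_of_le_of_nonneg (le_add_of_le_of_nonneg ?_ t2) t3
          rw [if_pos h2, if_neg hp, mul_comm]
          exact mul_le_mul_of_nonneg_right hf (by positivity)
      · refine le_add_of_le_of_nonneg (le_add_of_nonneg_of_le t1 ?_) t3
        have h2 : v - Real.log n ≠ 0 := by
          intro h3
          have : Real.log n - v = 0 := by linarith
          rw [this, abs_zero] at h
          linarith
        have h3 := fejer_le_div L h2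
        have h4 := inv_sq_le hδ0 h
        rw [show (v - Real.log n) ^ 2 = (Real.log n - v) ^ 2 by ring] at h3
        have := @vonMangoldt_nonneg n
        calc residueClass a n / n * fejer L (v - Real.log n)
            ≤ vonMangoldt n / n * (D * (1 / (1 + (⌊Real.log n - v⌋ : ℝ) ^ 2))) :=
              mul_le_mul (by gcongr) (h3.trans h4) f0 (by positivity)
          _ = _ := by ring
    refine (Finset.sum_le_sum h1).trans ?_
    rw [Finset.sum_add_distrib, Finset.sum_add_distrib, ← Finset.mul_sum, ← Finset.sum_filter,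
      ← Finset.sum_filter]
    refine add_le_add (add_le_add (le_of_lt (hs0 _ ?_))
      (mul_le_mul_of_nonneg_left (hC v s) hD0)) ?_
    · rw [Finset.disjoint_left]
      intro n hn hn'
      have h2 := (Finset.mem_filter.1 hn).2
      have h3 : n ≤ s0.sup id := Finset.le_sup (f := id) hn'
      have h4 : (n : ℝ) ≤ ((s0.sup id : ℕ) : ℝ) := by exact_mod_cast h3
      linarith
    · rw [Finset.sum_const, nsmul_eq_mul]
      refine mul_le_mul_of_nonneg_right ?_ hE0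
      exact_mod_cast Finset.card_le_card fun n hn => (Finset.mem_filter.1 hn).2
  have h2 : (q.totient : ℝ)⁻¹ * (L * Real.exp (-3) / 8) ≤ (q.totient : ℝ)⁻¹ * B := by gcongr
  have h3 : 1 ≤ W.card * E := by linarith
  have h4 : W.card * E * x = L ^ 2 / 2 * Real.log (2 * x) * W.card := by
    rw [hE]; field_simp
  rw [← h4]
  exact le_mul_of_one_le_left hxpos.le h3

open Filter in
lemma primes_class {q : ℕ} [NeZero q] (a : ZMod q) : ∃ K : ℕ, ∀ᶠ s : ℕ in atTop, IsUnit a →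
    8 ^ s ≤ K * s * ((Finset.Ioc (8 ^ s) (2 * 8 ^ s)).filter
      fun p : ℕ => p.Prime ∧ (p : ZMod q) = a).card := by
  by_cases ha : IsUnit a
  swap
  · exact ⟨0, Eventually.of_forall fun s h => absurd h ha⟩
  obtain ⟨K, hK, h⟩ := primes_real ha
  refine ⟨⌈4 * K⌉₊, ?_⟩
  filter_upwards [(tendsto_pow_atTop_atTop_of_one_lt (by norm_num : (1 : ℝ) < 8)).eventually h,
    eventually_ge_atTop 1] with s hs hs1 _
  set W := (Finset.Ioc (8 ^ s) (2 * 8 ^ s)).filter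
      fun p : ℕ => p.Prime ∧ (p : ZMod q) = a with hW
  have h1 := hs W fun p hp hpa h1 h2 => by
    rw [hW, Finset.mem_filter, Finset.mem_Ioc]
    exact ⟨⟨by exact_mod_cast h1, by exact_mod_cast h2⟩, hp, hpa⟩
  have h2 : Real.log (2 * 8 ^ s) ≤ 4 * s := by
    have e : (2 * 8 ^ s : ℝ) = 2 ^ (3 * s + 1) := by
      rw [pow_succ, pow_mul]; norm_num [mul_comm]
    have h3 : Real.log 2 ≤ 1 := by linarith [Real.log_two_lt_d9]
    have h4 : (1 : ℝ) ≤ s := by exact_mod_cast hs1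
    rw [e, Real.log_pow]
    push_cast
    nlinarith
  have h3 : 4 * K ≤ (⌈4 * K⌉₊ : ℝ) := Nat.le_ceil _
  have h4 : (8 : ℝ) ^ s ≤ ⌈4 * K⌉₊ * s * W.card :=
    calc (8 : ℝ) ^ s ≤ K * Real.log (2 * 8 ^ s) * W.card := h1
      _ ≤ K * (4 * s) * W.card := by gcongr
      _ = 4 * K * s * W.card := by ring
      _ ≤ _ := by gcongr
  exact_mod_cast h4

theorem many_primes {q : ℕ} (hq : q ≠ 0) : ∃ C s₀ : ℕ, ∀ s ≥ s₀, ∀ a : ℕ, a.Coprime q →
    8 ^ s ≤ C * s * ((Finset.Ioc (8 ^ s) (2 * 8 ^ s)).filter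
      fun p => p.Prime ∧ p ≡ a [MOD q]).card := by
  have : NeZero q := ⟨hq⟩
  choose K hK using fun a : ZMod q => primes_class a
  obtain ⟨s₀, h⟩ := Filter.eventually_atTop.1 (Filter.eventually_all.2 hK)
  refine ⟨∑ a, K a, s₀, fun s hs a ha => ?_⟩
  have h1 := h s hs (a : ZMod q) ((ZMod.isUnit_iff_coprime a q).2 ha)
  simp only [ZMod.natCast_eq_natCast_iff] at h1
  refine h1.trans ?_
  have h2 : K (a : ZMod q) ≤ ∑ a, K a :=
    Finset.single_le_sum (f := K) (fun _ _ => Nat.zero_le _) (Finset.mem_univ _)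
  gcongr

end Subb.Q

end

section

/-!
Counting.
-/

namespace Subb.Q

open Filter

lemma count_core {β : ℕ → ℕ} {c d C s : ℕ} (hd : d ≠ 0) (hβ : ∀ u, β u < 2) (hs : C < 2 ^ s)
    {T : Finset ℕ} (hT : 8 ^ s ≤ C * s * T.card)
    (hP : ∀ l ∈ T, l.Prime ∧ 8 ^ s < l ∧ l ≤ 2 * 8 ^ s)
    (hS : ∀ l ∈ T, ∀ l' ∈ T, l' < l → ∃ S : Finset ℕ, 2 ^ s ≤ C * S.card ∧
        ∀ n ∈ S, n ≠ 0 ∧ n ≤ C * 4 ^ s ∧
          ∃ u u', l * n = c + d * u ∧ l' * n = c + d * u' ∧ β u ≠ β u')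
    {r : ℕ} (hr : r < 2) {x : ℕ} (hx : 2 * C * 32 ^ s ≤ x) :
    16 ^ s ≤ 4 * C ^ 2 * s * ((Finset.range (x + 1)).filter fun u => β u = r).card := by
  classical
  have e8 : 8 ^ s = 2 ^ s * 4 ^ s := mul_pow 2 4 s
  have e16 : 16 ^ s = 8 ^ s * 2 ^ s := mul_pow 8 2 s
  have e32 : 32 ^ s = 8 ^ s * 4 ^ s := mul_pow 8 4 s
  have p2 : 0 < 2 ^ s := by positivity
  have p4 : 0 < 4 ^ s := by positivity
  have hlt : C * 4 ^ s < 8 ^ s := by rw [e8]; exact Nat.mul_lt_mul_of_pos_right hs p4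
  have hT2 : 2 ≤ T.card := by
    by_contra hc
    have h1 : C * s * T.card ≤ C * s * 1 := Nat.mul_le_mul_left _ (by omega)
    have h2 : s ≤ 4 ^ s := (Nat.lt_pow_self (by norm_num)).le
    have h3 : C * s ≤ C * 4 ^ s := Nat.mul_le_mul_left _ h2
    omega
  set Z : ℕ → Finset ℕ := fun l => (Finset.range (C * 4 ^ s + 1)).filter
    fun n => n ≠ 0 ∧ ∃ u, l * n = c + d * u ∧ β u = r with hZ
  have mZ : ∀ l n, n ∈ Z l ↔ n ≤ C * 4 ^ s ∧ n ≠ 0 ∧ ∃ u, l * n = c + d * u ∧ β u = r := by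
    intro l n
    simp only [hZ, Finset.mem_filter, Finset.mem_range, Nat.lt_succ_iff]
  obtain ⟨l0, hl0, hmin⟩ := T.exists_min_image (fun l => (Z l).card)
    (Finset.card_pos.1 (by omega))
  have key : ∀ l ∈ T, ∀ l' ∈ T, l' < l → 2 ^ s ≤ C * ((Z l).card + (Z l').card) := by
    intro l hl l' hl' h
    obtain ⟨S, h1, h2⟩ := hS l hl l' hl' h
    refine h1.trans (Nat.mul_le_mul_left _ (le_trans (Finset.card_le_card ?_)
      (Finset.card_union_le _ _)))
    intro n hn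
    obtain ⟨n0, n1, u, u', hu, hu', hne⟩ := h2 n hn
    rw [Finset.mem_union, mZ, mZ]
    have b1 := hβ u
    have b2 := hβ u'
    by_cases hb : β u = r
    · exact Or.inl ⟨n1, n0, u, hu, hb⟩
    · exact Or.inr ⟨n1, n0, u', hu', by omega⟩
  have big : ∀ l ∈ T.erase l0, 2 ^ s ≤ 2 * C * (Z l).card := by
    intro l hl
    obtain ⟨hne, hl⟩ := Finset.mem_erase.1 hl
    have h1 := hmin l hl
    have h2 : 2 ^ s ≤ C * ((Z l).card + (Z l0).card) := by
      rcases lt_or_gt_of_ne hne with h | h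
      · rw [add_comm]; exact key l0 hl0 l hl h
      · exact key l hl l0 hl0 h
    calc 2 ^ s ≤ C * ((Z l).card + (Z l0).card) := h2
      _ ≤ C * ((Z l).card + (Z l).card) := by gcongr
      _ = _ := by ring
  set N := ((Finset.range (x + 1)).filter fun u => β u = r).card with hN
  have hsum : ∑ l ∈ T.erase l0, (Z l).card ≤ N := by
    rw [← Finset.card_sigma]
    have val : ∀ p ∈ (T.erase l0).sigma Z, p.1 * p.2 = c + d * ((p.1 * p.2 - c) / d) ∧
        β ((p.1 * p.2 - c) / d) = r := by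
      intro p hp
      obtain ⟨-, -, u, hu, hb⟩ := (mZ _ _).1 (Finset.mem_sigma.1 hp).2
      have : (p.1 * p.2 - c) / d = u := by
        rw [hu, Nat.add_sub_cancel_left, Nat.mul_div_cancel_left _ (Nat.pos_of_ne_zero hd)]
      rw [this]
      exact ⟨hu, hb⟩
    refine Finset.card_le_card_of_injOn (fun p => (p.1 * p.2 - c) / d) (fun p hp => ?_)
      fun p hp p' hp' h => ?_
    · have hp : p ∈ (T.erase l0).sigma Z := hp
      have h1 := (hP _ (Finset.mem_of_mem_erase (Finset.mem_sigma.1 hp).1)).2.2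
      have h2 := ((mZ _ _).1 (Finset.mem_sigma.1 hp).2).1
      have h3 : p.1 * p.2 ≤ 2 * 8 ^ s * (C * 4 ^ s) := Nat.mul_le_mul h1 h2
      have h4 : 2 * 8 ^ s * (C * 4 ^ s) = 2 * C * 32 ^ s := by rw [e32]; ring
      have h5 : (p.1 * p.2 - c) / d ≤ p.1 * p.2 := (Nat.div_le_self _ _).trans (Nat.sub_le _ _)
      rw [Finset.mem_coe, Finset.mem_filter, Finset.mem_range]
      exact ⟨Nat.lt_succ_of_le (h5.trans (h3.trans (h4 ▸ hx))), (val p hp).2⟩
    · have hp : p ∈ (T.erase l0).sigma Z := hp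
      have hp' : p' ∈ (T.erase l0).sigma Z := hp'
      have h : (p.1 * p.2 - c) / d = (p'.1 * p'.2 - c) / d := h
      have h1 : p.1 * p.2 = p'.1 * p'.2 := by rw [(val p hp).1, (val p' hp').1, h]
      obtain ⟨q1, q2, -⟩ := hP _ (Finset.mem_of_mem_erase (Finset.mem_sigma.1 hp).1)
      obtain ⟨q1', -, -⟩ := hP _ (Finset.mem_of_mem_erase (Finset.mem_sigma.1 hp').1)
      obtain ⟨n1, n0, -⟩ := (mZ _ _).1 (Finset.mem_sigma.1 hp').2
      have h2 : p.1 = p'.1 := by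
        rcases (q1.dvd_mul).1 (Dvd.intro _ h1) with h3 | h3
        · exact (Nat.prime_dvd_prime_iff_eq q1 q1').1 h3
        · have := Nat.le_of_dvd (Nat.pos_of_ne_zero n0) h3
          omega
      have h3 : p.2 = p'.2 := by
        rw [h2] at h1
        exact Nat.eq_of_mul_eq_mul_left q1'.pos h1
      exact Sigma.ext h2 (heq_of_eq h3)
  have h1 : (T.erase l0).card * 2 ^ s ≤ 2 * C * N := by
    calc (T.erase l0).card * 2 ^ s = (T.erase l0).card • 2 ^ s := rfl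
      _ ≤ ∑ l ∈ T.erase l0, 2 * C * (Z l).card := Finset.card_nsmul_le_sum _ _ _ big
      _ = 2 * C * ∑ l ∈ T.erase l0, (Z l).card := by rw [Finset.mul_sum]
      _ ≤ _ := Nat.mul_le_mul_left _ hsum
  have h2 : T.card ≤ 2 * (T.erase l0).card := by
    rw [Finset.card_erase_of_mem hl0]; omega
  calc 16 ^ s = 8 ^ s * 2 ^ s := e16
    _ ≤ C * s * (2 * (T.erase l0).card) * 2 ^ s :=
        Nat.mul_le_mul_right _ (hT.trans (Nat.mul_le_mul_left _ h2))
    _ = 2 * C * s * ((T.erase l0).card * 2 ^ s) := by ring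
    _ ≤ 2 * C * s * (2 * C * N) := Nat.mul_le_mul_left _ h1
    _ = _ := by ring

theorem count {β : ℕ → ℕ} {c d C s₀ : ℕ} (hd : d ≠ 0) (hβ : ∀ u, β u < 2)
    (h : ∀ s ≥ s₀, ∃ T : Finset ℕ, 8 ^ s ≤ C * s * T.card ∧
      (∀ l ∈ T, l.Prime ∧ 8 ^ s < l ∧ l ≤ 2 * 8 ^ s) ∧
      ∀ l ∈ T, ∀ l' ∈ T, l' < l → ∃ S : Finset ℕ, 2 ^ s ≤ C * S.card ∧
        ∀ n ∈ S, n ≠ 0 ∧ n ≤ C * 4 ^ s ∧
          ∃ u u', l * n = c + d * u ∧ l' * n = c + d * u' ∧ β u ≠ β u')
    {r : ℕ} (hr : r < 2) : ∃ κ : ℝ, 0 < κ ∧ ∀ᶠ x : ℕ in atTop,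
      κ * (x : ℝ) ^ (4 / 5 : ℝ) / Real.log x ≤
        (((Finset.range (x + 1)).filter fun u => β u = r).card : ℝ) := by
  have hC : 0 < C := by
    obtain ⟨T, hT, -⟩ := h s₀ le_rfl
    rcases Nat.eq_zero_or_pos C with rfl | hC
    · simp at hT
    · exact hC
  have hC1 : (1 : ℝ) ≤ C := by exact_mod_cast hC
  refine ⟨1 / (256 * (C : ℝ) ^ 3), by positivity, ?_⟩
  filter_upwards [eventually_ge_atTop (2 * C * 32 ^ (s₀ + C)), eventually_ge_atTop 2] with x hx hx2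
  have h2C : 0 < 2 * C := by omega
  have hq : 32 ^ (s₀ + C) ≤ x / (2 * C) := (Nat.le_div_iff_mul_le h2C).2 (by rwa [mul_comm])
  set s := Nat.log 32 (x / (2 * C)) with hs
  have hs1 : s₀ + C ≤ s := Nat.le_log_of_pow_le (by norm_num) hq
  have hq0 : x / (2 * C) ≠ 0 := by
    have : 0 < 32 ^ (s₀ + C) := by positivity
    omega
  have hlo : 2 * C * 32 ^ s ≤ x :=
    (Nat.mul_le_mul_left _ (Nat.pow_log_le_self 32 hq0)).trans (Nat.mul_div_le _ _)
  have hhi : x ≤ 64 * C * 32 ^ s := by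
    have h1 : x / (2 * C) < 32 ^ (s + 1) := Nat.lt_pow_succ_log_self (by norm_num) _
    have h2 := (Nat.div_lt_iff_lt_mul h2C).1 h1
    calc x ≤ 32 ^ (s + 1) * (2 * C) := h2.le
      _ = _ := by ring
  have hCs : C < 2 ^ s :=
    (Nat.lt_pow_self (by norm_num : 1 < 2)).trans_le (Nat.pow_le_pow_right (by norm_num) (by omega))
  obtain ⟨T, hT, hP, hS⟩ := h s (by omega)
  have core := count_core hd hβ hCs hT hP hS hr hlo
  set N := ((Finset.range (x + 1)).filter fun u => β u = r).card with hN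
  have core' : (16 : ℝ) ^ s ≤ 4 * C ^ 2 * s * N := by exact_mod_cast core
  have hx2' : (2 : ℝ) ≤ x := by exact_mod_cast hx2
  have hlog : 0 < Real.log x := Real.log_pos (by linarith)
  have hsl : (s : ℝ) ≤ Real.log x := by
    have h1 : 32 ^ s ≤ x := le_trans (Nat.le_mul_of_pos_left _ h2C) hlo
    have h2 : (32 : ℝ) ^ s ≤ x := by exact_mod_cast h1
    have h3 := Real.log_le_log (by positivity) h2
    rw [Real.log_pow] at h3
    have h4 : 1 ≤ Real.log 32 := by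
      rw [Real.le_log_iff_exp_le (by norm_num)]
      linarith [Real.exp_one_lt_d9]
    nlinarith [show (0 : ℝ) ≤ s by positivity]
  have hpow : (x : ℝ) ^ (4 / 5 : ℝ) ≤ 64 * C * 16 ^ s := by
    have h1 : (x : ℝ) ≤ 64 * C * 32 ^ s := by exact_mod_cast hhi
    have h2 : ((32 : ℝ) ^ s) ^ (4 / 5 : ℝ) = 16 ^ s := by
      have e1 : (32 : ℝ) ^ s = 2 ^ ((5 * s : ℕ) : ℝ) := by
        rw [Real.rpow_natCast, pow_mul]; norm_num
      have e2 : (16 : ℝ) ^ s = 2 ^ ((4 * s : ℕ) : ℝ) := by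
        rw [Real.rpow_natCast, pow_mul]; norm_num
      rw [e1, e2, ← Real.rpow_mul (by norm_num)]
      congr 1
      push_cast
      ring
    calc (x : ℝ) ^ (4 / 5 : ℝ) ≤ (64 * C * 32 ^ s) ^ (4 / 5 : ℝ) := by gcongr
      _ = (64 * C) ^ (4 / 5 : ℝ) * 16 ^ s := by
          rw [Real.mul_rpow (by positivity) (by positivity), h2]
      _ ≤ _ := by
          gcongr
          exact Real.rpow_le_self_of_one_le (by linarith) (by norm_num)
  rw [div_le_iff₀ hlog, one_div, inv_mul_le_iff₀ (by positivity)]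
  calc (x : ℝ) ^ (4 / 5 : ℝ) ≤ 64 * C * 16 ^ s := hpow
    _ ≤ 64 * C * (4 * C ^ 2 * s * N) := by gcongr
    _ ≤ 64 * C * (4 * C ^ 2 * Real.log x * N) := by gcongr
    _ = _ := by ring

end Subb.Q

end
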