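import Pool.Agent.MP_a23355_nt.H13.Defs

section

/-!
Homogeneous series.
-/

namespace Subb.Q

open Polynomial IntermediateField

variable {F : Type} [Field F] {y : LaurentSeries F} {N M M' r r' : ℤ} {f g : LaurentSeries F}
  {ϑ : ℕ → ℤ → LaurentSeries F}

theorem coeff_Er (M r : ℤ) (f : LaurentSeries F) (n : ℤ) :
    (Er M r f).coeff n = if n ≡ r [ZMOD M] then f.coeff n else 0 := rfl

theorem Hom.mul (hf : Hom M r f) (hg : Hom M r' g) : Hom M (r + r') (f * g) := by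
  intro n hn
  obtain ⟨a, ha, b, hb, rfl⟩ := HahnSeries.support_mul_subset (x := f) (y := g) hn
  exact (hf a ha).add (hg b hb)

theorem Hom.of_dvd (hf : Hom M r f) (h : M' ∣ M) (e : r ≡ r' [ZMOD M']) : Hom M' r' f :=
  fun n hn => ((hf n hn).of_dvd h).trans e

theorem Hom.one (M : ℤ) : Hom M 0 (1 : LaurentSeries F) := by
  intro n hn
  rw [HahnSeries.coeff_one] at hn
  by_cases h : n = 0
  · rw [h]
  · exact absurd (if_neg h) hn

theorem Hom.pow (hf : Hom M r f) (k : ℕ) : Hom M (k * r) (f ^ k) := by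
  induction k with
  | zero =>
    rw [pow_zero, Nat.cast_zero, zero_mul]
    exact Hom.one M
  | succ k ih =>
    rw [pow_succ, Nat.cast_succ, add_mul, one_mul]
    exact ih.mul hf

theorem Hom.sq [CharP F 2] (hf : Hom M r f) : Hom (2 * M) (2 * r) (f ^ 2) := by
  intro n hn
  by_contra hne
  apply hn
  rw [pow_two, HahnSeries.coeff_mul]
  refine Finset.sum_involution (fun a _ => a.swap) ?_ ?_ ?_ ?_
  · intro a _
    rw [Prod.fst_swap, Prod.snd_swap, mul_comm (f.coeff a.2), CharTwo.add_self_eq_zero]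
  · intro a ha _ h
    rw [Finset.mem_antidiagonal] at ha
    apply hne
    have h1 : a.2 = a.1 := congrArg Prod.fst h
    have h2 : n = 2 * a.1 := by rw [← ha.2.2, h1]; ring
    rw [h2]
    exact (hf a.1 ha.1).mul_left'
  · intro a ha
    exact Finset.swap_mem_antidiagonal.2 ha
  · intro a _
    rfl

theorem Hom.pow_two_pow [CharP F 2] (f : LaurentSeries F) (s : ℕ) :
    Hom (2 ^ s) 0 (f ^ 2 ^ s) := by
  induction s with
  | zero =>
    intro n _
    rw [pow_zero]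
    exact Int.modEq_one
  | succ s ih =>
    have h := ih.sq
    rw [mul_zero, ← pow_mul, ← pow_succ, ← pow_succ'] at h
    exact h

theorem Er_add (M r : ℤ) (f g : LaurentSeries F) : Er M r (f + g) = Er M r f + Er M r g := by
  ext n
  rw [HahnSeries.coeff_add, coeff_Er, coeff_Er, coeff_Er, HahnSeries.coeff_add]
  split_ifs
  · rfl
  · rw [add_zero]

theorem Er_zero (M r : ℤ) : Er M r (0 : LaurentSeries F) = 0 := by
  ext n
  rw [coeff_Er, HahnSeries.coeff_zero, ite_self]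

theorem Hom.Er_eq (hf : Hom M r f) (r' : ℤ) : Er M r' f = if r ≡ r' [ZMOD M] then f else 0 := by
  ext n
  rw [coeff_Er]
  by_cases h0 : f.coeff n = 0
  · split_ifs
    · rfl
    · rw [h0, HahnSeries.coeff_zero]
    · exact h0.symm
    · rw [HahnSeries.coeff_zero]
  · have h1 := hf n h0
    by_cases h2 : r ≡ r' [ZMOD M]
    · rw [if_pos h2, if_pos (h1.trans h2)]
    · rw [if_neg h2, if_neg (fun h => h2 (h1.symm.trans h)), HahnSeries.coeff_zero]

theorem Wc.Er {w : LaurentSeries F} (hf : f ∈ Wc y M w) (r : ℤ) :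
    IsIntegral (AA y) (Er M r f * w) := by
  induction hf using AddSubmonoid.closure_induction with
  | mem x hx =>
    obtain ⟨⟨r₀, h₀⟩, hi⟩ := hx
    rw [h₀.Er_eq]
    split_ifs
    · exact hi
    · rw [zero_mul]
      exact isIntegral_zero
  | zero =>
    rw [Er_zero, zero_mul]
    exact isIntegral_zero
  | add a b _ _ ha hb =>
    rw [Er_add, add_mul]
    exact ha.add hb

theorem Wc.mul {w w' : LaurentSeries F} (hf : f ∈ Wc y M w) (hg : g ∈ Wc y M w') :
    f * g ∈ Wc y M (w * w') := by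
  induction hf using AddSubmonoid.closure_induction with
  | mem a ha =>
    induction hg using AddSubmonoid.closure_induction with
    | mem b hb =>
      obtain ⟨⟨r₀, h₀⟩, hi⟩ := ha
      obtain ⟨⟨r₁, h₁⟩, hj⟩ := hb
      refine AddSubmonoid.subset_closure ⟨⟨r₀ + r₁, h₀.mul h₁⟩, ?_⟩
      rw [mul_mul_mul_comm]
      exact hi.mul hj
    | zero =>
      rw [mul_zero]
      exact zero_mem _
    | add b c _ _ hb hc =>
      rw [mul_add]
      exact add_mem hb hc
  | zero =>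
    rw [zero_mul]
    exact zero_mem _
  | add a b _ _ ha hb =>
    rw [add_mul]
    exact add_mem ha hb

theorem Wc.pow {w : LaurentSeries F} (hf : f ∈ Wc y M w) (k : ℕ) : f ^ k ∈ Wc y M (w ^ k) := by
  induction k with
  | zero =>
    refine AddSubmonoid.subset_closure ⟨⟨0, ?_⟩, ?_⟩
    · rw [pow_zero]
      exact Hom.one M
    · rw [pow_zero, pow_zero, mul_one]
      exact isIntegral_one
  | succ k ih =>
    rw [pow_succ, pow_succ]
    exact Wc.mul ih hf

variable [CharP F 2]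

theorem core2a_charP : CharP (LaurentSeries F) 2 :=
  charP_of_injective_algebraMap (algebraMap F (LaurentSeries F)).injective 2

theorem core2a_dec (L : IntermediateField (kk y) (LaurentSeries F))
    (hL : ∀ x ∈ L, ∃ a ∈ L, ∃ b ∈ L, x = a ^ 2 + b ^ 2 * y) {g : L} (hg0 : g ≠ 0)
    (hN : Odd N) (hy : Hom 2 N y) (hg : Hom 2 N (g : LaurentSeries F)) (x : L) :
    ∃ a b : L, x = a ^ 2 + b ^ 2 * g := by
  have hsq : ∀ z : LaurentSeries F, Hom 2 0 (z ^ 2) := fun z => by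
    have h := Hom.pow_two_pow z 1
    rw [pow_one, pow_one] at h
    exact h
  have hN0 : ¬ N ≡ 0 [ZMOD 2] := fun h => by
    obtain ⟨k, rfl⟩ := hN
    unfold Int.ModEq at h
    omega
  obtain ⟨a, _, b, hb, e⟩ := hL g g.2
  have h1 : Hom 2 N (b ^ 2 * y) := by
    have h := (hsq b).mul hy
    rwa [zero_add] at h
  have h2 : a ^ 2 = 0 := by
    have h := congrArg (Er 2 0) e
    rw [Er_add, hg.Er_eq, (hsq a).Er_eq, h1.Er_eq, if_neg hN0, if_neg hN0,
      if_pos Int.ModEq.rfl, add_zero] at h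
    exact h.symm
  rw [h2, zero_add] at e
  have hb0 : b ≠ 0 := by
    rintro rfl
    apply hg0
    apply Subtype.ext
    rw [e]
    simp
  obtain ⟨c, hc, d, hd, e'⟩ := hL x x.2
  refine ⟨⟨c, hc⟩, ⟨d / b, div_mem hd hb⟩, Subtype.ext ?_⟩
  change (x : LaurentSeries F) = c ^ 2 + (d / b) ^ 2 * (g : LaurentSeries F)
  rw [e', e]
  field_simp

theorem core2a_span {K : Type} [Field K] [CharP K 2] (g : K)
    (h : ∀ x : K, ∃ a b : K, x = a ^ 2 + b ^ 2 * g) (j : ℕ) (x : K) :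
    x ∈ AddSubmonoid.closure {t : K | ∃ (α : K) (i : ℕ), t = α ^ 2 ^ j * g ^ i} := by
  induction j with
  | zero => exact AddSubmonoid.subset_closure ⟨x, 0, by simp⟩
  | succ j ih =>
    refine (AddSubmonoid.closure_le.2 ?_ : _ ≤ _) ih
    rintro t ⟨α, i, rfl⟩
    obtain ⟨a, b, rfl⟩ := h α
    have e : (a ^ 2 + b ^ 2 * g) ^ 2 ^ j * g ^ i =
        a ^ 2 ^ (j + 1) * g ^ i + b ^ 2 ^ (j + 1) * g ^ (2 ^ j + i) := by
      rw [add_pow_char_pow, mul_pow, ← pow_mul, ← pow_mul, ← pow_succ', pow_add g]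
      ring
    rw [e]
    exact add_mem (AddSubmonoid.subset_closure ⟨a, i, rfl⟩)
      (AddSubmonoid.subset_closure ⟨b, 2 ^ j + i, rfl⟩)

theorem core2a_cancel {s : ℕ} {a b c : ℤ} (hc : Odd c) :
    a * c ≡ b * c [ZMOD 2 ^ s] ↔ a ≡ b [ZMOD 2 ^ s] := by
  refine ⟨fun h => ?_, fun h => h.mul_right c⟩
  rw [Int.modEq_iff_dvd] at h ⊢
  rw [← sub_mul] at h
  have h2 : IsCoprime (2 : ℤ) c := by
    obtain ⟨k, rfl⟩ := hc
    exact ⟨-k, 1, by ring⟩
  exact (IsCoprime.pow_left h2).dvd_of_dvd_mul_right h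

/-- The homogeneous parts stay in `L`, and the Galois group permutes them. -/
theorem Er_mem (L : IntermediateField (kk y) (LaurentSeries F))
    (hL : ∀ x ∈ L, ∃ a ∈ L, ∃ b ∈ L, x = a ^ 2 + b ^ 2 * y) {s : ℕ} {g : L} (hg0 : g ≠ 0)
    (hN : Odd N) (hy : Hom 2 N y) (hg : Hom (2 ^ (s + 1)) N (g : LaurentSeries F)) (f : L)
    (r : ℤ) : ∃ f' : L, (f' : LaurentSeries F) = Er (2 ^ (s + 1)) r f ∧
      ∀ (σ : L ≃ₐ[kk y] L) (c : ℤ), Odd c → Hom (2 ^ (s + 1)) (N * c) (σ g : LaurentSeries F) →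
        (σ f' : LaurentSeries F) = Er (2 ^ (s + 1)) (r * c) (σ f) := by
  have : CharP (LaurentSeries F) 2 := core2a_charP
  have hg2 : Hom 2 N (g : LaurentSeries F) :=
    hg.of_dvd (dvd_pow_self 2 (Nat.succ_ne_zero s)) Int.ModEq.rfl
  have hf := core2a_span g (core2a_dec L hL hg0 hN hy hg2) (s + 1) f
  have hterm : ∀ (α β : L) (i : ℕ) (u : ℤ), Hom (2 ^ (s + 1)) u (β : LaurentSeries F) →
      Hom (2 ^ (s + 1)) (i * u) ((α ^ 2 ^ (s + 1) * β ^ i : L) : LaurentSeries F) := by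
    intro α β i u hβ
    have h := (Hom.pow_two_pow (α : LaurentSeries F) (s + 1)).mul (hβ.pow i)
    rw [zero_add] at h
    exact h
  induction hf using AddSubmonoid.closure_induction with
  | mem t ht =>
    obtain ⟨α, i, rfl⟩ := ht
    refine ⟨if (i : ℤ) * N ≡ r [ZMOD 2 ^ (s + 1)] then α ^ 2 ^ (s + 1) * g ^ i else 0, ?_, ?_⟩
    · rw [(hterm α g i N hg).Er_eq]
      split_ifs
      · rfl
      · rfl
    · intro σ c hc hσ
      have e : σ (α ^ 2 ^ (s + 1) * g ^ i) = σ α ^ 2 ^ (s + 1) * σ g ^ i := by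
        rw [map_mul, map_pow, map_pow]
      rw [e, (hterm (σ α) (σ g) i (N * c) hσ).Er_eq, ← mul_assoc]
      by_cases h : (i : ℤ) * N ≡ r [ZMOD 2 ^ (s + 1)]
      · rw [if_pos h, if_pos ((core2a_cancel hc).2 h), e]
      · rw [if_neg h, if_neg (fun h' => h ((core2a_cancel hc).1 h')), map_zero]
        rfl
  | zero =>
    refine ⟨0, ?_, fun σ c _ _ => ?_⟩
    · exact (Er_zero _ _).symm
    · rw [map_zero]
      exact (Er_zero _ _).symm
  | add a b _ _ ha hb =>
    obtain ⟨a', ha1, ha2⟩ := ha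
    obtain ⟨b', hb1, hb2⟩ := hb
    refine ⟨a' + b', ?_, fun σ c hc hσ => ?_⟩
    · change (a' : LaurentSeries F) + (b' : LaurentSeries F) =
        Er _ _ ((a : LaurentSeries F) + (b : LaurentSeries F))
      rw [Er_add, ha1, hb1]
    · rw [map_add, map_add]
      change (σ a' : LaurentSeries F) + (σ b' : LaurentSeries F) =
        Er _ _ ((σ a : LaurentSeries F) + (σ b : LaurentSeries F))
      rw [Er_add, ha2 σ c hc hσ, hb2 σ c hc hσ]

end Subb.Q

end

section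

/-!
The theta tower.
-/

namespace Subb.Q

open Polynomial IntermediateField

variable {F : Type} [Field F] {y : LaurentSeries F} {N M M' r r' : ℤ} {f g : LaurentSeries F}
  {ϑ : ℕ → ℤ → LaurentSeries F}

theorem core2b_quad {A L : Type} [CommRing A] [CommRing L] [Nontrivial L] [Algebra A L]
    {u p q : L} (hp : IsIntegral A p) (hq : IsIntegral A q) (e : u ^ 2 - p * u + q = 0) :
    IsIntegral A u := by
  refine isIntegral_trans (A := integralClosure A L) u
    ⟨X ^ 2 - C (⟨p, hp⟩ : integralClosure A L) * X + C ⟨q, hq⟩, ?_, ?_⟩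
  · monicity!
  · rw [eval₂_add, eval₂_sub, eval₂_mul, eval₂_X_pow, eval₂_C, eval₂_C, eval₂_X]
    exact e

theorem core2b_t (y : LaurentSeries F) (k : ℕ) : IsIntegral (AA y) (y⁻¹ ^ k) :=
  (isIntegral_algebraMap (R := AA y) (A := LaurentSeries F)
    (x := ⟨y⁻¹, Algebra.self_mem_adjoin_singleton F _⟩)).pow k

theorem core2b_odd {a : ℤ} (ha : Odd a) (e : ℕ) : Odd (a + 2 ^ (e + 1)) :=
  ha.add_even ⟨2 ^ e, by ring⟩

theorem core2b_y (y : LaurentSeries F) : y ∈ kk y := by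
  have := inv_mem (mem_adjoin_simple_self F y⁻¹)
  rwa [inv_inv] at this

theorem core2b_mono {w c : LaurentSeries F} (hf : f ∈ Wc y M w) (hc : IsIntegral (AA y) c) :
    f ∈ Wc y M (w * c) := by
  have h1 : (1 : LaurentSeries F) ∈ Wc y M c :=
    AddSubmonoid.subset_closure ⟨⟨0, Hom.one M⟩, by rwa [one_mul]⟩
  have h2 := Wc.mul hf h1
  rwa [mul_one] at h2

theorem core2b_pair {Ω : Type} [Field Ω] {p q p' q' : Ω} (h1 : p + q = p' + q')
    (h2 : p * q = p' * q') : (p = p' ∧ q = q') ∨ (p = q' ∧ q = p') := by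
  have h3 : (p - p') * (p - q') = 0 := by linear_combination p * h1 - h2
  rcases mul_eq_zero.mp h3 with h | h
  · exact Or.inl ⟨by linear_combination h, by linear_combination h1 - h⟩
  · exact Or.inr ⟨by linear_combination h, by linear_combination h1 - h⟩

variable [CharP F 2]

theorem core2b_two : (2 : LaurentSeries F) = 0 := by
  rw [← map_ofNat (algebraMap F (LaurentSeries F)) 2, CharTwo.two_eq_zero, map_zero]

theorem core2b_sq {w : LaurentSeries F} (hf : f ∈ Wc y M w) : f ^ 2 ∈ Wc y (2 * M) (w ^ 2) := by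
  induction hf using AddSubmonoid.closure_induction with
  | mem z hz =>
    obtain ⟨⟨r, hr⟩, hi⟩ := hz
    exact AddSubmonoid.subset_closure ⟨⟨_, hr.sq⟩, by rw [← mul_pow]; exact hi.pow 2⟩
  | zero => rw [zero_pow two_ne_zero]; exact zero_mem _
  | add a b _ _ ha hb =>
    have e : (a + b) ^ 2 = a ^ 2 + b ^ 2 := by linear_combination (a * b) * core2b_two (F := F)
    rw [e]
    exact add_mem ha hb

theorem Tower.int (h : Tower N y ϑ) (e : ℕ) {a : ℤ} (ha : Odd a) :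
    IsIntegral (AA y) (ϑ (e + 2) a * y⁻¹ ^ 4 ^ (e + 2)) := by
  have hy : y * y⁻¹ = 1 := mul_inv_cancel₀ h.ne
  induction e generalizing a with
  | zero =>
    have e1 : y * y⁻¹ ^ 4 ^ (0 + 2) = y⁻¹ ^ 15 := by
      rw [show 4 ^ (0 + 2) = 15 + 1 from rfl, pow_succ]
      linear_combination y⁻¹ ^ 15 * hy
    rw [h.base a ha, e1]
    exact core2b_t y 15
  | succ e ih =>
    have h1 := h.add (e + 2) a
    have h2 := h.mul (e + 1) a
    have i1 := ih ha
    have i2 := ih (core2b_odd ha e)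
    have e1 : 4 ^ (e + 2) = 2 ^ (2 * (e + 1) + 1) * 2 := by
      rw [show 4 = 2 ^ 2 from rfl, ← pow_mul, ← pow_succ]
      rfl
    have e2 : 4 ^ (e + 1 + 2) = 2 ^ (2 * (e + 1) + 1) * 8 := by
      rw [show e + 1 + 2 = e + 2 + 1 from rfl, pow_succ 4, e1]
      ring
    rw [e2]
    rw [e1] at i1 i2
    generalize 2 ^ (2 * (e + 1) + 1) = m at h2 i1 i2
    have hm : y ^ m * y⁻¹ ^ m = 1 := by rw [← mul_pow, hy, one_pow]
    refine core2b_quad (i1.mul (core2b_t y (m * 6))) ((i2.pow 2).mul (core2b_t y (m * 11))) ?_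
    rw [pow_mul, pow_mul, pow_mul, pow_mul]
    generalize y⁻¹ ^ m = t at hm
    rw [show e + 1 + 1 + 1 = e + 2 + 1 from rfl, show e + 1 + 1 = e + 2 from rfl,
      show e + 1 + 2 = e + 2 + 1 from rfl] at *
    linear_combination (-ϑ (e + 2 + 1) a * t ^ 16) * h1 - t ^ 16 * h2 -
      (ϑ (e + 2) (a + 2 ^ (e + 1)) ^ 2 * t ^ 15) * hm

theorem Tower.ne_zero (h : Tower N y ϑ) (e : ℕ) {a : ℤ} (ha : Odd a) : ϑ (e + 2) a ≠ 0 := by
  induction e generalizing a with
  | zero => rw [h.base a ha]; exact h.ne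
  | succ e ih =>
    refine left_ne_zero_of_mul (b := ϑ (e + 1 + 2) (a + 2 ^ (e + 1 + 1))) ?_
    rw [h.mul (e + 1) a]
    exact mul_ne_zero (pow_ne_zero _ h.ne) (pow_ne_zero _ (ih (core2b_odd ha e)))

theorem Tower.Er_y (h : Tower N y ϑ) (e : ℕ) {a : ℤ} (ha : Odd a) :
    Er (2 ^ (e + 3)) (N * a ^ 2) y = ϑ (e + 2) a := by
  induction e with
  | zero =>
    have h1 := (h.hom 1 a).Er_eq (N * a ^ 2)
    rw [if_pos (Int.ModEq.refl _), h.base a ha] at h1
    rw [h.base a ha]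
    exact h1
  | succ e ih =>
    have e1 : Er (2 ^ (e + 1 + 3)) (N * a ^ 2) y =
        Er (2 ^ (e + 1 + 3)) (N * a ^ 2) (Er (2 ^ (e + 3)) (N * a ^ 2) y) := by
      ext n
      rw [coeff_Er, coeff_Er, coeff_Er]
      split_ifs with h1 h2
      · rfl
      · exact absurd (h1.of_dvd (pow_dvd_pow 2 (by omega))) h2
      · rfl
    have h1 := (h.hom (e + 2) a).Er_eq (N * a ^ 2)
    have h2 := (h.hom (e + 2) (a + 2 ^ (e + 2))).Er_eq (N * a ^ 2)
    rw [if_pos (Int.ModEq.refl _)] at h1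
    rw [if_neg] at h2
    · rw [e1, ih, h.add (e + 2) a, Er_add, show e + 1 + 3 = e + 2 + 2 from rfl, h1, h2, add_zero]
    · intro h3
      obtain ⟨c, hc⟩ := h3.symm.dvd
      have h4 : N * a = 2 * (c - N * 2 ^ e) :=
        mul_left_cancel₀ (pow_ne_zero (e + 3) (two_ne_zero (α := ℤ))) (by linear_combination hc)
      exact (Int.not_even_iff_odd.mpr (h.odd.mul ha)) ⟨_, h4.trans (two_mul _)⟩

theorem core2b_y_mem (h : Tower N y ϑ) (s k : ℕ) : ∀ (j : ℕ) (a : ℤ), j + k = s → Odd a →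
    ϑ (j + 2) a ∈ Wc y (2 ^ s) (y⁻¹ ^ 4 ^ (s + 2)) := by
  induction k with
  | zero =>
    rintro j a rfl ha
    exact AddSubmonoid.subset_closure ⟨⟨_, (h.hom (j + 1) a).of_dvd
      (pow_dvd_pow 2 (by omega)) (Int.ModEq.refl _)⟩, h.int j ha⟩
  | succ k ih =>
    intro j a hj ha
    rw [h.add (j + 2) a]
    exact add_mem (ih (j + 1) a (by omega) ha)
      (ih (j + 1) _ (by omega) (core2b_odd ha (j + 1)))

theorem Tower.y_mem (h : Tower N y ϑ) (s : ℕ) : y ∈ Wc y (2 ^ s) (y⁻¹ ^ 4 ^ (s + 2)) := by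
  have h1 := core2b_y_mem h s s 0 1 (zero_add s) odd_one
  rwa [h.base 1 odd_one] at h1

/-- The pole of the homogeneous parts at the supersingular point. -/
theorem Tower.mem_Wc (h : Tower N y ϑ) {K : IntermediateField (kk y) (LaurentSeries F)}
    {δ : LaurentSeries F} (hδ : ∀ x ∈ K, IsIntegral (AA y) (x * δ ^ 2) → ∃ a ∈ K, ∃ b ∈ K,
      x = a ^ 2 + b ^ 2 * y⁻¹ ∧ IsIntegral (AA y) (a * δ ^ 2) ∧ IsIntegral (AA y) (b * δ ^ 2))
    (s : ℕ) {x : LaurentSeries F} (hx : x ∈ K) (hi : IsIntegral (AA y) (x * δ ^ 2)) :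
    x ∈ Wc y (2 ^ s) (y⁻¹ ^ 4 ^ (s + 3) * δ ^ 2 ^ (s + 1)) := by
  have hy : y * y⁻¹ = 1 := mul_inv_cancel₀ h.ne
  induction s generalizing x with
  | zero =>
    refine AddSubmonoid.subset_closure ⟨⟨0, fun n _ => by rw [pow_zero]; exact Int.modEq_one⟩, ?_⟩
    have := hi.mul (core2b_t y (4 ^ (0 + 3)))
    rwa [mul_assoc, mul_comm (δ ^ 2)] at this
  | succ s ih =>
    obtain ⟨a, ha, b, hb, e, ia, ib⟩ := hδ x hx hi
    have ht : y⁻¹ ∈ K := K.algebraMap_mem ⟨y⁻¹, mem_adjoin_simple_self F y⁻¹⟩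
    have ibt : IsIntegral (AA y) (b * y⁻¹ * δ ^ 2) := by
      have := ib.mul (core2b_t y 1)
      rwa [pow_one, mul_right_comm] at this
    have h1 := core2b_mono (core2b_sq (ih ha ia)) (core2b_t y (4 ^ (s + 3) * 2))
    have h2 := core2b_sq (ih (mul_mem hb ht) ibt)
    rw [← pow_succ'] at h1 h2
    have h3 := core2b_mono (Wc.mul h2 (h.y_mem (s + 1))) (core2b_t y (4 ^ (s + 3)))
    have e1 : x = a ^ 2 + (b * y⁻¹) ^ 2 * y := by linear_combination e - b ^ 2 * y⁻¹ * hy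
    have e2 : y⁻¹ ^ 4 ^ (s + 1 + 3) = (y⁻¹ ^ 4 ^ (s + 3)) ^ 4 := by rw [← pow_mul, ← pow_succ]
    have e3 : δ ^ 2 ^ (s + 1 + 1) = (δ ^ 2 ^ (s + 1)) ^ 2 := by rw [← pow_mul, ← pow_succ]
    rw [pow_mul] at h1
    rw [show s + 1 + 2 = s + 3 from rfl] at h3
    rw [e1, e2, e3]
    refine add_mem ?_ ?_
    · convert h1 using 2
      ring
    · convert h3 using 2
      ring

theorem core2b_int (h : Tower N y ϑ) (e : ℕ) {a : ℤ} (ha : Odd a) :
    IsIntegral (kk y) (ϑ (e + 2) a) := by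
  open scoped IntermediateField.algebraAdjoinAdjoin in
  have h1 : IsIntegral (kk y) (ϑ (e + 2) a * y⁻¹ ^ 4 ^ (e + 2)) := (h.int e ha).tower_top
  have h2 := h1.mul ((isIntegral_algebraMap (R := kk y) (A := LaurentSeries F)
    (x := ⟨y, core2b_y y⟩)).pow (4 ^ (e + 2)))
  have h3 : algebraMap (kk y) (LaurentSeries F) ⟨y, core2b_y y⟩ = y := rfl
  rwa [h3, mul_assoc, ← mul_pow, inv_mul_cancel₀ h.ne, one_pow, mul_one] at h2

/-- The conjugates of a theta series, for any compatible algebra structure. -/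
theorem core2b_roots (h : Tower N y ϑ) (e : ℕ) {Ω : Type} [Field Ω] [IsAlgClosed Ω]
    [Algebra (kk y) Ω] [Algebra (LaurentSeries F) Ω]
    (hΩ : ∀ x : kk y, algebraMap (kk y) Ω x = algebraMap (LaurentSeries F) Ω x)
    {ρ : Ω} (hρ : aeval ρ (minpoly (kk y) (ϑ (e + 2) 1)) = 0) :
    ∃ b, Odd b ∧ ρ = algebraMap (LaurentSeries F) Ω (ϑ (e + 2) b) := by
  let S : Set (LaurentSeries F) := {z | IsIntegral (kk y) z}
  have hm : ∀ (j : ℕ) {a : ℤ}, Odd a → ϑ (j + 2) a ∈ adjoin (kk y) S :=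
    fun j a ha => subset_adjoin _ _ (core2b_int h j ha)
  obtain ⟨φ, hφ⟩ := exists_algHom_adjoin_of_splits_of_aeval (S := S) (K := Ω)
    (fun s hs => ⟨hs, IsAlgClosed.splits _⟩) (hm e odd_one) hρ
  have hym : y ∈ adjoin (kk y) S := (adjoin (kk y) S).algebraMap_mem ⟨y, core2b_y y⟩
  have hy : φ ⟨y, hym⟩ = algebraMap (LaurentSeries F) Ω y :=
    (φ.commutes ⟨y, core2b_y y⟩).trans (hΩ _)
  have key : ∀ j : ℕ, ∃ b, Odd b ∧
      φ ⟨_, hm j odd_one⟩ = algebraMap (LaurentSeries F) Ω (ϑ (j + 2) b) ∧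
      φ ⟨_, hm j (core2b_odd odd_one j)⟩ =
        algebraMap (LaurentSeries F) Ω (ϑ (j + 2) (b + 2 ^ (j + 1))) := by
    intro j
    induction j with
    | zero =>
      refine ⟨1, odd_one, ?_, ?_⟩
      · exact ((congrArg φ (Subtype.ext (h.base 1 odd_one))).trans hy).trans
          (congrArg _ (h.base 1 odd_one).symm)
      · exact ((congrArg φ (Subtype.ext (h.base _ (core2b_odd odd_one 0)))).trans hy).trans
          (congrArg _ (h.base _ (core2b_odd odd_one 0)).symm)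
    | succ j ih =>
      obtain ⟨b, hb, h1, h2⟩ := ih
      have a1 : φ ⟨_, hm (j + 1) odd_one⟩ + φ ⟨_, hm (j + 1) (core2b_odd odd_one (j + 1))⟩ =
          φ ⟨_, hm j odd_one⟩ := by
        rw [← map_add]
        exact congrArg φ (Subtype.ext (h.add (j + 2) 1).symm)
      have m1 : φ ⟨_, hm (j + 1) odd_one⟩ * φ ⟨_, hm (j + 1) (core2b_odd odd_one (j + 1))⟩ =
          φ ⟨y, hym⟩ ^ 2 ^ (2 * (j + 1) + 1) * φ ⟨_, hm j (core2b_odd odd_one j)⟩ ^ 2 := by
        rw [← map_mul, ← map_pow, ← map_pow, ← map_mul]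
        exact congrArg φ (Subtype.ext (h.mul (j + 1) 1))
      rw [h1, h.add (j + 2) b, map_add] at a1
      have m2 := congrArg (algebraMap (LaurentSeries F) Ω) (h.mul (j + 1) b)
      rw [map_mul, map_mul, map_pow, map_pow, ← hy, ← h2, ← m1] at m2
      rcases core2b_pair a1 m2.symm with h3 | h3
      · exact ⟨b, hb, h3⟩
      · refine ⟨_, core2b_odd hb (j + 1), h3.1, h3.2.trans (congrArg _ (h.congr _ _ _ ?_))⟩
        exact (Int.modEq_iff_dvd.mpr ⟨1, by ring⟩)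
  obtain ⟨b, hb, h1, -⟩ := key e
  exact ⟨b, hb, hφ.symm.trans h1⟩

/-- The conjugates of a theta series. -/
theorem Tower.roots (h : Tower N y ϑ) (e : ℕ) {Ω : Type} [Field Ω] [IsAlgClosed Ω]
    [Algebra (LaurentSeries F) Ω]
    {ρ : Ω} (hρ : aeval ρ (minpoly (kk y) (ϑ (e + 2) 1)) = 0) :
    ∃ b, Odd b ∧ ρ = algebraMap (LaurentSeries F) Ω (ϑ (e + 2) b) :=
  core2b_roots h e (fun _ => rfl) hρ

theorem Tower.not_mem (h : Tower N y ϑ) (ht : Transcendental F y⁻¹) : ϑ 3 1 ∉ kk y := by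
  intro hu
  have hle : kk y ≤ F⟮y⟯ := adjoin_simple_le_iff.mpr (inv_mem (mem_adjoin_simple_self F y))
  have hy := mem_adjoin_simple_self F y
  have hi : y * y⁻¹ = 1 := mul_inv_cancel₀ h.ne
  have h1 := h.add 2 1
  have h2 := h.mul 1 1
  rw [h.base 1 odd_one] at h1
  rw [show ϑ (1 + 1) (1 + 2 ^ 1) = y from h.base _ (core2b_odd odd_one 0)] at h2
  have h3 : ϑ 3 1 * (y - ϑ 3 1) = y ^ 10 := by
    have e : y - ϑ 3 1 = ϑ (1 + 2) (1 + 2 ^ (1 + 1)) := by
      rw [sub_eq_iff_eq_add']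
      exact h1
    rw [e]
    exact h2.trans (by norm_num; ring)
  have hw : ϑ 3 1 * y⁻¹ + y ^ 4 + y ^ 2 + y ∈ F⟮y⟯ :=
    add_mem (add_mem (add_mem (mul_mem (hle hu) (inv_mem hy)) (pow_mem hy 4)) (pow_mem hy 2)) hy
  have h4 : ϑ 3 1 * y⁻¹ * (1 - ϑ 3 1 * y⁻¹) = y ^ 8 := by
    linear_combination y⁻¹ ^ 2 * h3 - ϑ 3 1 * y⁻¹ * hi + y ^ 8 * (y * y⁻¹ + 1) * hi
  generalize ϑ 3 1 * y⁻¹ = v at hw h4
  have h5 : (v + y ^ 4 + y ^ 2 + y) * (v + y ^ 4 + y ^ 2 + y + 1) = y := by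
    linear_combination h4 + (v ^ 2 + v * (y ^ 4 + y ^ 2 + y) + y ^ 8 + y ^ 6 + y ^ 5 + y ^ 4 +
      y ^ 3 + y ^ 2) * core2b_two (F := F)
  generalize v + y ^ 4 + y ^ 2 + y = w at hw h5
  obtain ⟨p, q, e⟩ := (mem_adjoin_simple_iff F w).mp hw
  have hq : aeval y q ≠ 0 := fun h0 => by
    rw [e, h0, div_zero, zero_mul] at h5
    exact h.ne h5.symm
  have hT : Transcendental F y := fun ha => ht ha.inv
  refine notrt_deg_h (A := p) (B := q) (fun h0 => hq (by rw [h0, map_zero]))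
    (transcendental_iff_injective.mp hT ?_)
  rw [eq_div_iff hq] at e
  rw [map_mul, map_add, map_mul, map_pow, aeval_X, ← e]
  linear_combination aeval y q ^ 2 * h5

end Subb.Q

end

section

/-!
The tower of theta series.
-/

namespace Subb.Q

open PowerSeries Pool.Agent.Lib.QSeries

theorem th_adm {M : ℤ} (hM : M ≠ 0) (a : ℤ) : Adm fun i : ℤ => (a + M * i) ^ 2 where
  nonneg i := sq_nonneg _
  fin n := by
    refine (Set.finite_Icc (-(n + |a|)) (n + |a|)).subset fun i hi => ?_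
    have h0 : (a + M * i) ^ 2 ≤ n := hi
    have h1 : |i| ≤ |M * i| := by
      rw [abs_mul]
      exact le_mul_of_one_le_left (abs_nonneg i) (Int.one_le_abs hM)
    have h2 : |a + M * i| ≤ (a + M * i) ^ 2 := by
      rw [← sq_abs]
      exact Int.le_self_sq _
    have h3 : |M * i| ≤ |a + M * i| + |a| := by
      have := abs_sub (a + M * i) a
      rwa [add_sub_cancel_left] at this
    exact Set.mem_Icc.2 (abs_le.1 (by linarith))

section Any

variable (R : Type*) [CommRing R]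

theorem th_surj {ι κ : Type*} (e : ι → ℤ) (j : κ → ι) (hj : Function.Bijective j) :
    gen e (fun _ => (1 : R)) = gen (fun k => e (j k)) fun _ => (1 : R) :=
  gen_inj e (fun _ => (1 : R)) j hj.1 fun i hi => absurd (hj.2 i) hi

theorem th_add {M : ℤ} (hM : M ≠ 0) (a : ℤ) :
    tht R M a = tht R (2 * M) a + tht R (2 * M) (a + M) := by
  have h1 : gen (fun i : ℤ => (a + M * i) ^ 2) (fun i => if i % 2 = 0 then (1 : R) else 0) =
      tht R (2 * M) a := by
    rw [gen_inj _ _ (fun k : ℤ => 2 * k) (fun x y h => by simp only at h; omega)]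
    · exact gen_congr (fun i => by ring) fun i => if_pos (by omega)
    · exact fun i hi => if_neg fun h => hi ⟨i / 2, by simp only; omega⟩
  have h2 : gen (fun i : ℤ => (a + M * i) ^ 2) (fun i => if i % 2 = 1 then (1 : R) else 0) =
      tht R (2 * M) (a + M) := by
    rw [gen_inj _ _ (fun k : ℤ => 2 * k + 1) (fun x y h => by simp only at h; omega)]
    · exact gen_congr (fun i => by ring) fun i => if_pos (by omega)
    · exact fun i hi => if_neg fun h => hi ⟨i / 2, by simp only; omega⟩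
  rw [← h1, ← h2, gen_add (th_adm hM a)]
  refine gen_congr (fun _ => rfl) fun i => ?_
  rcases Int.emod_two_eq_zero_or_one i with h | h <;> simp [h]

theorem th_congr {M a b : ℤ} (h : a ≡ b [ZMOD M]) : tht R M a = tht R M b := by
  obtain ⟨k, hk⟩ := h.dvd
  rw [tht, th_surj R _ (fun i : ℤ => i + k) (Equiv.addRight k).bijective]
  refine gen_congr (fun i => ?_) fun _ => rfl
  rw [show b = a + M * k by linarith]
  ring

theorem th_neg (M a : ℤ) : tht R M a = tht R M (-a) := by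
  rw [tht, th_surj R _ (fun i : ℤ => -i) (Equiv.neg ℤ).bijective]
  exact gen_congr (fun i => by ring) fun _ => rfl

variable {R}

theorem th_ex {ι : Type*} {t : ℕ} (ht : t ≠ 0) (e : ι → ℤ) (c : ι → R) :
    ex t (gen e c) = gen (fun i => t * e i) c := by
  ext n
  rw [coeff_ex ht, gen, gen, coeff_mk, coeff_mk]
  have ht' : (t : ℤ) ≠ 0 := Nat.cast_ne_zero.2 ht
  split_ifs with h
  · obtain ⟨m, rfl⟩ := h
    rw [Nat.mul_div_cancel_left _ (Nat.pos_of_ne_zero ht)]
    refine finsum_congr fun i => if_congr ?_ rfl rfl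
    rw [Nat.cast_mul, mul_right_inj' ht']
  · symm
    refine finsum_eq_zero_of_forall_eq_zero fun i => if_neg fun h' => h ?_
    exact Int.natCast_dvd_natCast.1 ⟨_, h'.symm⟩

theorem th_coeff {ι : Type*} {e : ι → ℤ} {c : ι → R} {n : ℕ} (h : coeff n (gen e c) ≠ 0) :
    ∃ i, e i = n := by
  by_contra hn
  apply h
  rw [gen, coeff_mk]
  exact finsum_eq_zero_of_forall_eq_zero fun i => if_neg fun h' => hn ⟨i, h'⟩

theorem th_map {S : Type*} [CommRing S] (p : R →+* S) {M : ℤ} (hM : M ≠ 0) (a : ℤ) :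
    PowerSeries.map p (tht R M a) = tht S M a := by
  ext n
  have hs : ∀ i : ℤ, (a + M * i) ^ 2 = n → i ∈ ((th_adm hM a).fin n).toFinset :=
    fun i hi => by simp [hi]
  rw [coeff_map, tht, tht, coeff_gen _ _ n _ hs, coeff_gen _ _ n _ hs, map_sum]
  refine Finset.sum_congr rfl fun i _ => ?_
  split_ifs <;> simp

/-- The change of variables in the product of two theta series. -/
def th_J (p : ℤ × ℤ) : ℤ × ℤ :=
  if p.2 % 2 = 0 then (p.2 / 2 - p.1, p.2 / 2 + p.1) else ((p.2 + 1) / 2 + p.1, (p.2 - 1) / 2 - p.1)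

theorem th_J_bij : Function.Bijective th_J := by
  constructor
  · rintro ⟨z, v⟩ ⟨z', v'⟩ h
    simp only [th_J] at h
    split_ifs at h <;> simp only [Prod.mk.injEq] at h ⊢ <;> omega
  · rintro ⟨i, j⟩
    by_cases h : (i + j) % 2 = 0
    · refine ⟨((j - i) / 2, i + j), ?_⟩
      simp only [th_J, if_pos h, Prod.mk.injEq]
      omega
    · refine ⟨((i - j - 1) / 2, i + j), ?_⟩
      simp only [th_J, if_neg h, Prod.mk.injEq]
      omega

variable (R)

theorem th_mul {M : ℤ} (hM : M ≠ 0) (a : ℤ) :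
    tht R (4 * M) a * tht R (4 * M) (a + 2 * M) =
      ex 2 (tht R (4 * M) M * tht R (2 * M) (a + M)) := by
  have h4 : 4 * M ≠ 0 := mul_ne_zero (by norm_num) hM
  have h2 : 2 * M ≠ 0 := mul_ne_zero (by norm_num) hM
  rw [tht, tht, tht, tht, gen_mul (th_adm h4 _) (th_adm h4 _), gen_mul (th_adm h4 _) (th_adm h2 _),
    th_ex two_ne_zero]
  simp only [mul_one]
  rw [th_surj R _ th_J th_J_bij]
  refine gen_congr (fun p => ?_) fun _ => rfl
  obtain ⟨z, v⟩ := p
  rcases Int.emod_two_eq_zero_or_one v with h | h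
  · obtain ⟨w, rfl⟩ : ∃ w, v = 2 * w := ⟨v / 2, by omega⟩
    simp only [th_J, if_pos h, show 2 * w / 2 = w by omega]
    push_cast
    ring
  · obtain ⟨w, rfl⟩ : ∃ w, v = 2 * w + 1 := ⟨v / 2, by omega⟩
    simp only [th_J, if_neg (show ¬(2 * w + 1) % 2 = 0 by omega),
      show (2 * w + 1 + 1) / 2 = w + 1 by omega, show (2 * w + 1 - 1) / 2 = w by omega]
    push_cast
    ring

theorem th_scale {m : ℕ} (hm : m ≠ 0) : tht R (4 * m) m = ex (m ^ 2) (tht R 4 1) := by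
  rw [tht, tht, th_ex (pow_ne_zero 2 hm)]
  refine gen_congr (fun i => ?_) fun _ => rfl
  push_cast
  ring

end Any

theorem th_sigma (n : ℕ) : ((ArithmeticFunction.sigma 1 n : ℕ) : ZMod 2) =
    ∑ d ∈ n.divisors with d % 2 = 1, (1 : ZMod 2) := by
  rw [ArithmeticFunction.sigma_one_apply, Nat.cast_sum, Finset.sum_filter]
  refine Finset.sum_congr rfl fun d _ => ?_
  split_ifs with h
  · exact ZMod.natCast_eq_one_iff_odd.2 (Nat.odd_iff.2 h)
  · exact ZMod.natCast_eq_zero_iff_even.2 (Nat.even_iff.2 (by omega))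

theorem th_sigma_two (k : ℕ) : ((ArithmeticFunction.sigma 1 (2 * k) : ℕ) : ZMod 2) =
    ((ArithmeticFunction.sigma 1 k : ℕ) : ZMod 2) := by
  rw [th_sigma, th_sigma]
  refine Finset.sum_congr ?_ fun _ _ => rfl
  ext d
  simp only [Finset.mem_filter, Nat.mem_divisors]
  constructor
  · rintro ⟨⟨h1, h2⟩, h3⟩
    refine ⟨⟨?_, by omega⟩, h3⟩
    exact (Nat.Coprime.symm (Nat.coprime_two_left.2 (Nat.odd_iff.2 h3))).dvd_of_dvd_mul_left h1
  · rintro ⟨⟨h1, h2⟩, h3⟩
    exact ⟨⟨h1.mul_left 2, by omega⟩, h3⟩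

theorem th_sigma_odd {n : ℕ} (hn : n % 2 = 1) :
    ((ArithmeticFunction.sigma 1 n : ℕ) : ZMod 2) =
      ∑ p ∈ n.divisorsAntidiagonal with p.1 = p.2, (1 : ZMod 2) := by
  have h1 : ∑ d ∈ n.divisors with d % 2 = 1, (1 : ZMod 2) =
      ∑ p ∈ n.divisorsAntidiagonal, (1 : ZMod 2) := by
    rw [Nat.sum_divisorsAntidiagonal (fun _ _ => (1 : ZMod 2))]
    refine Finset.sum_congr (Finset.filter_true_of_mem fun d hd => ?_) fun _ _ => rfl
    exact Nat.odd_iff.1 (Odd.of_dvd_nat (Nat.odd_iff.2 hn) (Nat.dvd_of_mem_divisors hd))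
  have h2 : ∑ p ∈ n.divisorsAntidiagonal with ¬p.1 = p.2, (1 : ZMod 2) = 0 := by
    refine Finset.sum_involution (fun p _ => p.swap) (fun _ _ => rfl) ?_ ?_ (fun _ _ => rfl)
    · intro p hp _ h
      exact (Finset.mem_filter.1 hp).2 (congrArg Prod.fst h).symm
    · intro p hp
      rw [Finset.mem_filter] at hp ⊢
      exact ⟨Nat.swap_mem_divisorsAntidiagonal.2 hp.1, fun h => hp.2 h.symm⟩
  rw [th_sigma, h1, ← Finset.sum_filter_add_sum_filter_not _ (fun p : ℕ × ℕ => p.1 = p.2), h2,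
    add_zero]

theorem th_base : tht (ZMod 2) 4 1 = yS (ZMod 2) := by
  rw [← sq_hS, ← ex_two_zmod]
  ext n
  rw [map_add, coeff_ex two_ne_zero]
  simp only [hS, coeff_mk]
  split_ifs with h
  · obtain ⟨k, rfl⟩ := h
    rw [Nat.mul_div_cancel_left _ two_pos, th_sigma_two, CharTwo.add_self_eq_zero]
    by_contra hc
    obtain ⟨i, hi⟩ := th_coeff hc
    have : (1 + 4 * i) ^ 2 = 1 + 2 * (4 * i + 8 * i ^ 2) := by ring
    push_cast at hi
    omega
  · have hn : n % 2 = 1 := by omega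
    have hs : ∀ i : ℤ, (1 + 4 * i) ^ 2 = n →
        i ∈ ((th_adm (M := 4) (by norm_num) 1).fin n).toFinset := fun i hi => by simp [hi]
    rw [zero_add, th_sigma_odd hn, tht, coeff_gen _ _ n _ hs, ← Finset.sum_filter]
    refine Finset.sum_bij (fun i _ => ((1 + 4 * i).natAbs, (1 + 4 * i).natAbs)) ?_ ?_ ?_
      fun _ _ => rfl
    · intro i hi
      have h1 := (Finset.mem_filter.1 hi).2
      refine Finset.mem_filter.2 ⟨Nat.mem_divisorsAntidiagonal.2 ⟨?_, by omega⟩, rfl⟩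
      have h2 := Int.natAbs_mul_self' (1 + 4 * i)
      have h3 : (((1 + 4 * i).natAbs * (1 + 4 * i).natAbs : ℕ) : ℤ) = n := by
        rw [Nat.cast_mul, h2, ← h1, sq]
      exact_mod_cast h3
    · intro i _ j _ hij
      have := congrArg Prod.fst hij
      simp only at this
      omega
    · rintro ⟨d, d'⟩ hp
      obtain ⟨h1, h2⟩ := Finset.mem_filter.1 hp
      simp only at h2
      subst h2
      have h3 : d * d = n := (Nat.mem_divisorsAntidiagonal.1 h1).1
      have h4 : d % 2 = 1 := Nat.odd_iff.1 (Odd.of_dvd_nat (Nat.odd_iff.2 hn) ⟨d, h3.symm⟩)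
      obtain ⟨i, hi⟩ : ∃ i : ℤ, (1 + 4 * i).natAbs = d := by
        by_cases h5 : d % 4 = 1
        · exact ⟨((d : ℤ) - 1) / 4, by omega⟩
        · exact ⟨(-(d : ℤ) - 1) / 4, by omega⟩
      have h6 : (1 + 4 * i) ^ 2 = n := by
        rw [sq, ← Int.natAbs_mul_self', hi, ← h3, Nat.cast_mul]
      exact ⟨i, Finset.mem_filter.2 ⟨hs i h6, h6⟩, by rw [hi]⟩

theorem th_baseF (F : Type) [Field F] [CharP F 2] : tht F 4 1 = yS F := by
  rw [← th_map (ZMod.castHom (dvd_refl 2) F) (by norm_num), th_base, map_yS]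

theorem th_mulF (F : Type) [Field F] [CharP F 2] (e : ℕ) (a : ℤ) :
    tht F (2 ^ (e + 2)) a * tht F (2 ^ (e + 2)) (a + 2 ^ (e + 1)) =
      yS F ^ 2 ^ (2 * e + 1) * tht F (2 ^ (e + 1)) (a + 2 ^ e) ^ 2 := by
  have hM : (2 : ℤ) ^ e ≠ 0 := by positivity
  have h := th_mul (ZMod 2) hM a
  have hs := th_scale (ZMod 2) (m := 2 ^ e) (by positivity)
  push_cast at hs
  rw [hs, th_base, ← pow_mul, ex_two_pow_zmod, ex_two_zmod, mul_pow, ← pow_mul, ← pow_succ,
    show (4 : ℤ) * 2 ^ e = 2 ^ (e + 2) by ring, show (2 : ℤ) * 2 ^ e = 2 ^ (e + 1) by ring,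
    mul_comm e 2] at h
  have h' := congrArg (PowerSeries.map (ZMod.castHom (dvd_refl 2) F)) h
  rwa [map_mul, map_mul, map_pow, map_pow, map_yS, th_map _ (by positivity),
    th_map _ (by positivity), th_map _ (by positivity)] at h'

theorem th_lau {F : Type} [Field F] {N : ℕ} (hN : N ≠ 0) {M a n : ℤ}
    (h : (HahnSeries.ofPowerSeries ℤ F (ex N (tht F M a))).coeff n ≠ 0) :
    ∃ i : ℤ, n = N * (a + M * i) ^ 2 := by
  rw [PowerSeries.coeff_coe] at h
  split_ifs at h with hn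
  · exact absurd rfl h
  · rw [tht, th_ex hN] at h
    obtain ⟨i, hi⟩ := th_coeff h
    exact ⟨i, by rw [hi]; omega⟩

theorem tower (F : Type) [Field F] [CharP F 2] {N : ℕ} (hN : Odd N) :
    Tower (N : ℤ) (yL F N) fun e a => HahnSeries.ofPowerSeries ℤ F (ex N (tht F (2 ^ e) a)) := by
  have h0 : N ≠ 0 := hN.pos.ne'
  have hc : (yL F N).coeff (N : ℤ) ≠ 0 := by
    have h1 := coeff_ex_mul h0 (yS F) 1
    rw [mul_one] at h1
    rw [yL, HahnSeries.ofPowerSeries_apply_coeff, h1, yS, coeff_succ_X_mul,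
      coeff_zero_eq_constantCoeff_apply, map_pow, (isEx_fS F).1, one_pow]
    exact one_ne_zero
  have hy : yL F N ≠ 0 := HahnSeries.ne_zero_of_coeff_ne_zero hc
  refine ⟨hN.natCast, Nat.cast_pos.2 hN.pos, hy, ?_, ?_, ?_, ?_, ?_, ?_⟩
  · refine le_antisymm (HahnSeries.order_le_of_coeff_ne_zero hc) ?_
    have h1 := HahnSeries.coeff_order_eq_zero.not.2 hy
    generalize (yL F N).order = n at h1
    rw [yL, ← th_baseF] at h1
    obtain ⟨i, rfl⟩ := th_lau h0 h1
    refine le_mul_of_one_le_right (Nat.cast_nonneg N) ?_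
    have : (1 + 4 * i) ≠ 0 := by omega
    exact (one_le_sq_iff_one_le_abs _).2 (Int.one_le_abs this)
  · intro e a
    rw [th_add F (M := 2 ^ e) (by positivity) a, map_add, map_add, pow_succ']
  · intro e a
    rw [← map_mul, ← map_mul, th_mulF, map_mul, map_mul, map_pow, map_pow, map_pow, map_pow, yL]
  · intro a ha
    rw [yL, ← th_baseF, show (2 : ℤ) ^ 2 = 4 by norm_num]
    have := Int.odd_iff.1 ha
    by_cases h : a % 4 = 1
    · rw [th_congr F (show a ≡ 1 [ZMOD 4] from h)]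
    · rw [th_neg, th_congr F (show -a ≡ 1 [ZMOD 4] by unfold Int.ModEq; omega)]
  · intro e a b h
    rw [th_congr F h]
  · intro e a n hn
    obtain ⟨i, rfl⟩ := th_lau h0 hn
    exact (Int.modEq_iff_dvd.2 ⟨-(N * (a * i + 2 ^ e * i ^ 2)), by ring⟩)

end Subb.Q

end
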