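import Pool.Agent.MP_a23355_nt.H13.Fld
import Pool.Agent.MP_a23355_nt.H13.Tow
import Pool.Agent.MP_a23355_nt.H13.ModA
import Pool.Agent.MP_a23355_nt.H13.ModB

section

/-!
Many nonzero coefficients.
-/

namespace Subb.Q

open Polynomial IntermediateField

theorem c3_normal {k E : Type} [Field k] [Field E] [Algebra k E] {S : Set E}
    (hS : ∀ x ∈ S, IsIntegral k x ∧ ∀ ρ : AlgebraicClosure E, aeval ρ (minpoly k x) = 0 →
      ∃ z ∈ adjoin k S, ρ = algebraMap E _ z) : Normal k (adjoin k S) := by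
  refine normal_iff.2 fun x => ?_
  have hx : IsIntegral k x := by
    have : Algebra.IsAlgebraic k (adjoin k S) := isAlgebraic_adjoin fun x hx => (hS x hx).1
    exact Algebra.IsIntegral.isIntegral x
  refine ⟨hx, ?_⟩
  rw [minpoly_eq]
  refine splits_of_mem_adjoin k E (S := S) (fun y hy => ⟨(hS y hy).1, ?_⟩) x.2
  refine Splits.of_splits_map (algebraMap (adjoin k S) (AlgebraicClosure E))
    (IsAlgClosed.splits _) fun ρ hρ => ?_
  rw [Polynomial.map_map, ← IsScalarTower.algebraMap_eq] at hρ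
  obtain ⟨z, hz, e⟩ := (hS y hy).2 ρ (by
    rw [aeval_def, ← eval_map]
    exact (mem_roots'.1 hρ).2)
  exact ⟨⟨z, hz⟩, e.symm⟩

theorem c3_root {k E : Type} [Field k] [Field E] [Algebra k E] {L : IntermediateField k E}
    (σ : L ≃ₐ[k] L) (x : L) :
    aeval (algebraMap E (AlgebraicClosure E) (σ x : E)) (minpoly k (x : E)) = 0 := by
  have h1 : aeval (σ x) (minpoly k (x : E)) = 0 := by
    rw [aeval_algHom_apply, ← minpoly_eq, minpoly.aeval, map_zero]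
  rw [aeval_algebraMap_apply, show ((σ x : L) : E) = L.val (σ x) from rfl, aeval_algHom_apply, h1,
    map_zero, map_zero]

theorem c3_markov {G : Type} [Fintype G] (n : G → ℤ) (G₁ : Finset G) {k C₁ C₂ s : ℕ}
    (h1 : ∑ σ, n σ ≤ Fintype.card G * (C₁ * 4 ^ s))
    (h2 : -(C₂ * 8 ^ s : ℤ) ≤ ∑ σ ∈ Finset.univ.filter (fun σ => n σ < 0), n σ)
    (h3 : Fintype.card G ≤ k * G₁.card) (h4 : 2 ^ s ≤ 8 * Fintype.card G) :
    ∃ S ⊆ G₁, G₁.card ≤ 2 * S.card ∧ ∀ σ ∈ S, n σ ≤ (2 * k * C₁ + 16 * k * C₂ : ℕ) * 4 ^ s := by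
  classical
  set T : ℤ := (2 * k * C₁ + 16 * k * C₂ : ℕ) * 4 ^ s with hT
  have hT0 : 0 ≤ T := by positivity
  refine ⟨G₁.filter fun σ => n σ ≤ T, Finset.filter_subset _ _, ?_,
    fun σ hσ => (Finset.mem_filter.1 hσ).2⟩
  set S' := G₁.filter fun σ => ¬n σ ≤ T with hS'
  have e1 : _ + S'.card = _ :=
    Finset.card_filter_add_card_filter_not (s := G₁) fun σ => n σ ≤ T
  have e2 := Finset.sum_filter_add_sum_filter_not Finset.univ (fun σ => n σ < 0) n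
  have e3 : ∑ σ ∈ S', n σ ≤ ∑ σ ∈ Finset.univ.filter (fun σ => ¬n σ < 0), n σ :=
    Finset.sum_le_sum_of_subset_of_nonneg (fun σ hσ => Finset.mem_filter.2
      ⟨Finset.mem_univ _, by have := (Finset.mem_filter.1 hσ).2; omega⟩)
      fun σ hσ _ => not_lt.1 (Finset.mem_filter.1 hσ).2
  have e4 := Finset.card_nsmul_le_sum S' n (T + 1) fun σ hσ => by
    have := (Finset.mem_filter.1 hσ).2
    omega
  rw [nsmul_eq_mul] at e4
  have h3' : (Fintype.card G : ℤ) ≤ k * G₁.card := by exact_mod_cast h3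
  have h4' : (2 : ℤ) ^ s ≤ 8 * Fintype.card G := by exact_mod_cast h4
  have e5 : (8 : ℤ) ^ s = 4 ^ s * 2 ^ s := by rw [← mul_pow]; norm_num
  have e6 : (Fintype.card G : ℤ) * (C₁ * 4 ^ s) ≤ k * G₁.card * (C₁ * 4 ^ s) := by gcongr
  have e7 : (C₂ * 8 ^ s : ℤ) ≤ C₂ * (4 ^ s * (8 * (k * G₁.card))) := by
    rw [e5]
    gcongr
    omega
  have e8 : 2 * ((S'.card : ℤ) * (T + 1)) ≤ G₁.card * T := by
    have : (G₁.card : ℤ) * T = 2 * (k * G₁.card * (C₁ * 4 ^ s) +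
        C₂ * (4 ^ s * (8 * (k * G₁.card)))) := by rw [hT]; push_cast; ring
    linarith
  by_contra hc
  have e9 : (G₁.card : ℤ) + 1 ≤ 2 * S'.card := by omega
  nlinarith [Int.natCast_nonneg G₁.card]

variable {F : Type} [Field F] [CharP F 2] [PerfectField F] {y : LaurentSeries F} {N : ℤ}
  {ϑ : ℕ → ℤ → LaurentSeries F}

omit [CharP F 2] [PerfectField F] in
theorem c3_Er_congr {M r r' : ℤ} (h : r ≡ r' [ZMOD M]) (f : LaurentSeries F) :
    Er M r f = Er M r' f := by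
  ext n
  rw [coeff_Er, coeff_Er]
  exact if_congr ⟨fun e => e.trans h, fun e => e.trans h.symm⟩ rfl rfl

omit [CharP F 2] [PerfectField F] in
theorem c3_hom_Er (M r : ℤ) (f : LaurentSeries F) : Hom M r (Er M r f) := fun n hn => by
  by_contra h
  exact hn (by rw [coeff_Er, if_neg h])

theorem c3_cancel {a b c : ℤ} (hc : Odd c) {s : ℕ} (h : c * a ≡ c * b [ZMOD 2 ^ s]) :
    a ≡ b [ZMOD 2 ^ s] := by
  have h1 := h.dvd
  rw [← mul_sub] at h1
  exact Int.modEq_iff_dvd.2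
    ((Int.isCoprime_two_left.mpr hc).pow_left.dvd_of_dvd_mul_left h1)

theorem c3_gal (hT : Tower N y ϑ) {s₀ : LaurentSeries F} (hs₀ : IsIntegral (kk y) s₀)
    (hroot : ∀ ρ : AlgebraicClosure (LaurentSeries F), aeval ρ (minpoly (kk y) s₀) = 0 →
      ∃ z ∈ (kk y)⟮s₀⟯, ρ = algebraMap (LaurentSeries F) _ z) (e : ℕ) :
    ∃ (L : IntermediateField (kk y) (LaurentSeries F)) (_ : FiniteDimensional (kk y) L)
      (_ : IsGalois (kk y) L) (hs : s₀ ∈ L) (c : (L ≃ₐ[kk y] L) → ℤ),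
      (∀ σ, c σ ≡ 1 [ZMOD 8]) ∧ (∀ σ τ, c (σ * τ) ≡ c σ * c τ [ZMOD 2 ^ (e + 4)]) ∧
      (∀ σ τ, σ ⟨s₀, hs⟩ = τ ⟨s₀, hs⟩ → c σ ≡ c τ [ZMOD 2 ^ (e + 4)] → σ = τ) ∧
      (∃ σ, c σ ≡ 9 [ZMOD 16]) ∧
      ∀ (f : L) (r : ℤ), ∃ f' : L, (f' : LaurentSeries F) = Er (2 ^ (e + 4)) r f ∧
        ∀ σ, (σ f' : LaurentSeries F) = Er (2 ^ (e + 4)) (r * c σ) (σ f) := by
  have htk : y⁻¹ ∈ kk y := mem_adjoin_simple_self F _
  have hyk : y ∈ kk y := by simpa using inv_mem htk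
  have hgi : IsIntegral (kk y) (ϑ (e + 3) 1) := by
    have h1 : IsIntegral (kk y) (ϑ (e + 3) 1 * y⁻¹ ^ 4 ^ (e + 3)) := by
      obtain ⟨p, hp, h⟩ := hT.int (e + 1) odd_one
      refine ⟨p.map (Subalgebra.inclusion (algebra_adjoin_le_adjoin F _)).toRingHom,
        hp.map _, ?_⟩
      rw [eval₂_map]
      exact h
    have h2 := h1.mul (isIntegral_algebraMap (x := (⟨y, hyk⟩ : kk y) ^ 4 ^ (e + 3)))
    have e1 : algebraMap (kk y) (LaurentSeries F) ((⟨y, hyk⟩ : kk y) ^ 4 ^ (e + 3)) =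
      y ^ 4 ^ (e + 3) := by rw [map_pow]; rfl
    rwa [e1, mul_assoc, ← mul_pow, inv_mul_cancel₀ hT.ne, one_pow, mul_one] at h2
  set L := adjoin (kk y) {s₀, ϑ (e + 3) 1} with hL
  have hint : ∀ x ∈ ({s₀, ϑ (e + 3) 1} : Set (LaurentSeries F)), IsIntegral (kk y) x := by
    rintro x (rfl | rfl)
    exacts [hs₀, hgi]
  have hfin : FiniteDimensional (kk y) L := finiteDimensional_adjoin hint
  have halg : Algebra.IsAlgebraic (kk y) L := Algebra.IsAlgebraic.of_finite _ _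
  have hitg : Algebra.IsIntegral (kk y) L := Algebra.IsIntegral.of_finite _ _
  have hs : s₀ ∈ L := subset_adjoin _ _ (Or.inl rfl)
  have hg : ϑ (e + 3) 1 ∈ L := subset_adjoin _ _ (Or.inr rfl)
  have hyL : y ∈ L := L.algebraMap_mem ⟨y, hyk⟩
  have hy8 : Hom 8 N y := by
    have h := hT.hom 1 1
    rwa [hT.base 1 odd_one, one_pow, mul_one] at h
  have hg0 : (⟨_, hg⟩ : L) ≠ 0 := fun h => hT.ne_zero (e + 1) odd_one (congrArg Subtype.val h)
  have hgH : Hom (2 ^ (e + 4)) N (ϑ (e + 3) 1) := by simpa using hT.hom (e + 2) 1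
  have hE := fun {s : ℕ} (h : Hom (2 ^ (s + 1)) N (ϑ (e + 3) 1)) =>
    Er_mem L (fun x hx => alg_dec hT.odd hT.ne hT.ord L hx) (g := ⟨_, hg⟩) hg0 hT.odd
      (hy8.of_dvd ⟨4, rfl⟩ .rfl) h
  have hσy : ∀ σ : L ≃ₐ[kk y] L, σ ⟨y, hyL⟩ = ⟨y, hyL⟩ := fun σ => σ.commutes ⟨y, hyk⟩
  have hnormal : Normal (kk y) L := by
    refine c3_normal fun x hx => ⟨hint x hx, fun ρ hρ => ?_⟩
    rcases hx with rfl | rfl
    · obtain ⟨z, hz, h⟩ := hroot ρ hρ
      exact ⟨z, adjoin_simple_le_iff.2 hs hz, h⟩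
    · obtain ⟨b, hb, h⟩ := hT.roots (e + 1) hρ
      obtain ⟨f', hf', -⟩ := hE hgH ⟨y, hyL⟩ (N * b ^ 2)
      refine ⟨f', f'.2, ?_⟩
      rw [h, hf', hT.Er_y (e + 1) hb]
  have hsep : Algebra.IsSeparable (kk y) L := ⟨fun x => IsSeparable.of_algHom L.val
    (kk_sep hT.odd hT.ne hT.ord ((Algebra.IsIntegral.isIntegral x).map L.val))⟩
  have hgal : IsGalois (kk y) L := ⟨⟩
  have hb : ∀ σ : L ≃ₐ[kk y] L, ∃ b, Odd b ∧
      (σ ⟨_, hg⟩ : LaurentSeries F) = ϑ (e + 3) b := fun σ => by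
    obtain ⟨b, hb, h⟩ := hT.roots (e + 1) (c3_root σ ⟨_, hg⟩)
    exact ⟨b, hb, (algebraMap (LaurentSeries F) _).injective h⟩
  choose b hb hbg using hb
  have hH : ∀ σ : L ≃ₐ[kk y] L,
      Hom (2 ^ (e + 4)) (N * b σ ^ 2) (σ ⟨_, hg⟩ : LaurentSeries F) := fun σ => by
    rw [hbg]
    exact hT.hom (e + 2) _
  have hEr : ∀ σ : L ≃ₐ[kk y] L,
      (σ ⟨_, hg⟩ : LaurentSeries F) = Er (2 ^ (e + 4)) (N * b σ ^ 2) y := fun σ => by
    rw [hbg, hT.Er_y (e + 1) (hb σ)]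
  have h8 : ∀ σ, b σ ^ 2 ≡ 1 [ZMOD 8] := fun σ =>
    (Int.modEq_iff_dvd.2 (Int.eight_dvd_sq_sub_one_of_odd (hb σ))).symm
  refine ⟨L, hfin, hgal, hs, fun σ => b σ ^ 2, h8, fun σ τ => ?_, fun σ τ h1 h2 => ?_, ?_,
    fun f r => ?_⟩
  · obtain ⟨f', hf', h⟩ := hE hgH ⟨y, hyL⟩ (N * b τ ^ 2)
    have h1 := h σ _ (hb σ).pow (hH σ)
    rw [hσy, Subtype.ext (hf'.trans (hEr τ).symm : (f' : LaurentSeries F) = τ ⟨_, hg⟩)] at h1
    obtain ⟨n, hn⟩ : ∃ n, ((σ * τ) ⟨_, hg⟩ : LaurentSeries F).coeff n ≠ 0 := by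
      by_contra hc
      push Not at hc
      rw [hbg] at hc
      exact hT.ne_zero (e + 1) (hb _) (HahnSeries.ext (funext hc))
    have h2 := hH _ n hn
    rw [AlgEquiv.mul_apply, h1] at hn
    have h3 := h2.symm.trans (c3_hom_Er _ _ _ n hn)
    rw [mul_assoc, mul_comm (b τ ^ 2)] at h3
    exact c3_cancel hT.odd h3
  · refine AlgEquiv.coe_toAlgHom_injective (adjoin_algHom_ext _ ?_)
    rintro x (rfl | rfl)
    · exact h1
    · exact Subtype.ext ((hEr σ).trans ((c3_Er_congr (h2.mul_left N) y).trans (hEr τ).symm))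
  · by_contra hc
    push Not at hc
    have hd : (2 : ℤ) ^ (3 + 1) ∣ 2 ^ (e + 4) := pow_dvd_pow 2 (by omega)
    obtain ⟨f', hf', h⟩ := hE (s := 3) (hgH.of_dvd hd .rfl) ⟨y, hyL⟩ N
    have h1 : ∀ σ : L ≃ₐ[kk y] L, σ f' = f' := fun σ => by
      refine Subtype.ext ((h σ _ (hb σ).pow ((hH σ).of_dvd hd .rfl)).trans ?_)
      have h2 : b σ ^ 2 ≡ 1 [ZMOD 16] := by
        have h3 := h8 σ
        have h4 := hc σ
        unfold Int.ModEq at *
        omega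
      rw [hσy, hf']
      exact c3_Er_congr (by simpa using h2.mul_left N) y
    obtain ⟨z, hz⟩ := (IsGalois.mem_range_algebraMap_iff_fixed f').2 h1
    refine hT.not_mem (AA_trans hT.pos hT.ne hT.ord) ?_
    have h2 := hT.Er_y 1 odd_one
    rw [one_pow, mul_one] at h2
    rw [← h2, ← hf', ← hz]
    exact z.2
  · obtain ⟨f', hf', h⟩ := hE hgH f r
    exact ⟨f', hf', fun σ => h σ _ (hb σ).pow (hH σ)⟩

variable {I : Type} {R : Subalgebra (AA y) (I → LaurentSeries F)} {i₁ i₀ : I} {n₀ : ℕ}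

omit [CharP F 2] [PerfectField F] in
theorem Fam.root (h : Fam y R i₁ i₀ n₀) {f : I → LaurentSeries F} (hf : f ∈ R) :
    ∃ s : Finset (LaurentSeries F), s.card ≤ n₀ ∧ (∀ z ∈ s, ∃ i, z = f i) ∧
      ∀ ρ : AlgebraicClosure (LaurentSeries F), aeval ρ (minpoly (kk y) (f i₁)) = 0 →
        ∃ z ∈ s, ρ = algebraMap (LaurentSeries F) _ z := by
  classical
  obtain ⟨s, h1, h2, h3, h4⟩ := h.conj f hf
  obtain ⟨W, hW⟩ : ∃ W : (kk y)[X], W.map (algebraMap (kk y) (LaurentSeries F)) =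
      (s.map fun z => X - C z).prod :=
    (mem_lifts _).1 ((lifts_iff_coeff_lifts _).2 fun n => ⟨⟨_, h1 n⟩, rfl⟩)
  refine ⟨s.toFinset, (Multiset.toFinset_card_le s).trans h2,
    fun z hz => h4 z (Multiset.mem_toFinset.1 hz), fun ρ hρ => ?_⟩
  have h5 : aeval (f i₁) W = 0 := by
    rw [← aeval_map_algebraMap (LaurentSeries F), hW, map_multiset_prod]
    refine Multiset.prod_eq_zero ?_
    rw [Multiset.map_map]
    exact Multiset.mem_map.2 ⟨_, h3, by simp⟩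
  have h6 := aeval_eq_zero_of_dvd_aeval_eq_zero (minpoly.dvd _ _ h5) hρ
  rw [← aeval_map_algebraMap (LaurentSeries F), hW, map_multiset_prod,
    Multiset.prod_eq_zero_iff, Multiset.map_map] at h6
  obtain ⟨z, hz, e⟩ := Multiset.mem_map.1 h6
  refine ⟨z, Multiset.mem_toFinset.2 hz, sub_eq_zero.1 ?_⟩
  simpa using e

theorem c3_group {G X : Type} [Group G] [Fintype G] [MulAction G X] [DecidableEq X] {x : X}
    {s : Finset X} {n₀ α e : ℕ} (hs : s.card ≤ n₀) (hx : ∀ σ : G, σ • x ∈ s) (hα : α ≤ e + 4)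
    {c : G → ℤ} (h8 : ∀ σ, c σ ≡ 1 [ZMOD 8])
    (hm : ∀ σ τ, c (σ * τ) ≡ c σ * c τ [ZMOD 2 ^ (e + 4)]) (h9 : ∃ σ, c σ ≡ 9 [ZMOD 16]) :
    2 ^ (e + 4) ≤ 8 * Fintype.card G ∧ Fintype.card G ≤ n₀ * 2 ^ α *
      (Finset.univ.filter fun σ => σ • x = x ∧ c σ ≡ 1 [ZMOD 2 ^ α]).card := by
  classical
  have hodd : ∀ σ, Odd (c σ) := fun σ => by
    have := h8 σ
    unfold Int.ModEq at this
    exact Int.odd_iff.2 (by omega)
  have h1 : c 1 ≡ 1 [ZMOD 2 ^ (e + 4)] := by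
    have h := hm 1 1
    rw [mul_one] at h
    exact (c3_cancel (hodd 1) (by rwa [mul_one])).symm
  constructor
  · obtain ⟨σ, hσ⟩ := h9
    have hp : ∀ k : ℕ, c (σ ^ k) ≡ c σ ^ k [ZMOD 2 ^ (e + 4)] := fun k => by
      induction k with
      | zero => rw [pow_zero, pow_zero]; exact h1
      | succ k ih => rw [pow_succ σ, pow_succ (c σ)]; exact (hm _ _).trans (ih.mul_right _)
    have hj : ∀ j : Fin (2 ^ (e + 1)), ∃ τ, c τ ≡ 1 + 8 * (j : ℕ) [ZMOD 2 ^ (e + 4)] := fun j => by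
      obtain ⟨k, hk⟩ := exists_pow_modEq (s := 1) (t := 1 + 8 * (j : ℕ)) hσ odd_one
        (Int.modEq_iff_dvd.2 ⟨(j : ℕ), by ring⟩) (e + 4)
      exact ⟨σ ^ k, (hp k).trans (by rwa [one_mul] at hk)⟩
    choose τ hτ using hj
    have hinj : Function.Injective τ := fun i j hij => by
      have h2 := ((hτ i).symm.trans (hij ▸ hτ j)).dvd
      rw [show (1 : ℤ) + 8 * (j : ℕ) - (1 + 8 * (i : ℕ)) = 8 * ((j : ℕ) - (i : ℕ)) by ring,
        show (2 : ℤ) ^ (e + 4) = 8 * ((2 ^ (e + 1) : ℕ) : ℤ) by push_cast; ring,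
        mul_dvd_mul_iff_left (by norm_num)] at h2
      have h3 := Int.eq_zero_of_abs_lt_dvd h2 (by
        have := i.2
        have := j.2
        rw [abs_lt]
        omega)
      exact Fin.ext (by omega)
    have := Fintype.card_le_of_injective τ hinj
    rw [Fintype.card_fin] at this
    calc 2 ^ (e + 4) = 8 * 2 ^ (e + 1) := by ring
      _ ≤ _ := Nat.mul_le_mul_left _ this
  · have hd : (2 : ℤ) ^ α ∣ 2 ^ (e + 4) := pow_dvd_pow 2 hα
    have hpos : (0 : ℤ) < 2 ^ α := by positivity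
    have := Finset.card_le_mul_card_image_of_maps_to (s := Finset.univ)
      (f := fun σ : G => (σ • x, c σ % 2 ^ α)) (t := s ×ˢ Finset.Ico (0 : ℤ) (2 ^ α))
      (fun σ _ => Finset.mem_product.2 ⟨hx σ, Finset.mem_Ico.2
        ⟨Int.emod_nonneg _ hpos.ne', Int.emod_lt_of_pos _ hpos⟩⟩)
      (Finset.univ.filter fun σ => σ • x = x ∧ c σ ≡ 1 [ZMOD 2 ^ α]).card fun p _ => by
        rcases (Finset.univ.filter fun σ : G => (σ • x, c σ % 2 ^ α) = p).eq_empty_or_nonempty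
          with h0 | ⟨τ, hτ⟩
        · rw [h0]
          exact Nat.zero_le _
        refine Finset.card_le_card_of_injOn (fun σ => τ⁻¹ * σ) (fun σ hσ => ?_)
          fun _ _ _ _ h => mul_left_cancel h
        have h2 := Prod.mk.inj ((Finset.mem_filter.1 hσ).2.trans (Finset.mem_filter.1 hτ).2.symm)
        refine Finset.mem_filter.2 ⟨Finset.mem_univ _, by rw [mul_smul, h2.1, inv_smul_smul], ?_⟩
        have h3 := (hm τ (τ⁻¹ * σ)).of_dvd hd
        rw [mul_inv_cancel_left] at h3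
        exact c3_cancel (hodd τ) (by rw [mul_one]; exact h3.symm.trans h2.2)
    rw [Finset.card_univ, Finset.card_product, Int.card_Ico, sub_zero,
      show ((2 : ℤ) ^ α).toNat = 2 ^ α from by
        rw [show (2 : ℤ) ^ α = ((2 ^ α : ℕ) : ℤ) by push_cast; rfl, Int.toNat_natCast]] at this
    refine this.trans ?_
    rw [mul_comm]
    gcongr

theorem core (hT : Tower N y ϑ) (h : Fam y R i₁ i₀ n₀) (α b p₀ : ℕ) :
    ∃ C : ℕ, ∀ s, α + 4 ≤ s → ∃ u : ℤ, u ≡ 1 [ZMOD 8] ∧ ∀ f ∈ R,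
      IsIntegral (AA y) (f i₁ * y⁻¹ ^ b) → ∀ Z : Finset ℤ, Z.card ≤ p₀ →
      (∀ e ∈ Z, -(p₀ * 8 ^ s : ℤ) ≤ e) → (∀ i n, n < 0 → (f i).coeff n ≠ 0 → n ∈ Z) →
      ∀ e, Odd e → (f i₀).coeff e ≠ 0 → ∃ S : Finset ℤ, 2 ^ s ≤ C * S.card ∧
        ∀ n ∈ S, (f i₁).coeff n ≠ 0 ∧ n * u ≡ e [ZMOD 2 ^ α] ∧ n ≤ C * 4 ^ s := by
  classical
  obtain ⟨f₀, hf₀, hs₀, hK⟩ := exists_prim hT.odd hT.ne hT.ord h
  have hKf := adjoin.finiteDimensional hs₀
  obtain ⟨δ, hδA, hδ0, hδ⟩ := exists_delta hT.odd hT.pos hT.ne hT.ord (kk y)⟮f₀ i₁⟯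
  have hKi : ∀ f ∈ R, ∀ i, f i ∈ (kk y)⟮f₀ i₁⟯ := fun f hf i => by
    obtain ⟨f', hf', e⟩ := h.tr f hf i
    exact e ▸ hK f' hf'
  obtain ⟨s₀, hc₀, hi₀, hr₀⟩ := h.root hf₀
  obtain ⟨N', hN'⟩ := Int.eq_ofNat_of_zero_le hT.pos.le
  obtain ⟨D, hD⟩ := Int.eq_ofNat_of_zero_le
    (neg_nonneg.2 (AA_order hT.pos hT.ne hT.ord hδA))
  refine ⟨2 * (n₀ * 2 ^ α) * (64 * N' + 2 * D + 16 * b * N') +
    16 * (n₀ * 2 ^ α) * (n₀ * p₀ * p₀) + 16 * (n₀ * 2 ^ α), fun s hs => ?_⟩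
  obtain ⟨e', rfl⟩ : ∃ e', s = e' + 4 := ⟨s - 4, by omega⟩
  obtain ⟨L, _, _, hsL, c, h8, hm, hinj, h9, hEr⟩ := c3_gal hT hs₀ (fun ρ hρ => by
    obtain ⟨z, hz, e⟩ := hr₀ ρ hρ
    obtain ⟨i, rfl⟩ := hi₀ z hz
    exact ⟨_, hKi f₀ hf₀ i, e⟩) e'
  have hKL : (kk y)⟮f₀ i₁⟯ ≤ L := adjoin_simple_le_iff.2 hsL
  have hodd : ∀ σ, Odd (c σ) := fun σ => by
    have := h8 σ
    unfold Int.ModEq at this
    exact Int.odd_iff.2 (by omega)
  obtain ⟨σ₀, hσ₀⟩ := minpoly.exists_algEquiv_of_root' (K := kk y)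
    (x := (⟨f₀ i₀, hKL (hKi f₀ hf₀ i₀)⟩ : L)) (y := ⟨f₀ i₁, hsL⟩)
    (Algebra.IsAlgebraic.isAlgebraic _) (by
      refine Subtype.ext ?_
      have h1 := h.transfer R.zero_mem hf₀ (minpoly (kk y) (f₀ i₁)) (minpoly.aeval _ _).symm
      rw [minpoly_eq]
      exact (aeval_algHom_apply L.val _ _).symm.trans h1.symm)
  have hx : ∀ σ : L ≃ₐ[kk y] L, σ • (⟨f₀ i₁, hsL⟩ : L) ∈ s₀.subtype (· ∈ L) := fun σ => by
    obtain ⟨z, hz, e⟩ := hr₀ _ (c3_root σ ⟨_, hsL⟩)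
    rw [← (algebraMap (LaurentSeries F) _).injective e] at hz
    exact Finset.mem_subtype.2 hz
  have hcs : (s₀.subtype (· ∈ L)).card ≤ n₀ := by
    rw [Finset.card_subtype]
    exact (Finset.card_filter_le _ _).trans hc₀
  obtain ⟨hG1, hG2⟩ := c3_group hcs hx (α := α) (by omega) h8 hm h9
  refine ⟨c σ₀, h8 σ₀, fun f hf hint Z hZ hZ' hneg e he hne => ?_⟩
  obtain ⟨r, hr⟩ : ∃ r, r * c σ₀ ≡ e [ZMOD 2 ^ (e' + 4)] := by
    obtain ⟨p, q, hpq⟩ := (Int.isCoprime_two_left.mpr (hodd σ₀)).pow_left (m := e' + 4)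
    exact ⟨e * q, Int.modEq_iff_dvd.2 ⟨e * p, by linear_combination (-e) * hpq⟩⟩
  have hro : Odd r := by
    have h1 := hr.of_dvd (dvd_pow_self 2 (by omega))
    have h2 : Odd (r * c σ₀) := Int.odd_iff.2 (Eq.trans h1 (Int.odd_iff.1 he))
    exact (Int.odd_mul.1 h2).1
  set φ : L := ⟨f i₁, hKL (hK f hf)⟩ with hφ
  obtain ⟨ψ, hψ, hσψ⟩ := hEr φ r
  have hφ₀ : (σ₀ φ : LaurentSeries F) = f i₀ := by
    have h1 := hK f hf
    rw [← mem_toSubalgebra, adjoin_simple_toSubalgebra_of_isAlgebraic hs₀.isAlgebraic,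
      Algebra.adjoin_singleton_eq_range_aeval] at h1
    obtain ⟨p, hp⟩ := h1
    have h2 : φ = aeval (⟨f₀ i₁, hsL⟩ : L) p :=
      Subtype.ext (hp.symm.trans (aeval_algHom_apply L.val (⟨f₀ i₁, hsL⟩ : L) p))
    rw [h.transfer hf hf₀ p hp.symm, h2, ← aeval_algHom_apply, hσ₀]
    exact (aeval_algHom_apply L.val _ p).symm
  have hψ0 : ψ ≠ 0 := fun h0 => by
    have h1 := congrArg (fun z : LaurentSeries F => z.coeff e) (hσψ σ₀)
    simp only [h0, map_zero, hφ₀, coeff_Er, if_pos hr.symm] at h1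
    exact hne h1.symm
  have hn : ∀ σ : L ≃ₐ[kk y] L,
      (σ ψ : LaurentSeries F).order ≡ r * c σ [ZMOD 2 ^ (e' + 4)] ∧
      (σ φ : LaurentSeries F).coeff (σ ψ : LaurentSeries F).order ≠ 0 := fun σ => by
    have h1 : (σ ψ : LaurentSeries F) ≠ 0 := fun h0 =>
      hψ0 ((map_eq_zero_iff σ σ.injective).1 (Subtype.ext h0))
    have h2 := HahnSeries.coeff_order_eq_zero.not.2 h1
    generalize (σ ψ : LaurentSeries F).order = n at h2
    rw [hσψ, coeff_Er] at h2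
    exact ⟨by by_contra h3; exact h2 (if_neg h3), fun h3 => h2 (by rw [h3, ite_self])⟩
  have hcc : ∀ σ τ : L ≃ₐ[kk y] L, (σ ψ : LaurentSeries F).order = (τ ψ : LaurentSeries F).order →
      c σ ≡ c τ [ZMOD 2 ^ (e' + 4)] := fun σ τ h1 =>
    c3_cancel hro ((hn σ).1.symm.trans (h1 ▸ (hn τ).1))
  have ht0 : y⁻¹ ≠ 0 := inv_ne_zero hT.ne
  have htA : y⁻¹ ∈ AA y := Algebra.subset_adjoin rfl
  have hto : y⁻¹.order = -N' := by
    have h1 := HahnSeries.order_mul hT.ne ht0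
    rw [mul_inv_cancel₀ hT.ne, HahnSeries.order_one, hT.ord, hN'] at h1
    omega
  have hW := Wc.mul (hT.mem_Wc hδ (e' + 4) (mul_mem (hK f hf) (pow_mem
    ((kk y)⟮f₀ i₁⟯.algebraMap_mem ⟨_, mem_adjoin_simple_self F y⁻¹⟩) b))
    (hint.mul (isIntegral_algebraMap (x := (⟨δ, hδA⟩ : AA y) ^ 2))))
      (Wc.pow (hT.y_mem (e' + 4)) b)
  rw [show f i₁ * algebraMap (kk y) (LaurentSeries F) ⟨_, mem_adjoin_simple_self F y⁻¹⟩ ^ b *
    y ^ b = f i₁ by
      change f i₁ * y⁻¹ ^ b * y ^ b = _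
      rw [mul_assoc, ← mul_pow, inv_mul_cancel₀ hT.ne, one_pow, mul_one]] at hW
  have hv := valence hT.pos hT.ne hT.ord L hψ0
    (mul_mem (mul_mem (pow_mem htA _) (pow_mem hδA _)) (pow_mem (pow_mem htA _) b))
    (mul_ne_zero (mul_ne_zero (pow_ne_zero _ ht0) (pow_ne_zero _ hδ0))
      (pow_ne_zero _ (pow_ne_zero _ ht0))) (hψ ▸ Wc.Er hW r)
  rw [HahnSeries.order_mul (mul_ne_zero (pow_ne_zero _ ht0) (pow_ne_zero _ hδ0))
      (pow_ne_zero _ (pow_ne_zero _ ht0)),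
    HahnSeries.order_mul (pow_ne_zero _ ht0) (pow_ne_zero _ hδ0), HahnSeries.order_pow,
    HahnSeries.order_pow, HahnSeries.order_pow, HahnSeries.order_pow, hto,
    neg_eq_iff_eq_neg.1 hD, Finset.sum_add_distrib, Finset.sum_const, Finset.card_univ] at hv
  simp only [nsmul_eq_mul] at hv
  have hfib : ∀ n : ℤ, (Finset.univ.filter fun σ : L ≃ₐ[kk y] L =>
      (σ ψ : LaurentSeries F).order = n).card ≤ n₀ := fun n =>
    (Finset.card_le_card_of_injOn (fun σ => σ • (⟨f₀ i₁, hsL⟩ : L)) (fun σ _ => hx σ)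
      fun σ hσ τ hτ h1 => hinj σ τ h1 (hcc σ τ
        ((Finset.mem_filter.1 hσ).2.trans (Finset.mem_filter.1 hτ).2.symm))).trans hcs
  obtain ⟨s₁, -, hi₁, hr₁⟩ := h.root hf
  have hZm : ∀ σ ∈ Finset.univ.filter fun σ : L ≃ₐ[kk y] L => (σ ψ : LaurentSeries F).order < 0,
      (σ ψ : LaurentSeries F).order ∈ Z := fun σ hσ => by
    obtain ⟨z, hz, e⟩ := hr₁ _ (c3_root σ φ)
    obtain ⟨i, rfl⟩ := hi₁ z hz
    exact hneg i _ (Finset.mem_filter.1 hσ).2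
      ((algebraMap (LaurentSeries F) _).injective e ▸ (hn σ).2)
  obtain ⟨S, hS, hS1, hS2⟩ := c3_markov (fun σ : L ≃ₐ[kk y] L => (σ ψ : LaurentSeries F).order)
    _ (C₁ := 64 * N' + 2 * D + 16 * b * N') (C₂ := n₀ * p₀ * p₀) (s := e' + 4) (by
      have h1 : (D : ℤ) * 2 ^ (e' + 4) ≤ D * 4 ^ (e' + 4) := by gcongr; norm_num
      have h2 : -(((4 ^ (e' + 4 + 3) : ℕ) : ℤ) * -(N' : ℤ) + (2 ^ (e' + 4 + 1) : ℕ) * -(D : ℤ) +
          b * ((4 ^ (e' + 4 + 2) : ℕ) * -(N' : ℤ))) ≤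
          (64 * N' + 2 * D + 16 * b * N' : ℕ) * 4 ^ (e' + 4) := by
        push_cast
        rw [pow_add 4 (e' + 4), pow_add 2 (e' + 4), pow_add 4 (e' + 4)]
        linarith
      have h3 := mul_le_mul_of_nonneg_left h2
        (Int.natCast_nonneg (Fintype.card (L ≃ₐ[kk y] L)))
      linarith) (by
      have h1 := Finset.card_nsmul_le_sum _ _ _ fun σ hσ => hZ' _ (hZm σ hσ)
      have h2 := (Finset.card_le_mul_card_image_of_maps_to hZm n₀ fun n _ =>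
        (Finset.card_le_card (Finset.filter_subset_filter _ (Finset.subset_univ _))).trans
          (hfib n)).trans (Nat.mul_le_mul_left _ hZ)
      refine le_trans ?_ h1
      rw [nsmul_eq_mul, mul_neg, neg_le_neg_iff, Nat.cast_mul, mul_assoc]
      gcongr) hG2 hG1
  have hS3 := fun σ hσ => (Finset.mem_filter.1 (hS hσ : σ ∈ _)).2
  refine ⟨S.image fun σ => (σ ψ : LaurentSeries F).order, ?_, fun n hn' => ?_⟩
  · rw [Finset.card_image_of_injOn fun σ hσ τ hτ h1 =>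
      hinj σ τ ((hS3 σ hσ).1.trans (hS3 τ hτ).1.symm) (hcc σ τ h1)]
    calc 2 ^ (e' + 4) ≤ 8 * (n₀ * 2 ^ α * (2 * S.card)) :=
          hG1.trans (Nat.mul_le_mul_left _ (hG2.trans (Nat.mul_le_mul_left _ hS1)))
      _ = 16 * (n₀ * 2 ^ α) * S.card := by ring
      _ ≤ _ := Nat.mul_le_mul_right _ (Nat.le_add_left _ _)
  · obtain ⟨σ, hσ, rfl⟩ := Finset.mem_image.1 hn'
    have hd : (2 : ℤ) ^ α ∣ 2 ^ (e' + 4) := pow_dvd_pow 2 (by omega)
    refine ⟨?_, ?_, (hS2 σ hσ).trans ?_⟩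
    · have h1 := hK f hf
      rw [← mem_toSubalgebra, adjoin_simple_toSubalgebra_of_isAlgebraic hs₀.isAlgebraic,
        Algebra.adjoin_singleton_eq_range_aeval] at h1
      obtain ⟨p, hp⟩ := h1
      have h2 : φ = aeval (⟨f₀ i₁, hsL⟩ : L) p :=
        Subtype.ext (hp.symm.trans (aeval_algHom_apply L.val (⟨f₀ i₁, hsL⟩ : L) p))
      have h3 : σ φ = φ := by
        rw [h2, ← aeval_algHom_apply]
        exact congrArg (aeval · p) (hS3 σ hσ).1
      have h4 := (hn σ).2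
      rwa [h3] at h4
    · have h1 := ((hn σ).1.of_dvd hd).trans ((hS3 σ hσ).2.mul_left r)
      rw [mul_one] at h1
      exact (h1.mul_right _).trans (hr.of_dvd hd)
    · exact mul_le_mul_of_nonneg_right (Int.ofNat_le.2 (Nat.le_add_right _ _)) (by positivity)

end Subb.Q

end

section

/-!
Assembly.
-/

namespace Subb.Q

open PowerSeries Matrix MatrixGroups

section

variable {O F : Type} [CommRing O] [Field F] (π : O →+* F)

theorem coeff_lau (a : ℕ) (ψ : O⟦X⟧) (n : ℤ) :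
    (lau π a ψ).coeff n = if 0 ≤ n + a then π (coeff (n + a).toNat ψ) else 0 := by
  have h := HahnSeries.coeff_mul_single_add (r := (1 : F))
    (x := HahnSeries.ofPowerSeries ℤ F (PowerSeries.map π ψ)) (a := n + a) (b := -(a : ℤ))
  rw [add_neg_cancel_right, mul_one] at h
  rw [lau, h]
  split_ifs with h0
  · obtain ⟨k, hk⟩ := Int.eq_ofNat_of_zero_le h0
    rw [hk, HahnSeries.ofPowerSeries_apply_coeff, Int.toNat_natCast, coeff_map]
  · rw [PowerSeries.coeff_coe, if_pos (not_le.1 h0)]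

theorem lau_congr {a b : ℕ} {P ψ : O⟦X⟧} (h : X ^ b * P = X ^ a * ψ) :
    lau π a P = lau π b ψ := by
  have h1 := congrArg (fun φ => HahnSeries.ofPowerSeries ℤ F (PowerSeries.map π φ)) h
  simp only [map_mul, map_pow, map_X, HahnSeries.ofPowerSeries_X, HahnSeries.single_pow,
    nsmul_eq_mul, mul_one, one_pow] at h1
  have e : ∀ c : ℕ, (HahnSeries.single (c : ℤ) (1 : F)) * HahnSeries.single (-(c : ℤ)) 1 = 1 :=
    fun c => by rw [HahnSeries.single_mul_single, add_neg_cancel, mul_one]; rfl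
  rw [lau, lau]
  linear_combination (HahnSeries.single (-(a : ℤ)) 1 * HahnSeries.single (-(b : ℤ)) 1) * h1 -
    (HahnSeries.ofPowerSeries ℤ F (PowerSeries.map π P) * HahnSeries.single (-(a : ℤ)) 1) * e b +
    (HahnSeries.ofPowerSeries ℤ F (PowerSeries.map π ψ) * HahnSeries.single (-(b : ℤ)) 1) * e a

theorem lau_up {N : ℕ} (hN : N ≠ 0) (hy : yL F N ≠ 0) (a : ℕ) (P : O⟦X⟧) :
    lau π 0 (P * ex N (fS O ^ 24) ^ a) * (yL F N)⁻¹ ^ a = lau π (N * a) P := by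
  have h1 : lau π 0 (P * ex N (fS O ^ 24) ^ a) = lau π (N * a) (P * ex N (yS O) ^ a) :=
    lau_congr π (by rw [yS, map_mul, ex_X hN, mul_pow, ← pow_mul]; ring)
  rw [h1, lau, lau, map_mul, map_mul, map_pow, map_pow, map_ex, map_yS, ← yL, mul_right_comm,
    mul_assoc _ (yL F N ^ a), ← mul_pow, mul_inv_cancel₀ hy, one_pow, mul_one]

theorem lau_hk {l a : ℕ} (hl : π l = 1) (hal : a < l) (w : ℕ) (ψ : O⟦X⟧) (n : ℤ) :
    (lau π (a * l) (hk l a w ψ)).coeff n = (lau π a ψ).coeff (l * n) +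
      if (l : ℤ) ∣ n then (lau π a ψ).coeff (n / l) else 0 := by
  have hl0 : l ≠ 0 := by omega
  have hal' : (a : ℤ) < l := by exact_mod_cast hal
  have hw : π ((l : O) ^ w) = 1 := by rw [map_pow, hl, one_pow]
  simp only [coeff_lau, hk, map_add, coeff_C_mul, map_mul, hw, hl, one_mul]
  by_cases h0 : 0 ≤ n + (a * l : ℕ)
  · obtain ⟨M, hM⟩ := Int.eq_ofNat_of_zero_le h0
    rw [if_pos h0, hM, Int.toNat_natCast]
    push_cast at hM
    congr 1
    · rw [coeff_X_pow_mul']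
      rcases le_or_gt 0 n with hn | hn
      · obtain ⟨n, rfl⟩ := Int.eq_ofNat_of_zero_le hn
        have h1 : M = n + a * l := by exact_mod_cast hM.symm
        rw [if_pos (by omega), if_pos (by positivity), coeff_mk, show M - a * l = n by omega,
          show ((l : ℤ) * n + a) = ((a + l * n : ℕ) : ℤ) by push_cast; ring, Int.toNat_natCast]
      · have h1 : ¬a * l ≤ M := fun h => by
          have : (a : ℤ) * l ≤ M := by exact_mod_cast h
          omega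
        rw [if_neg h1, if_neg (by nlinarith), map_zero]
    · rw [coeff_ex hl0]
      by_cases hd : (l : ℤ) ∣ n
      · obtain ⟨k, rfl⟩ := hd
        have h1 : (M : ℤ) = l * (k + a) := by linear_combination -hM
        have h2 : 0 ≤ k + a := by
          by_contra h
          nlinarith [Int.natCast_nonneg M]
        obtain ⟨j, hj⟩ := Int.eq_ofNat_of_zero_le h2
        have h3 : M = l * j := by rw [hj] at h1; exact_mod_cast h1
        rw [if_pos (Dvd.intro _ rfl), Int.mul_ediv_cancel_left _ (by exact_mod_cast hl0),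
          if_pos h2, hj, Int.toNat_natCast, h3, if_pos (Dvd.intro _ rfl),
          Nat.mul_div_cancel_left _ (by omega)]
      · rw [if_neg hd, if_neg, map_zero]
        rintro ⟨j, rfl⟩
        exact hd ⟨j - a, by push_cast at hM; linear_combination hM⟩
  · push_cast at h0
    have hn : n < 0 := by nlinarith [Int.natCast_nonneg a]
    rw [if_neg (by push_cast; exact h0), if_neg (by nlinarith), zero_add]
    split_ifs with hd h1
    · obtain ⟨k, rfl⟩ := hd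
      rw [Int.mul_ediv_cancel_left _ (by exact_mod_cast hl0)] at h1
      exact absurd (by nlinarith [Int.natCast_nonneg a]) h0
    · rfl
    · rfl

end

theorem modular {k m E : ℕ} (hkm : k + 1 < m) (hm : Odd m) (hE : Odd E) {Θ : ℤ⟦X⟧}
    (hΘ : Θ * dS ℤ = ex m (dS ℤ) ^ (k + 1)) {c : ℤ}
    (h3 : ∀ n : ℕ, ¬(n : ℤ) ≡ c [ZMOD 3] → coeff n Θ = 0) :
    ∃ (F : Type) (_ : Field F) (_ : CharP F 2) (_ : PerfectField F)
      (R : Subalgebra (AA (yL F (3 * (m * E)))) (SL(2, ℤ) → LaurentSeries F)) (γ : SL(2, ℤ))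
      (n₀ a : ℕ) (Φ : SL(2, ℤ) → LaurentSeries F), Fam (yL F (3 * (m * E))) R 1 γ n₀ ∧
      (∀ g n, n < -(a : ℤ) → (Φ g).coeff n = 0) ∧ (∀ n, n < 0 → (Φ 1).coeff n = 0) ∧
      (∀ n : ℕ, (Φ 1).coeff n = if m ∣ n ∧ ((n / m : ℕ) : ℤ) ≡ c [ZMOD 3 * E] then
        ((coeff (n / m) Θ : ℤ) : F) else 0) ∧
      (∀ n, n < -(((m - (k + 1)) * E ^ 2 : ℕ) : ℤ) → (Φ γ).coeff n = 0) ∧
      (Φ γ).coeff (-(((m - (k + 1)) * E ^ 2 : ℕ) : ℤ)) ≠ 0 ∧
      ∀ l : ℕ, l.Prime → l ≡ 1 [MOD 3 * (m * E)] → a < l → ∃ f ∈ R,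
        IsIntegral (AA (yL F (3 * (m * E)))) (f 1 * (yL F (3 * (m * E)))⁻¹ ^ k) ∧
        ∀ g n, (f g).coeff n = (Φ g).coeff (l * n) +
          if (l : ℤ) ∣ n then (Φ g).coeff (n / l) else 0 := by
  have hm0 := hm.pos
  have hE0 := hE.pos
  set N := 3 * (m * E) with hN
  have hN0 : N ≠ 0 := by positivity
  obtain ⟨O, F, _, _, _, _, _, _, ι, π, ζ, hι, hζ, hs, hπ⟩ := exists_base' N hN0
  have h1 : ∀ n : ℕ, Odd n → π n = 1 := by
    rintro n ⟨r, rfl⟩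
    rw [map_natCast]
    push_cast
    rw [CharTwo.two_eq_zero, zero_mul, zero_add]
  have hodd : ∀ n : ℕ, Odd n → IsUnit (n : O) := fun n hn => by
    by_contra h
    exact one_ne_zero ((h1 n hn).symm.trans ((hπ _).2 h))
  obtain ⟨γ, hco, hγ, hvan⟩ := exists_gamma0 hι hπ hζ (hm.mul hE) hN (Dvd.intro_left _ rfl)
  obtain ⟨P, hP, hP1, ψ, hψ, hPγ⟩ := exists_H hι hζ hodd hkm hm hE hN hΘ h3 hco hγ
  obtain ⟨R, n₀, hR, hmem⟩ := exists_R hι hs hN0 hζ hvan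
  have e1 : lau π (N * E) (P 1) = lau π 0 (C (((m ^ (4 * (k + 1)) * E : ℕ)) : O) *
      ex m (PowerSeries.map (Int.castRingHom O) (siv Θ c (3 * E)))) :=
    lau_congr π (by rw [hP1]; ring)
  refine ⟨F, inferInstance, inferInstance, inferInstance, R, γ, n₀, N * E,
    fun g => lau π (N * E) (P g), hR, fun g n hn => ?_, fun n hn => ?_, fun n => ?_,
    fun n hn => ?_, ?_, fun l hl hlN hal => ?_⟩ <;> beta_reduce
  · rw [coeff_lau, if_neg (by omega)]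
  · rw [e1, coeff_lau, if_neg (by omega)]
  · rw [e1, coeff_lau, if_pos (by omega), Nat.cast_zero, add_zero, Int.toNat_natCast, coeff_C_mul,
      map_mul, h1 _ (hm.pow.mul hE), one_mul, coeff_ex hm0.ne']
    by_cases hd : m ∣ n
    · rw [if_pos hd, coeff_map, siv, coeff_mk]
      by_cases hc : ((n / m : ℕ) : ℤ) ≡ c [ZMOD 3 * E]
      · rw [if_pos hc, if_pos ⟨hd, hc⟩, eq_intCast, map_intCast]
      · rw [if_neg hc, if_neg fun h => hc h.2, map_zero, map_zero]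
    · rw [if_neg hd, if_neg fun h => hd h.1, map_zero]
  · rw [lau_congr π hPγ, coeff_lau, if_neg (by omega)]
  · rw [lau_congr π hPγ, coeff_lau, neg_add_cancel, if_pos le_rfl, Int.toNat_zero,
      coeff_zero_eq_constantCoeff_apply]
    exact fun h => (hπ _).1 h hψ
  · have h2 := MF_hecke hN0 (w := 4 * k) hl hlN hal hP
    rw [mul_assoc] at h2
    obtain ⟨h4, h5⟩ := hmem _ (E * l) k _ (MF_toFam hN0 h2) (by omega)
    refine ⟨_, h4, h5, fun g n => ?_⟩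
    beta_reduce
    rw [lau_up π hN0 (tower F (by rw [hN]; exact (Nat.odd_iff.2 rfl).mul (hm.mul hE))).ne,
      ← mul_assoc, lau_hk π (h1 l (hl.odd_of_ne_two ?_)) hal]
    rintro rfl
    have : 3 * 1 * 1 ≤ N * E := Nat.mul_le_mul (Nat.mul_le_mul_left 3 (Nat.mul_pos hm0 hE0)) hE0
    omega

theorem pairs {k m E α c : ℕ} (hk : Odd k) (hkm : k + 1 < m) (hm : Odd m) (hE : Odd E)
    (hα : 3 ≤ α) {Θ : ℤ⟦X⟧} (hΘ : Θ * dS ℤ = ex m (dS ℤ) ^ (k + 1))
    (h3 : ∀ n : ℕ, ¬(n : ℤ) ≡ c [ZMOD 3] → coeff n Θ = 0)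
    (hc : (c : ℤ) + 1 ≡ (k + 1) * m [ZMOD 8]) : ∃ C s₀ : ℕ, ∀ s ≥ s₀, ∃ T : Finset ℕ,
      8 ^ s ≤ C * s * T.card ∧ (∀ l ∈ T, l.Prime ∧ 8 ^ s < l ∧ l ≤ 2 * 8 ^ s) ∧
      ∀ l ∈ T, ∀ l' ∈ T, l' < l → ∃ S : Finset ℕ, 2 ^ s ≤ C * S.card ∧
        ∀ n ∈ S, n ≠ 0 ∧ n ≤ C * 4 ^ s ∧ ∃ u u', l * n = c + 2 ^ α * (3 * E) * u ∧
          l' * n = c + 2 ^ α * (3 * E) * u' ∧
          ¬coeff (l * n) Θ ≡ coeff (l' * n) Θ [ZMOD 2] := by
  classical
  obtain ⟨F, _, _, _, R, γ, n₀, a, Φ, hR, hΦa, hΦ0, hΦ1, hΦγ, hΦγ', hT⟩ :=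
    modular hkm hm hE hΘ h3
  have hm0 := hm.pos
  have hE0 := hE.pos
  have hNo : Odd (3 * (m * E)) := (Nat.odd_iff.2 rfl).mul (hm.mul hE)
  obtain ⟨C, hC⟩ := core (tower F hNo) hR α k (2 * a + 2)
  obtain ⟨C', s₀, hC'⟩ := many_primes (q := 2 ^ α * (3 * (m * E))) (by positivity)
  refine ⟨C + C', s₀ + α + 4 + C + a + c, fun s hs => ?_⟩
  obtain ⟨u, hu, hS⟩ := hC s (by omega)
  set e₀ := (m - (k + 1)) * E ^ 2 with he₀
  have he₀o : Odd e₀ := (Nat.Odd.sub_even hkm.le hm hk.add_one).mul hE.pow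
  have he₀p := he₀o.pos
  have hmZ : Odd (m : ℤ) := by exact_mod_cast hm
  have huo : Odd u := Int.odd_iff.2 (by unfold Int.ModEq at hu; omega)
  obtain ⟨κ, hκ⟩ := exists_pow_modEq (x := 9) (s := -(e₀ : ℤ)) (t := c * (m * u)) .rfl
    (by exact_mod_cast he₀o.natCast.neg) (by
      obtain ⟨r, hr⟩ := hc.dvd
      obtain ⟨w, hw⟩ := Int.eight_dvd_sq_sub_one_of_odd hmZ
      obtain ⟨v, hv⟩ := Int.eight_dvd_sq_sub_one_of_odd (k := E) (by exact_mod_cast hE)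
      obtain ⟨z, hz⟩ := hu.dvd
      refine Int.modEq_iff_dvd.2 ⟨-(c * m * z) + (k + 1) * w - r * m + (m - (k + 1)) * v, ?_⟩
      rw [he₀, Nat.cast_mul, Nat.cast_sub hkm.le]
      push_cast
      linear_combination (-(c * m)) * hz - m * hr + (k + 1) * hw + (m - (k + 1)) * hv) α
  have hcop : (2 ^ α).Coprime (3 * (m * E)) := (Nat.coprime_two_left.2 hNo).pow_left _
  obtain ⟨a₀, ha₁, ha₂⟩ := Nat.chineseRemainder hcop (3 ^ κ) 1
  have h2s : s < 2 ^ s := Nat.lt_two_pow_self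
  have h8s : 2 ^ s ≤ 8 ^ s := Nat.pow_le_pow_left (by norm_num) s
  have h4s : C * 4 ^ s ≤ 8 ^ s := by
    rw [show 8 ^ s = 2 ^ s * 4 ^ s from mul_pow 2 4 s]
    exact Nat.mul_le_mul_right _ (by omega)
  refine ⟨_, (hC' s (by omega) a₀ (Nat.Coprime.mul_right
    (ha₁.gcd_eq.trans ((show Nat.Coprime 3 2 by norm_num).pow κ α))
    (ha₂.gcd_eq.trans (Nat.gcd_one_left _)))).trans (by gcongr; omega), fun l hl => ?_,
    fun l hl l' hl' hll => ?_⟩
  · rw [Finset.mem_filter, Finset.mem_Ioc] at hl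
    exact ⟨hl.2.1, hl.1⟩
  rw [Finset.mem_filter, Finset.mem_Ioc] at hl hl'
  have hmod : ∀ p : ℕ, p ≡ a₀ [MOD 2 ^ α * (3 * (m * E))] →
      (p : ℤ) ≡ 3 ^ κ [ZMOD 2 ^ α] ∧ p ≡ 1 [MOD 3 * (m * E)] := fun p hp =>
    ⟨by exact_mod_cast Int.natCast_modEq_iff.2 ((hp.of_mul_right _).trans ha₁),
      (hp.of_mul_left _).trans ha₂⟩
  obtain ⟨f, hf, hi, hfc⟩ := hT l hl.2.1 (hmod l hl.2.2).2 (by omega)
  obtain ⟨f', hf', hi', hfc'⟩ := hT l' hl'.2.1 (hmod l' hl'.2.2).2 (by omega)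
  have hal' : (a : ℤ) < l' := by exact_mod_cast (by omega : a < l')
  have hll' : (l' : ℤ) < l := by exact_mod_cast hll
  have hl2 : (l : ℤ) ≤ 2 * 8 ^ s := by exact_mod_cast hl.1.2
  have hneg : ∀ (p : ℕ) g (n : ℤ), (a : ℤ) < p → n < 0 → (Φ g).coeff (p * n) +
      (if (p : ℤ) ∣ n then (Φ g).coeff (n / p) else 0) ≠ 0 →
      n ∈ (Finset.range (a + 1)).image fun i : ℕ => -((p : ℤ) * i) := fun p g n hp hn h => by
    rw [hΦa g _ (by nlinarith), zero_add] at h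
    have hd : (p : ℤ) ∣ n := by
      by_contra hd
      exact h (if_neg hd)
    obtain ⟨j, rfl⟩ := hd
    rw [if_pos (Dvd.intro _ rfl), Int.mul_ediv_cancel_left _ (by omega)] at h
    have h1 : -(a : ℤ) ≤ j := not_lt.1 fun h1 => h (hΦa g j h1)
    have h2 : j < 0 := by
      by_contra h2
      nlinarith [Int.natCast_nonneg p]
    refine Finset.mem_image.2 ⟨(-j).toNat, Finset.mem_range.2 (by omega), ?_⟩
    rw [Int.toNat_of_nonneg (by omega)]
    ring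
  obtain ⟨S, hS1, hS2⟩ := hS (f + f') (add_mem hf hf')
    (by rw [Pi.add_apply, add_mul]; exact hi.add hi')
    (((Finset.range (a + 1)).image fun i : ℕ => -((l : ℤ) * i)) ∪
      (Finset.range (a + 1)).image fun i : ℕ => -((l' : ℤ) * i))
    ((Finset.card_union_le _ _).trans (by
      have h1 := Finset.card_image_le (s := Finset.range (a + 1)) (f := fun i : ℕ => -((l : ℤ) * i))
      have h2 := Finset.card_image_le (s := Finset.range (a + 1))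
        (f := fun i : ℕ => -((l' : ℤ) * i))
      rw [Finset.card_range] at h1 h2
      omega))
    (fun e he => by
      have h0 : (0 : ℤ) < 8 ^ s := by positivity
      rcases Finset.mem_union.1 he with he | he <;>
      · obtain ⟨i, hi, rfl⟩ := Finset.mem_image.1 he
        have h1 : (i : ℤ) ≤ a := by exact_mod_cast Nat.lt_succ_iff.1 (Finset.mem_range.1 hi)
        push_cast
        nlinarith [Int.natCast_nonneg i, Int.natCast_nonneg a])
    (fun g n hn h => by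
      rw [Pi.add_apply, HahnSeries.coeff_add, hfc, hfc'] at h
      by_contra hc
      rw [Finset.mem_union, not_or] at hc
      exact h (by
        rw [not_not.1 fun h1 => hc.1 (hneg l g n (by omega) hn h1),
          not_not.1 fun h1 => hc.2 (hneg l' g n hal' hn h1), add_zero]))
    (-(l * e₀)) (((hl.2.1.odd_of_ne_two (by omega)).natCast.mul he₀o.natCast).neg) (by
      have h0 : (0 : ℤ) < e₀ := by exact_mod_cast he₀p
      have h1 : (1 : ℤ) < l' := by exact_mod_cast hl'.2.1.one_lt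
      have h2 : (e₀ : ℤ) < l * e₀ := by nlinarith
      rw [Pi.add_apply, HahnSeries.coeff_add, hfc, hfc', hΦγ _ (by nlinarith),
        hΦγ (l' * _) (by nlinarith), zero_add, zero_add, if_pos (Dvd.intro _ rfl).neg_right,
        ← mul_neg, Int.mul_ediv_cancel_left _ (by omega)]
      split_ifs with hd
      · obtain ⟨j, hj⟩ := hd
        rw [hj, Int.mul_ediv_cancel_left _ (by omega), hΦγ j (by nlinarith), add_zero]
        exact hΦγ'
      · rwa [add_zero])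
  have hall : ∀ n ∈ S, ∃ n₁ : ℕ, n = (m * n₁ : ℕ) ∧ n₁ ≠ 0 ∧ (n₁ : ℤ) ≡ c [ZMOD 3 * E] ∧
      ¬coeff (l * n₁) Θ ≡ coeff (l' * n₁) Θ [ZMOD 2] := fun n hn => by
    obtain ⟨h1, h2, h4⟩ := hS2 n hn
    have h5 : n ≠ 0 := by
      rintro rfl
      have h6 := (h2.of_dvd (dvd_pow_self 2 (by omega))).dvd
      rw [zero_mul, sub_zero] at h6
      exact (Int.not_even_iff_odd.2
        (((hl.2.1.odd_of_ne_two (by omega)).natCast.mul he₀o.natCast).neg)) (even_iff_two_dvd.2 h6)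
    rw [Pi.add_apply, HahnSeries.coeff_add, hfc, hfc'] at h1
    have h7 : (C : ℤ) * 4 ^ s < l' := by exact_mod_cast h4s.trans_lt hl'.1.1
    have h8 : ∀ p : ℕ, (l' : ℤ) ≤ p →
        (if (p : ℤ) ∣ n then (Φ 1).coeff (n / p) else 0) = 0 := fun p hp => by
      split_ifs with hd
      · obtain ⟨j, rfl⟩ := hd
        rw [Int.mul_ediv_cancel_left _ (by omega)]
        refine hΦ0 j (lt_of_le_of_ne ?_ (right_ne_zero_of_mul h5))
        by_contra h
        nlinarith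
      · rfl
    rw [h8 l hll'.le, h8 l' le_rfl, add_zero, add_zero] at h1
    have h9 : 0 ≤ n := by
      by_contra h
      exact h1 (by rw [hΦ0 _ (by nlinarith), hΦ0 _ (by nlinarith), add_zero])
    obtain ⟨n, rfl⟩ := Int.eq_ofNat_of_zero_le h9
    rw [← Nat.cast_mul, ← Nat.cast_mul, hΦ1, hΦ1] at h1
    have hdv : ∀ p : ℕ, p ≡ 1 [MOD 3 * (m * E)] → m ∣ p * n → m ∣ n := fun p hp h => by
      have h10 : p * n ≡ 1 * n [MOD m] := ((hp.of_mul_left _).of_mul_right _).mul_right n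
      rw [one_mul] at h10
      exact (Nat.modEq_zero_iff_dvd.1 (h10.symm.trans (Nat.modEq_zero_iff_dvd.2 h)))
    obtain ⟨n₁, rfl⟩ : m ∣ n := by
      by_contra h
      exact h1 (by rw [if_neg fun h' => h (hdv l (hmod l hl.2.2).2 h'.1),
        if_neg fun h' => h (hdv l' (hmod l' hl'.2.2).2 h'.1), add_zero])
    have hcl : ∀ p : ℕ, p ≡ 1 [MOD 3 * (m * E)] → ((p * n₁ : ℕ) : ℤ) ≡ n₁ [ZMOD 3 * E] :=
      fun p hp => by
        have h10 : p * n₁ ≡ 1 * n₁ [MOD 3 * E] :=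
          (hp.of_dvd ⟨m, by ring⟩).mul_right n₁
        rw [one_mul] at h10
        exact_mod_cast Int.natCast_modEq_iff.2 h10
    rw [mul_left_comm l, mul_left_comm l', Nat.mul_div_cancel_left _ hm0,
      Nat.mul_div_cancel_left _ hm0] at h1
    have h11 : (n₁ : ℤ) ≡ c [ZMOD 3 * E] := by
      by_contra h
      exact h1 (by rw [if_neg fun h' => h ((hcl l (hmod l hl.2.2).2).symm.trans h'.2),
        if_neg fun h' => h ((hcl l' (hmod l' hl'.2.2).2).symm.trans h'.2), add_zero])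
    refine ⟨n₁, rfl, by rintro rfl; exact h5 rfl, h11, fun h => h1 ?_⟩
    rw [if_pos ⟨Dvd.intro _ rfl, (hcl l (hmod l hl.2.2).2).trans h11⟩,
      if_pos ⟨Dvd.intro _ rfl, (hcl l' (hmod l' hl'.2.2).2).trans h11⟩,
      (CharP.intCast_eq_intCast F 2).2 h, CharTwo.add_self_eq_zero]
  choose! ν hν hν0 hν1 hν2 using hall
  refine ⟨S.image ν, ?_, fun n₁ hn₁ => ?_⟩
  · rw [Finset.card_image_of_injOn fun n hn n' hn' h => by rw [hν n hn, hν n' hn', h]]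
    exact hS1.trans (by gcongr; omega)
  obtain ⟨n, hn, rfl⟩ := Finset.mem_image.1 hn₁
  obtain ⟨-, h2, h4⟩ := hS2 n hn
  rw [hν n hn] at h2 h4
  have h5 : m * ν n ≤ C * 4 ^ s := by exact_mod_cast h4
  have hfin : ∀ p : ℕ, p ≡ a₀ [MOD 2 ^ α * (3 * (m * E))] → 8 ^ s < p →
      ∃ w, p * ν n = c + 2 ^ α * (3 * E) * w := fun p hp hp' => by
    have h6 : (m * u : ℤ) * (p * ν n) ≡ m * u * c [ZMOD 2 ^ α] := by
      have h7 := (h2.mul (hmod p hp).1).trans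
        (((hmod l hl.2.2).1.mul_right (e₀ : ℤ)).neg.mul_right (3 ^ κ))
      rw [show -((3 : ℤ) ^ κ * e₀) * 3 ^ κ = -e₀ * 9 ^ κ by
        rw [show (9 : ℤ) = 3 * 3 by norm_num, mul_pow]; ring] at h7
      have h8 := h7.trans hκ
      push_cast at h8
      convert h8 using 1 <;> ring
    have h7 : (p * ν n : ℤ) ≡ c [ZMOD 3 * E] := by
      have h10 : p * ν n ≡ 1 * ν n [MOD 3 * E] :=
        ((hmod p hp).2.of_dvd ⟨m, by ring⟩).mul_right _
      rw [one_mul] at h10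
      exact Int.ModEq.trans (by exact_mod_cast Int.natCast_modEq_iff.2 h10) (hν1 n hn)
    have h8 : p * ν n ≡ c [MOD 2 ^ α * (3 * E)] :=
      (Nat.modEq_and_modEq_iff_modEq_mul ((Nat.coprime_two_left.2
        ((Nat.odd_iff.2 rfl).mul hE)).pow_left _)).1
        ⟨Int.natCast_modEq_iff.1 (by exact_mod_cast c3_cancel (hmZ.mul huo) h6),
          Int.natCast_modEq_iff.1 (by exact_mod_cast h7)⟩
    have h9 : c ≤ p * ν n :=
      le_trans (by omega) (Nat.le_mul_of_pos_right p (Nat.pos_of_ne_zero (hν0 n hn)))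
    obtain ⟨w, hw⟩ := (Nat.modEq_iff_dvd' h9).1 h8.symm
    exact ⟨w, by omega⟩
  obtain ⟨w, hw⟩ := hfin l hl.2.2 hl.1.1
  obtain ⟨w', hw'⟩ := hfin l' hl'.2.2 hl'.1.1
  exact ⟨hν0 n hn, ((Nat.le_mul_of_pos_left _ hm0).trans h5).trans (by gcongr; omega),
    w, w', hw, hw', hν2 n hn⟩

theorem main {j m A B r : ℕ} (hj : j ≠ 0) (hm : Odd m) (hjm : 2 ^ j < m) (hA : A ≠ 0)
    (hr : r < 2) : ∃ κ : ℝ, 0 < κ ∧ ∀ᶠ x : ℕ in Filter.atTop,
      κ * (x : ℝ) ^ (4 / 5 : ℝ) / Real.log x ≤ (((Finset.range (x + 1)).filter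
        fun n => reg (2 ^ j * m) (A * n + B) % 2 = r).card : ℝ) := by
  obtain ⟨Θ, hΘ, h3, h2⟩ := exists_Theta j hm.pos.ne'
  obtain ⟨μ, hμ⟩ : ∃ μ, 2 ^ j * m = μ + 1 :=
    Nat.exists_eq_succ_of_ne_zero (by have := hm.pos; positivity)
  obtain ⟨k, hk⟩ : ∃ k, 2 ^ j = k + 1 := Nat.exists_eq_succ_of_ne_zero (by positivity)
  obtain ⟨a, E, hE, rfl⟩ := Nat.exists_eq_two_pow_mul_odd hA
  have hko : Odd k := by
    have : Even (k + 1) := hk ▸ (Nat.even_pow.2 ⟨even_two, hj⟩)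
    exact Nat.not_even_iff_odd.1 (Nat.even_add_one.1 this)
  have hμZ : ((k : ℤ) + 1) * m = μ + 1 := by rw [hk] at hμ; exact_mod_cast hμ
  obtain ⟨C, s₀, h⟩ := pairs (α := a + 3) (c := 24 * B + μ) hko (hk ▸ hjm) hm hE (by omega)
    (hk ▸ hΘ) (fun n hn => h3 n fun h4 => hn (by
      rw [hμ] at h4
      unfold Nat.ModEq at h4
      unfold Int.ModEq
      omega)) (by rw [hμZ]; unfold Int.ModEq; omega)
  refine count (β := fun n => reg (2 ^ j * m) (2 ^ a * E * n + B) % 2) (c := 24 * B + μ)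
    (d := 2 ^ (a + 3) * (3 * E)) (C := C) (s₀ := s₀) (by have := hE.pos; positivity)
    (fun u => Nat.mod_lt _ two_pos) (fun s hs => ?_) hr
  obtain ⟨T, h4, h5, h6⟩ := h s hs
  refine ⟨T, h4, h5, fun l hl l' hl' hll => ?_⟩
  obtain ⟨S, h7, h8⟩ := h6 l hl l' hl' hll
  refine ⟨S, h7, fun n hn => ?_⟩
  obtain ⟨h9, h10, u, u', hu, hu', h11⟩ := h8 n hn
  refine ⟨h9, h10, u, u', hu, hu', fun h12 => h11 ?_⟩
  have e : ∀ u, 24 * B + μ + 2 ^ (a + 3) * (3 * E) * u =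
      24 * (2 ^ a * E * u + B) + (2 ^ j * m - 1) := fun u => by
    rw [hμ, Nat.add_sub_cancel]; ring
  rw [hu, hu', e, e]
  exact (h2 _).trans (Int.ModEq.trans (Int.natCast_modEq_iff.2 h12) (h2 _).symm)

end Subb.Q

end
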